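import Pool.Agent.W_7742w_h74.SieA
import Pool.Agent.W_7742c_h74.Siegel

/-!
# Traces of totally positive algebraic integers (Siegel, Smyth)

For a polynomial `P` over `ℤ` with `P(t) ≠ 0` the number `∏_σ |σ (P(t))|` is the absolute value of
the norm of a nonzero algebraic integer, so it is `≥ 1` and `∑_σ log |σ (P(t))| ≥ 0`.  Sum
`aux_real` over `x = σ t`.  Exceptional cases: `t = 2`: `2 ≥ 5 / 3`.  If
`t ^ 3 - 5 t ^ 2 + 6 t - 1 = 0` then this is the minimal polynomial (no rational root) and the trace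
is `5 / 3 [K : ℚ]` (`trace_eq_finrank_mul_minpoly_nextCoeff` or similar,
`trace_eq_sum_embeddings`).  See also `Pool/Agent/W_7742c_h74/Siegel.lean` for the bound `3 / 2`.
-/

set_option autoImplicit false

noncomputable section

namespace Pool.Agent.H74W

open Polynomial

/-- The cubic polynomial. -/
def sieCub : ℚ[X] := X ^ 3 - C 5 * X ^ 2 + C 6 * X - 1

theorem sieCub_natDegree : sieCub.natDegree = 3 := by
  unfold sieCub
  compute_degree!

theorem sieCub_monic : sieCub.Monic := by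
  unfold sieCub
  monicity!

theorem sieCub_nextCoeff : sieCub.nextCoeff = -5 := by
  rw [Polynomial.nextCoeff, if_neg (by rw [sieCub_natDegree]; norm_num), sieCub_natDegree]
  unfold sieCub
  simp [coeff_X, coeff_one]

theorem sieCub_noroot (x : ℚ) : ¬ sieCub.IsRoot x := by
  intro hx
  have h1 : x ^ 3 - 5 * x ^ 2 + 6 * x - 1 = 0 := by
    have := hx
    unfold sieCub at this
    simpa [IsRoot] using this
  have hint : IsIntegral ℤ x := by
    refine ⟨X ^ 3 - C 5 * X ^ 2 + C 6 * X - 1, by monicity!, ?_⟩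
    simp only [eval₂_sub, eval₂_add, eval₂_mul, eval₂_pow, eval₂_X, eval₂_C, eval₂_one]
    push_cast
    simpa using h1
  obtain ⟨z, hz⟩ := IsIntegrallyClosed.isIntegral_iff.1 hint
  have hz' : (z : ℚ) = x := by simpa using hz
  rw [← hz'] at h1
  have h2 : z * (z ^ 2 - 5 * z + 6) = 1 := by
    have h3 : (z : ℚ) * ((z : ℚ) ^ 2 - 5 * z + 6) = 1 := by linarith
    exact_mod_cast h3
  rcases Int.isUnit_iff.1 (IsUnit.of_mul_eq_one _ h2) with h | h
  · rw [h] at h2; norm_num at h2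
  · rw [h] at h2; norm_num at h2

theorem sieCub_irreducible : Irreducible sieCub :=
  Polynomial.irreducible_of_degree_le_three_of_not_isRoot
    (by rw [sieCub_natDegree]; simp) sieCub_noroot

theorem sum_emb_eq_trace {K : Type} [Field K] [NumberField K] (t : K) :
    ∑ σ : K →+* ℂ, σ t = (Algebra.trace ℚ K t : ℂ) := by
  have h := trace_eq_sum_embeddings (K := ℚ) (L := K) ℂ (x := t)
  rw [← Fintype.sum_equiv (RingHom.equivRatAlgHom K ℂ) (fun f => f t) (fun φ => φ t)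
    fun _ => by simp [RingHom.equivRatAlgHom_apply]] at h
  rw [← h]
  simp

theorem sum_of_cubic {K : Type} [Field K] [NumberField K] {t : K}
    (h3 : t ^ 3 - 5 * t ^ 2 + 6 * t - 1 = 0) :
    ∑ σ : K →+* ℂ, σ t = (5 / 3 * (Fintype.card (K →+* ℂ) : ℝ) : ℝ) := by
  have hmin : sieCub = minpoly ℚ t := by
    refine minpoly.eq_of_irreducible_of_monic sieCub_irreducible ?_ sieCub_monic
    unfold sieCub
    simpa using h3
  have htr := trace_eq_finrank_mul_minpoly_nextCoeff ℚ t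
  rw [← hmin, sieCub_nextCoeff, neg_neg] at htr
  have hi : IsIntegral ℚ t := Algebra.IsIntegral.isIntegral t
  have hdeg : Module.finrank ℚ (IntermediateField.adjoin ℚ {t}) = 3 := by
    rw [IntermediateField.adjoin.finrank hi, ← hmin, sieCub_natDegree]
  have hmul := Module.finrank_mul_finrank ℚ (IntermediateField.adjoin ℚ {t}) K
  rw [hdeg] at hmul
  have hcard : Fintype.card (K →+* ℂ) = Module.finrank ℚ K := NumberField.Embeddings.card K ℂ
  rw [sum_emb_eq_trace, htr, hcard, ← hmul]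
  push_cast
  ring

theorem trace_bound {K : Type} [Field K] [NumberField K] {t : K} (hint : IsIntegral ℤ t)
    (hpos : ∀ σ : K →+* ℂ, ∃ x : ℝ, 0 ≤ x ∧ σ t = x) (h0 : t ≠ 0) (h1 : t ≠ 1)
    (h5 : t ^ 2 - 3 * t + 1 ≠ 0) :
    5 / 3 * (Fintype.card (K →+* ℂ) : ℝ) ≤ ∑ σ : K →+* ℂ, (σ t).re := by
  by_cases h3 : t ^ 3 - 5 * t ^ 2 + 6 * t - 1 = 0
  · have h := sum_of_cubic h3
    have h' := congrArg Complex.re h
    rw [Complex.re_sum, Complex.ofReal_re] at h'
    exact h'.ge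
  by_cases h2 : t = 2
  · subst h2
    simp only [map_ofNat]
    rw [Finset.sum_const, Finset.card_univ, nsmul_eq_mul]
    have hn : (0 : ℝ) ≤ (Fintype.card (K →+* ℂ) : ℝ) := Nat.cast_nonneg _
    simp only [Complex.re_ofNat]
    linarith
  have hr : ∀ σ : K →+* ℂ, σ t = (((σ t).re : ℝ) : ℂ) := by
    intro σ
    obtain ⟨x, _, hx⟩ := hpos σ
    rw [hx, Complex.ofReal_re]
  have hnn : ∀ σ : K →+* ℂ, 0 ≤ (σ t).re := by
    intro σ
    obtain ⟨x, hx0, hx⟩ := hpos σ
    rw [hx, Complex.ofReal_re]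
    exact hx0
  set r : (K →+* ℂ) → ℝ := fun σ => (σ t).re with hrdef
  have hr' : ∀ σ : K →+* ℂ, σ t = (r σ : ℂ) := hr
  -- values of integral polynomials
  have key : ∀ (u : K) (v : (K →+* ℂ) → ℝ), IsIntegral ℤ u → u ≠ 0 → (∀ σ, σ u = (v σ : ℂ)) →
      (∀ σ, v σ ≠ 0) ∧ 0 ≤ ∑ σ : K →+* ℂ, Real.log |v σ| := by
    intro u v hu hu0 huv
    refine ⟨fun σ h => ?_, H74E.sum_log_nonneg' hu hu0 fun σ => by
      rw [huv σ, Complex.norm_real]; rfl⟩
    have := huv σ
    rw [h, Complex.ofReal_zero, map_eq_zero] at this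
    exact hu0 this
  have i2 : IsIntegral ℤ (2 : K) := by
    simpa using isIntegral_algebraMap (R := ℤ) (A := K) (x := 2)
  have i3 : IsIntegral ℤ (3 : K) := by
    simpa using isIntegral_algebraMap (R := ℤ) (A := K) (x := 3)
  have i5 : IsIntegral ℤ (5 : K) := by
    simpa using isIntegral_algebraMap (R := ℤ) (A := K) (x := 5)
  have i6 : IsIntegral ℤ (6 : K) := by
    simpa using isIntegral_algebraMap (R := ℤ) (A := K) (x := 6)
  obtain ⟨n0, l0⟩ := key t r hint h0 hr'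
  obtain ⟨n1, l1⟩ := key (t - 1) (fun σ => r σ - 1) (hint.sub isIntegral_one)
    (sub_ne_zero.2 h1) (fun σ => by rw [map_sub, map_one, hr' σ]; push_cast; rfl)
  obtain ⟨n2, l2⟩ := key (t - 2) (fun σ => r σ - 2) (hint.sub i2)
    (sub_ne_zero.2 h2) (fun σ => by rw [map_sub, map_ofNat, hr' σ]; push_cast; rfl)
  obtain ⟨n4, l4⟩ := key (t ^ 2 - 3 * t + 1) (fun σ => r σ ^ 2 - 3 * r σ + 1)
    (((hint.pow 2).sub (i3.mul hint)).add isIntegral_one) h5
    (fun σ => by
      rw [map_add, map_sub, map_mul, map_pow, map_one, map_ofNat, hr' σ]; push_cast; rfl)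
  obtain ⟨n5, l5⟩ := key (t ^ 3 - 5 * t ^ 2 + 6 * t - 1)
    (fun σ => r σ ^ 3 - 5 * r σ ^ 2 + 6 * r σ - 1)
    ((((hint.pow 3).sub (i5.mul (hint.pow 2))).add (i6.mul hint)).sub isIntegral_one) h3
    (fun σ => by
      simp only [map_add, map_sub, map_mul, map_pow, map_one, map_ofNat, hr' σ]; push_cast; rfl)
  obtain ⟨a, b, c, d, e, ha, hb, hc, hd, he, hmain⟩ := aux_real
  have hsum : ∑ _σ : K →+* ℂ, (5 / 3 : ℝ) ≤ ∑ σ : K →+* ℂ, (r σ - a * Real.log (r σ) -
      b * Real.log |r σ - 1| - c * Real.log |r σ ^ 2 - 3 * r σ + 1| -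
      d * Real.log |r σ ^ 3 - 5 * r σ ^ 2 + 6 * r σ - 1| - e * Real.log |r σ - 2|) :=
    Finset.sum_le_sum fun σ _ => hmain (r σ) (lt_of_le_of_ne (hnn σ) (n0 σ).symm)
      (sub_ne_zero.1 (n1 σ)) (sub_ne_zero.1 (n2 σ)) (n4 σ) (n5 σ)
  rw [Finset.sum_const, Finset.card_univ, nsmul_eq_mul, Finset.sum_sub_distrib,
    Finset.sum_sub_distrib, Finset.sum_sub_distrib, Finset.sum_sub_distrib,
    Finset.sum_sub_distrib, ← Finset.mul_sum, ← Finset.mul_sum, ← Finset.mul_sum,
    ← Finset.mul_sum, ← Finset.mul_sum] at hsum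
  simp only [Real.log_abs] at l0
  have m0 := mul_nonneg ha l0
  have m1 := mul_nonneg hb l1
  have m2 := mul_nonneg he l2
  have m4 := mul_nonneg hc l4
  have m5 := mul_nonneg hd l5
  linarith

end Pool.Agent.H74W
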