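import Pool.Agent.W_7742m_h74.ThomA

/-!
# From bounds for finite sums over primes to lower densities
-/

set_option autoImplicit false

noncomputable section

namespace Pool.Agent.H74W

open Filter Topology Pool.Agent.Maass74
open Pool.Agent.H74E Pool.Agent.H74E.SatakeSystem

/-- If the sum of the `p ^ (-s)` over the `p` with `¬ Z p` is at most `θ log (1 / (s - 1)) + C`, then
the primes with `Z p` have lower density at least `1 - θ`. -/
theorem dens_of_bound {N : ℕ} (hN : 0 < N) (Z : ℕ → Prop) {θ : ℝ} (hθ : 0 ≤ θ) {C : ℝ}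
    (h : ∀ s : ℝ, 1 < s → s ≤ 2 → ∀ Q : Finset ℕ, (∀ p ∈ Q, p.Prime ∧ ¬ p ∣ N ∧ ¬ Z p) →
      ∑ p ∈ Q, (p : ℝ) ^ (-s) ≤ θ * -Real.log (s - 1) + C) {ε : ℝ} (hε : 0 < ε) :
    ∀ᶠ s in 𝓝[>] (1 : ℝ), (1 - θ - ε) * Maass74.primeSum (fun _ => True) s ≤
      Maass74.primeSum (fun p => ¬ p ∣ N ∧ Z p) s := by
  classical
  set PZ : ℕ → Prop := fun p => ¬ p ∣ N ∧ Z p with hPZ
  set PB : ℕ → Prop := fun p => p ∣ N with hPB
  obtain ⟨C0, hC0⟩ := neg_log_le_primes
  have hmain : ∀ s : ℝ, 1 < s → s ≤ 2 →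
      ∑' p : Nat.Primes, ((p : ℕ) : ℝ) ^ (-s) -
        (∑' p : Nat.Primes, ind PB p * ((p : ℕ) : ℝ) ^ (-s) +
        ∑' p : Nat.Primes, ind PZ p * ((p : ℕ) : ℝ) ^ (-s)) ≤ θ * -Real.log (s - 1) + C := by
    intro s hs hs2
    have hPsum := summable_primes_rpow hs
    have hind : ∀ Q : ℕ → Prop, Summable fun p : Nat.Primes =>
        ind Q p * ((p : ℕ) : ℝ) ^ (-s) := by
      intro Q
      refine Summable.of_nonneg_of_le (fun p => mul_nonneg (ind_nonneg _ _) (by positivity))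
        (fun p => ?_) hPsum
      exact mul_le_of_le_one_left (by positivity) (ind_le_one _ _)
    have hsum := hPsum.sub ((hind PB).add (hind PZ))
    rw [← (hind PB).tsum_add (hind PZ), ← hPsum.tsum_sub ((hind PB).add (hind PZ))]
    refine hsum.tsum_le_of_sum_le fun S => ?_
    let Q : Finset ℕ := (S.filter fun p : Nat.Primes => ¬ ((p : ℕ) ∣ N) ∧ ¬ Z p).map
      ⟨fun p : Nat.Primes => (p : ℕ), Nat.Primes.coe_nat_injective⟩
    have hQ : ∀ p ∈ Q, p.Prime ∧ ¬ p ∣ N ∧ ¬ Z p := by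
      intro p hp
      simp only [Q, Finset.mem_map, Finset.mem_filter, Function.Embedding.coeFn_mk] at hp
      obtain ⟨q, ⟨-, hq⟩, rfl⟩ := hp
      exact ⟨q.2, hq⟩
    refine le_trans ?_ (h s hs hs2 Q hQ)
    rw [Finset.sum_map, ← Finset.sum_filter_add_sum_filter_not S
      (fun p : Nat.Primes => ¬ ((p : ℕ) ∣ N) ∧ ¬ Z p)]
    have h1 : ∑ p ∈ S.filter (fun p : Nat.Primes => ¬ (¬ ((p : ℕ) ∣ N) ∧ ¬ Z p)),
        (((p : ℕ) : ℝ) ^ (-s) - (ind PB p * ((p : ℕ) : ℝ) ^ (-s) +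
          ind PZ p * ((p : ℕ) : ℝ) ^ (-s))) ≤ 0 := by
      refine Finset.sum_nonpos fun p hp => ?_
      have hp2 := (Finset.mem_filter.1 hp).2
      have hpos : (0 : ℝ) ≤ ((p : ℕ) : ℝ) ^ (-s) := by positivity
      by_cases hpN : (p : ℕ) ∣ N
      · rw [ind_pos (P := PB) hpN]
        have := mul_nonneg (ind_nonneg PZ p) hpos
        linarith
      · have hZ : Z p := by
          by_contra hZ
          exact hp2 ⟨hpN, hZ⟩
        rw [ind_pos (P := PZ) ⟨hpN, hZ⟩]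
        have := mul_nonneg (ind_nonneg PB p) hpos
        linarith
    have h2 : ∑ p ∈ S.filter (fun p : Nat.Primes => ¬ ((p : ℕ) ∣ N) ∧ ¬ Z p),
        (((p : ℕ) : ℝ) ^ (-s) - (ind PB p * ((p : ℕ) : ℝ) ^ (-s) +
          ind PZ p * ((p : ℕ) : ℝ) ^ (-s))) ≤
        ∑ p ∈ S.filter (fun p : Nat.Primes => ¬ ((p : ℕ) ∣ N) ∧ ¬ Z p), ((p : ℕ) : ℝ) ^ (-s) := by
      refine Finset.sum_le_sum fun p _ => ?_
      have hpos : (0 : ℝ) ≤ ((p : ℕ) : ℝ) ^ (-s) := by positivity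
      have e1 := mul_nonneg (ind_nonneg PZ p) hpos
      have e2 := mul_nonneg (ind_nonneg PB p) hpos
      linarith
    simp only [Function.Embedding.coeFn_mk]
    linarith
  have hBad : ∀ s : ℝ, 1 < s → ∑' p : Nat.Primes, ind PB p * ((p : ℕ) : ℝ) ^ (-s) ≤
      (N.primeFactors.card : ℝ) := by
    intro s hs
    rw [← primeSum_eq, SatakeSystem.primeSum]
    have hset : {p : ℕ | p.Prime ∧ p ∣ N} = (N.primeFactors : Set ℕ) := by
      ext p
      simp [Nat.mem_primeFactors, hN.ne']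
    have e1 : ∑' p : {p : ℕ // p.Prime ∧ PB p}, ((p : ℕ) : ℝ) ^ (-s) =
        ∑' p : (N.primeFactors : Set ℕ), ((p : ℕ) : ℝ) ^ (-s) := by
      rw [← hset]
      rfl
    rw [e1, Finset.tsum_subtype' N.primeFactors (fun p : ℕ => (p : ℝ) ^ (-s)), Finset.card_eq_sum_ones]
    push_cast
    refine Finset.sum_le_sum fun p hp => ?_
    have h1p : (1 : ℝ) ≤ (p : ℝ) := by
      exact_mod_cast (Nat.prime_of_mem_primeFactors hp).one_lt.le
    exact Real.rpow_le_one_of_one_le_of_nonpos h1p (by linarith)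
  have hlt2 : ∀ᶠ s in 𝓝[>] (1 : ℝ), s < 2 :=
    (eventually_lt_nhds (by norm_num : (1 : ℝ) < 2)).filter_mono nhdsWithin_le_nhds
  set C1 : ℝ := C + θ * C0 + (N.primeFactors.card : ℝ) with hC1
  filter_upwards [hC0, tendsto_neg_log.eventually_ge_atTop (C1 / ε + C0), hlt2,
    self_mem_nhdsWithin] with s h2 h3 h4 h5
  have hs : (1 : ℝ) < s := h5
  set P : ℝ := ∑' p : Nat.Primes, ((p : ℕ) : ℝ) ^ (-s) with hP
  have hall1 : Maass74.primeSum (fun _ => True) s = P := by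
    have : Maass74.primeSum (fun _ => True) s = SatakeSystem.primeSum (fun _ => True) s := rfl
    rw [this, primeSum_eq, hP]
    exact tsum_congr fun p => by rw [ind_pos (P := fun _ => True) trivial, one_mul]
  have hZZ : Maass74.primeSum PZ s = ∑' p : Nat.Primes, ind PZ p * ((p : ℕ) : ℝ) ^ (-s) := by
    have : Maass74.primeSum PZ s = SatakeSystem.primeSum PZ s := rfl
    rw [this, primeSum_eq]
  have h6 := hmain s hs h4.le
  have h7 := hBad s hs
  rw [← hZZ] at h6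
  rw [hall1]
  have h8 : θ * -Real.log (s - 1) ≤ θ * (P + C0) := mul_le_mul_of_nonneg_left h2 hθ
  have h9 : C1 ≤ ε * P := by
    have h10 : C1 / ε ≤ P := by linarith
    have := mul_le_mul_of_nonneg_left h10 hε.le
    rwa [mul_div_cancel₀ _ hε.ne'] at this
  rw [hC1] at h9
  linarith

end Pool.Agent.H74W
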