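import Pool.Agent.W_7742w_h74.Hd

/-!
# Existence of the depleted form

As in `Pool/Agent/W_7742r_h74/ExRS.lean`, proof of `exists_rs`: let `c` be the coefficients
(`exists_expansion_K0`), `m` the minimal index with `c m ≠ 0` or `c (-m) ≠ 0`, all its prime
divisors divide `N`, `F = depl N (upf m f)`.  The parity gives
`coord f (-x) y = ε * coord f x y`, so `c (-n) = ε * c n` (substitute `x ↦ -x` in `fc` and compare
with `IsExpansion.eq` at a `y` with `w0 (|n| y) ≠ 0`; `w0 > 0`), and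
`A n = √m * c (n m)` if `n ≥ 1` is prime to `N`, `A n = 0` otherwise:
`fc (coord F) n y = [(n, N) = 1] m c (n m) w0(|n| y) / √(|n| m)`, `w0(n y) = √(n y) K0(2 π n y)`.
-/

set_option autoImplicit false

noncomputable section

namespace Pool.Agent.H74W

open UpperHalfPlane CongruenceSubgroup ComplexConjugate Pool.Agent.Maass74 Pool.Agent.MaassRS74
open scoped MatrixGroups

theorem ExD_w0_pos {y : ℝ} (hy : 0 < y) : 0 < w0 y := by
  unfold w0
  have h1 := K0_pos (show 0 < 2 * Real.pi * y by positivity)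
  have h2 := Real.sqrt_pos.2 hy
  positivity

theorem ExD_coord_neg {f : ℍ → ℂ} {ε : ℂ}
    (hpar : ∀ z : ℍ, f (ofComplex (-conj (z : ℂ))) = ε * f z) (x y : ℝ) (hy : 0 < y) :
    coord f (-x) y = ε * coord f x y := by
  have hz : 0 < ((x : ℂ) + y * Complex.I).im := by simpa using hy
  have h1 := hpar ⟨(x : ℂ) + y * Complex.I, hz⟩
  have h2 : f ⟨(x : ℂ) + y * Complex.I, hz⟩ = coord f x y := by
    unfold coord
    rw [ofComplex_apply_of_im_pos hz]
  have h3 : coord f (-x) y =
      f (ofComplex (-conj ((⟨(x : ℂ) + y * Complex.I, hz⟩ : ℍ) : ℂ))) := by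
    unfold coord
    congr 2
    show ((-x : ℝ) : ℂ) + y * Complex.I = -conj ((x : ℂ) + y * Complex.I)
    rw [map_add, map_mul, Complex.conj_ofReal, Complex.conj_ofReal, Complex.conj_I]
    push_cast
    ring
  rw [h3, h1, h2]

theorem ExD_fc_neg {f : ℍ → ℂ} {ε : ℂ} (hW : IsWave (coord f))
    (hpar : ∀ z : ℍ, f (ofComplex (-conj (z : ℂ))) = ε * f z) (n : ℤ) (y : ℝ) (hy : 0 < y) :
    fc (coord f) (-n) y = ε * fc (coord f) n y := by
  unfold fc
  have h1 := intervalIntegral.integral_comp_sub_left (a := (0 : ℝ)) (b := 1)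
    (fun x : ℝ => Complex.exp (-(2 * Real.pi * Complex.I * ((-n : ℤ) : ℂ) * (x : ℂ))) *
      coord f x y) (1 : ℝ)
  rw [sub_self, sub_zero] at h1
  rw [← h1, ← intervalIntegral.integral_const_mul]
  refine intervalIntegral.integral_congr fun x _ => ?_
  have h2 : coord f (1 - x) y = ε * coord f x y := by
    rw [← ExD_coord_neg hpar x y hy, ← hW.periodic (-x) y hy]
    congr 1
    ring
  have h3 : Complex.exp (-(2 * Real.pi * Complex.I * ((-n : ℤ) : ℂ) * ((1 - x : ℝ) : ℂ))) =
      Complex.exp (-(2 * Real.pi * Complex.I * (n : ℂ) * (x : ℂ))) := by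
    rw [Complex.exp_eq_exp_iff_exists_int]
    refine ⟨n, ?_⟩
    push_cast
    ring
  rw [h2, h3]
  ring

theorem ExD_c_neg {f : ℍ → ℂ} {ε : ℂ} (hW : IsWave (coord f)) {c : ℤ → ℂ}
    (hE : IsExpansion (coord f) (fun y => (w0 y : ℂ)) c)
    (hpar : ∀ z : ℍ, f (ofComplex (-conj (z : ℂ))) = ε * f z) (n : ℤ) : c (-n) = ε * c n := by
  by_cases hn : n = 0
  · rw [hn, neg_zero, hE.zero, mul_zero]
  · have hr : 0 < |(n : ℝ)| := abs_pos.2 (by exact_mod_cast hn)
    have h1 := ExD_fc_neg hW hpar n 1 one_pos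
    rw [hE.eq (-n) 1 one_pos, hE.eq n 1 one_pos] at h1
    have h2 : |((-n : ℤ) : ℝ)| = |(n : ℝ)| := by
      rw [Int.cast_neg, abs_neg]
    rw [h2] at h1
    have h3 : (w0 (|(n : ℝ)| * 1) : ℂ) ≠ 0 := by
      rw [Complex.ofReal_ne_zero]
      exact (ExD_w0_pos (by positivity)).ne'
    have h4 : (Real.sqrt |(n : ℝ)| : ℂ) ≠ 0 := by
      rw [Complex.ofReal_ne_zero]
      exact (Real.sqrt_pos.2 hr).ne'
    rw [← mul_div_assoc, div_left_inj' h4, ← mul_assoc] at h1
    exact mul_right_cancel₀ h3 h1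

theorem ExD_term {c : ℂ} {m : ℕ} (hm : 0 < m) {y : ℝ} (hy : 0 < y) {n : ℤ} {k : ℕ}
    (hk : 0 < k) (hn : |(n : ℝ)| = k) :
    (m : ℂ) * (c * (w0 (|((n * m : ℤ) : ℝ)| * (y / m)) : ℂ) /
      (Real.sqrt |((n * m : ℤ) : ℝ)| : ℂ)) =
      (Real.sqrt m : ℂ) * c * ((Real.sqrt y * K0 (2 * Real.pi * k * y) : ℝ) : ℂ) := by
  have hm' : (0 : ℝ) < m := by exact_mod_cast hm
  have hk' : (0 : ℝ) < k := by exact_mod_cast hk
  have h1 : |((n * m : ℤ) : ℝ)| = k * m := by
    push_cast
    rw [abs_mul, hn, abs_of_pos hm']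
  have h2 : (k : ℝ) * m * (y / m) = k * y := by
    field_simp
  rw [h1, h2]
  unfold w0
  have h4 : 2 * Real.pi * ((k : ℝ) * y) = 2 * Real.pi * k * y := by ring
  rw [h4, Real.sqrt_mul hk'.le, Real.sqrt_mul hk'.le]
  have h5 : (Real.sqrt k : ℂ) ≠ 0 := by
    rw [Complex.ofReal_ne_zero]
    exact (Real.sqrt_pos.2 hk').ne'
  have h6 : (Real.sqrt m : ℂ) ≠ 0 := by
    rw [Complex.ofReal_ne_zero]
    exact (Real.sqrt_pos.2 hm').ne'
  have h7 : (m : ℂ) = (Real.sqrt m : ℂ) * (Real.sqrt m : ℂ) := by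
    rw [← Complex.ofReal_mul, Real.mul_self_sqrt hm'.le]
    simp
  push_cast
  rw [h7]
  field_simp

theorem exists_depl {N : ℕ} [NeZero N] {χ : DirichletCharacter ℂ N} {f : ℍ → ℂ}
    (hf : IsMaassCuspForm N χ f) (h0 : ∃ z, f z ≠ 0) {ε : ℂ} (hε : ε = 1 ∨ ε = -1)
    (hpar : ∀ z : ℍ, f (ofComplex (-conj (z : ℂ))) = ε * f z) {a : ℕ → ℂ}
    (ha : ∀ p : ℕ, p.Prime → ¬ p ∣ N → ∀ z, hecke χ p f z = a p * f z) :
    ∃ (F : ℍ → ℂ) (A : ℕ → ℂ), IsDepl χ ε a F A := by
  classical
  obtain ⟨z, hz⟩ := h0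
  have hN : 0 < N := Nat.pos_of_ne_zero (NeZero.ne N)
  have hW := isWave_coord hf
  have hne : ∃ x y : ℝ, 0 < y ∧ coord f x y ≠ 0 := by
    refine ⟨z.re, z.im, z.im_pos, ?_⟩
    rw [Frm_coord_eq]
    exact hz
  obtain ⟨c, hE⟩ := exists_expansion_K0 hW hne
  have hR : ∀ p : ℕ, p.Prime → ¬ p ∣ N → ∀ n : ℤ,
      c (n * p) + χ p * (if (p : ℤ) ∣ n then c (n / p) else 0) = a p * c n := fun p hp hpN n =>
    coeff_hecke hW hE hp.pos (ExRS_hecke_coord hp.pos (ha p hp hpN)) n
  -- the minimal index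
  have hex : ∃ k : ℕ, 0 < k ∧ (c k ≠ 0 ∨ c (-k) ≠ 0) := by
    obtain ⟨n₀, hn₀⟩ := hE.ne_zero
    have h0 : n₀ ≠ 0 := by
      rintro rfl
      exact hn₀ hE.zero
    refine ⟨n₀.natAbs, Int.natAbs_pos.2 h0, ?_⟩
    rcases Int.natAbs_eq n₀ with h1 | h1
    · left
      rw [← h1]
      exact hn₀
    · right
      rw [← h1]
      exact hn₀
  obtain ⟨m, ⟨hm, hcm⟩, hmin⟩ : ∃ m : ℕ, (0 < m ∧ (c m ≠ 0 ∨ c (-m) ≠ 0)) ∧
      ∀ k : ℕ, k < m → ¬ (0 < k ∧ (c k ≠ 0 ∨ c (-k) ≠ 0)) :=
    ⟨Nat.find hex, Nat.find_spec hex, fun k hk => Nat.find_min hex hk⟩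
  have hmN : ∀ p : ℕ, p.Prime → p ∣ m → p ∣ N := by
    intro p hp hpm
    by_contra hpN
    obtain ⟨k, hk⟩ := hpm
    have hk0 : 0 < k := by
      rcases Nat.eq_zero_or_pos k with h | h
      · rw [h, mul_zero] at hk
        omega
      · exact h
    have hlt : ∀ i : ℕ, 0 < i → i ≤ k → c i = 0 ∧ c (-i) = 0 := by
      intro i hi hik
      have h1 : i < m := by
        rw [hk]
        have := hp.two_le
        nlinarith
      have h2 := hmin i h1
      push Not at h2
      exact h2 hi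
    have hs : ∀ s : ℤ, (s = 1 ∨ s = -1) → c (s * m) = 0 := by
      intro s hs
      have hzero : ∀ i : ℕ, 0 < i → i ≤ k → c (s * i) = 0 := by
        intro i hi hik
        rcases hs with rfl | rfl
        · rw [one_mul]
          exact (hlt i hi hik).1
        · rw [neg_one_mul]
          exact (hlt i hi hik).2
      have h1 := hR p hp hpN (s * k)
      rw [hzero k hk0 le_rfl, mul_zero] at h1
      have h2 : (if (p : ℤ) ∣ s * k then c (s * k / p) else 0) = 0 := by
        split_ifs with hd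
        · have hd' : p ∣ k := by
            rcases hs with rfl | rfl
            · rw [one_mul] at hd
              exact_mod_cast hd
            · rw [neg_one_mul, dvd_neg] at hd
              exact_mod_cast hd
          obtain ⟨i, hi⟩ := hd'
          have hi0 : 0 < i := by
            rcases Nat.eq_zero_or_pos i with h | h
            · rw [h, mul_zero] at hi
              omega
            · exact h
          have h3 : s * (k : ℤ) / p = s * i := by
            rw [hi]
            push_cast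
            rw [show s * ((p : ℤ) * i) = s * i * p by ring]
            exact Int.mul_ediv_cancel _ (by exact_mod_cast hp.ne_zero)
          rw [h3]
          refine hzero i hi0 ?_
          rw [hi]
          exact Nat.le_mul_of_pos_left _ hp.pos
        · rfl
      rw [h2, mul_zero, add_zero] at h1
      have h3 : s * (m : ℤ) = s * k * p := by
        rw [hk]
        push_cast
        ring
      rw [h3]
      exact h1
    rcases hcm with h1 | h1
    · exact h1 (by have := hs 1 (Or.inl rfl); rwa [one_mul] at this)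
    · exact h1 (by have := hs (-1) (Or.inr rfl); rwa [neg_one_mul] at this)
  -- the functions
  have hcn := ExD_c_neg hW hE hpar
  have hcm' : c m ≠ 0 := by
    rcases hcm with h1 | h1
    · exact h1
    · intro h2
      apply h1
      rw [hcn, h2, mul_zero]
  obtain ⟨C, hC⟩ := bounded hf
  have hcf := continuous_form hf
  have hcu := continuous_upf hcf m
  have hcd := continuous_depl hcu N
  have hu := upf_automorphic hf.automorphic hm hmN
  have hd := depl_automorphic hN hu
  have hub := ExRS_upf_bdd hC m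
  have hdb := ExRS_depl_bdd hub N
  have hm' : (0 : ℝ) < m := by exact_mod_cast hm
  have hfc : ∀ (n : ℤ) (y : ℝ), 0 < y → fc (coord (depl N (upf m f))) n y =
      if IsCoprime n (N : ℤ) then
        (m : ℂ) * (c (n * m) * (w0 (|((n * m : ℤ) : ℝ)| * (y / m)) : ℂ) /
          (Real.sqrt |((n * m : ℤ) : ℝ)| : ℂ)) else 0 := by
    intro n y hy
    rw [fc_depl hcu (ExRS_periodic hu) hN n hy]
    split_ifs
    · rw [fc_upf hW hm n hy, hE.eq (n * m) (y / m) (by positivity)]
    · rfl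
  refine ⟨depl N (upf m f), fun n => if n.Coprime N then (Real.sqrt m : ℂ) * c (n * m) else 0,
    hcd, ⟨_, hdb⟩, ?_, ?_, ?_, ?_, ?_, ?_, ?_, ?_, ?_⟩
  · intro γ hγ z
    rw [lift_eq χ hγ]
    exact hd γ hγ z
  · intro p hp hpN z
    exact hecke_depl hf hm hmN hp hpN (ha p hp hpN) z
  · intro y hy
    rw [hfc 0 y hy]
    split_ifs
    · rw [zero_mul, hE.zero]
      simp
    · rfl
  · intro n y hn hy
    have hab : |((n : ℤ) : ℝ)| = n := by
      rw [Int.cast_natCast]
      exact Nat.abs_cast n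
    have hco : IsCoprime (n : ℤ) (N : ℤ) ↔ n.Coprime N := Nat.isCoprime_iff_coprime
    rw [hfc n y hy]
    by_cases hnN : n.Coprime N
    · rw [if_pos (hco.2 hnN), ExD_term hm hy hn hab]
      simp only [if_pos hnN]
    · rw [if_neg (fun h => hnN (hco.1 h))]
      simp only [if_neg hnN, zero_mul]
  · intro n y hn hy
    have hab' : |((-(n : ℤ) : ℤ) : ℝ)| = n := by
      rw [Int.cast_neg, abs_neg, Int.cast_natCast]
      exact Nat.abs_cast n
    have hco : IsCoprime (n : ℤ) (N : ℤ) ↔ n.Coprime N := Nat.isCoprime_iff_coprime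
    have hco' : IsCoprime (-(n : ℤ)) (N : ℤ) ↔ n.Coprime N := by
      rw [IsCoprime.neg_left_iff, hco]
    rw [hfc (-n) y hy]
    by_cases hnN : n.Coprime N
    · rw [if_pos (hco'.2 hnN), ExD_term hm hy hn hab', neg_mul, hcn]
      simp only [if_pos hnN]
      ring
    · rw [if_neg (fun h => hnN (hco'.1 h))]
      simp only [if_neg hnN, mul_zero, zero_mul]
  · split_ifs
    · rw [Nat.cast_zero, zero_mul, hE.zero, mul_zero]
    · rfl
  · simp only [if_pos (Nat.coprime_one_left N), Nat.cast_one, one_mul]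
    refine mul_ne_zero ?_ hcm'
    rw [Complex.ofReal_ne_zero]
    exact (Real.sqrt_pos.2 hm').ne'
  · intro n hn
    simp only [if_neg hn]
  · intro p hp hpN j n hpn
    have hpm : ¬ p ∣ m := fun h => hpN (hmN p hp h)
    have hcop : (p ^ j * n).Coprime N ↔ n.Coprime N := by
      rw [Nat.coprime_mul_iff_left]
      constructor
      · exact fun h => h.2
      · intro h
        exact ⟨Nat.Coprime.pow_left j ((Nat.Prime.coprime_iff_not_dvd hp).2 hpN), h⟩
    by_cases hnN : n.Coprime N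
    · have hnm : ¬ (p : ℤ) ∣ (n : ℤ) * m := by
        intro h
        have h' : p ∣ n * m := by exact_mod_cast h
        rcases (Nat.Prime.dvd_mul hp).1 h' with h1 | h1
        · exact hpn h1
        · exact hpm h1
      have e1 := (ExRS_pow hp (hR p hp hpN) hnm j).1
      have e3 : ((p ^ j * n : ℕ) : ℤ) * m = (n : ℤ) * m * (p : ℤ) ^ j := by
        push_cast
        ring
      simp only [if_pos (hcop.2 hnN), if_pos hnN]
      rw [e3, e1]
      ring
    · simp only [if_neg (fun h => hnN (hcop.1 h)), if_neg hnN, mul_zero]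

end Pool.Agent.H74W
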