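import Pool.Agent.W_7742w_h74.Loc2
import Pool.Agent.W_7742r_h74.Eul

/-!
# The Euler product for two systems of eigenvalues

As in `Pool/Agent/W_7742r_h74/Eul.lean`.  The double series converges absolutely by
`2 |u v| ≤ |u| ^ 2 + |v| ^ 2` and the first part of `euler` for `r = ‖A‖ ^ 2` and `r = ‖B‖ ^ 2`;
`n ↦ A n conj(B n) / (A 1 conj(B 1)) n ^ (-x)` is multiplicative and summable
(`EulerProduct.eulerProduct_hasProd`), the local factors are given by `local_identity2`, and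
`exp` of a convergent sum is the product of the exponentials (`HasSum.cexp` or
`Complex.exp_tsum`-like; the product converges to the same limit by uniqueness).
-/

set_option autoImplicit false

noncomputable section

namespace Pool.Agent.H74W

open ComplexConjugate Pool.Agent.MaassRS74

/-- Multiplicativity (complex version of `Eul_mul`). -/
theorem Eul2_mul {N : ℕ} {r : ℕ → ℂ} {L : ℕ → ℕ → ℂ}
    (hN0 : ∀ n : ℕ, ¬ n.Coprime N → r n = 0)
    (hm : ∀ p : ℕ, p.Prime → ¬ p ∣ N → ∀ j n : ℕ, ¬ p ∣ n → r (p ^ j * n) = L p j * r n)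
    (m : ℕ) : ∀ n : ℕ, m.Coprime n → r (m * n) * r 1 = r m * r n := by
  induction m using Nat.strong_induction_on with
  | _ m ih =>
    intro n hmn
    rcases Nat.eq_zero_or_pos m with rfl | hm0
    · rw [Nat.coprime_zero_left] at hmn
      rw [hmn, Nat.zero_mul]
    rcases Nat.lt_or_ge 1 m with h1 | h1
    · have hp : m.minFac.Prime := Nat.minFac_prime (by omega)
      set p := m.minFac with hpd
      obtain ⟨j, m', hpm', hmm⟩ := Nat.exists_eq_pow_mul_and_not_dvd (n := m) (by omega) p hp.ne_one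
      have hpm : p ∣ m := Nat.minFac_dvd m
      have hj : j ≠ 0 := by
        rintro rfl
        rw [pow_zero, one_mul] at hmm
        exact hpm' (hmm ▸ hpm)
      by_cases hpN : p ∣ N
      · have h2 : ¬ m.Coprime N := fun h => hp.ne_one (Nat.eq_one_of_dvd_coprimes h hpm hpN)
        have h3 : ¬ (m * n).Coprime N := fun h =>
          hp.ne_one (Nat.eq_one_of_dvd_coprimes h (hpm.mul_right n) hpN)
        rw [hN0 _ h2, hN0 _ h3, zero_mul, zero_mul]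
      · have hpn : ¬ p ∣ n := fun h => hp.ne_one (Nat.eq_one_of_dvd_coprimes hmn hpm h)
        have hpmn : ¬ p ∣ m' * n := fun h => (hp.dvd_mul.1 h).elim hpm' hpn
        have hlt : m' < m := by
          rw [hmm]
          have h2 : 1 < p ^ j := Nat.one_lt_pow hj hp.one_lt
          have h3 : 0 < m' := by
            rcases Nat.eq_zero_or_pos m' with h | h
            · rw [h] at hpm'; exact absurd (dvd_zero p) hpm'
            · exact h
          calc m' = 1 * m' := (one_mul _).symm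
            _ < p ^ j * m' := Nat.mul_lt_mul_of_pos_right h2 h3
        have hcop : m'.Coprime n := Nat.Coprime.coprime_dvd_left ⟨p ^ j, by rw [hmm]; ring⟩ hmn
        have e1 : m * n = p ^ j * (m' * n) := by rw [hmm]; ring
        rw [e1, hm p hp hpN j _ hpmn]
        have e2 : r m = L p j * r m' := by
          conv_lhs => rw [hmm]
          exact hm p hp hpN j _ hpm'
        rw [e2, mul_assoc, ih m' hlt n hcop, mul_assoc]
    · have : m = 1 := by omega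
      rw [this, one_mul, mul_comm]

open Classical in
/-- The absolute convergence of the double series. -/
theorem Eul2_sum {N : ℕ} {a b w : ℕ → ℂ} {x : ℝ}
    (hA : Summable (fun q : Nat.Primes × ℕ => if (q.1 : ℕ) ∣ N then 0 else
      ‖psum (a q.1) (w q.1) (q.2 + 1)‖ ^ 2 / (q.2 + 1) / ((q.1 : ℕ) : ℝ) ^ ((q.2 + 1) * x)))
    (hB : Summable (fun q : Nat.Primes × ℕ => if (q.1 : ℕ) ∣ N then 0 else
      ‖psum (b q.1) (w q.1) (q.2 + 1)‖ ^ 2 / (q.2 + 1) / ((q.1 : ℕ) : ℝ) ^ ((q.2 + 1) * x))) :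
    Summable (fun q : Nat.Primes × ℕ => if (q.1 : ℕ) ∣ N then (0 : ℂ) else
      psum (a q.1) (w q.1) (q.2 + 1) * conj (psum (b q.1) (w q.1) (q.2 + 1)) / ((q.2 : ℂ) + 1) /
        (((((q.1 : ℕ) : ℝ) ^ (((q.2 : ℝ) + 1) * x) : ℝ)) : ℂ)) := by
  refine Summable.of_norm_bounded (hA.add hB) fun q => ?_
  by_cases hq : (q.1 : ℕ) ∣ N
  · simp only [if_pos hq]
    simp
  · simp only [if_neg hq]
    have hn : ‖((q.2 : ℂ) + 1)‖ = (q.2 : ℝ) + 1 := by
      have : ((q.2 : ℂ) + 1) = (((q.2 : ℝ) + 1 : ℝ) : ℂ) := by push_cast; rfl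
      rw [this, Complex.norm_real, Real.norm_of_nonneg (by positivity)]
    have hp : (0 : ℝ) < ((q.1 : ℕ) : ℝ) ^ (((q.2 : ℝ) + 1) * x) :=
      Real.rpow_pos_of_pos (by exact_mod_cast q.1.2.pos) _
    rw [norm_div, norm_div, norm_mul, hn, Complex.norm_real, Real.norm_of_nonneg hp.le,
      RCLike.norm_conj, ← add_div, ← add_div]
    refine div_le_div_of_nonneg_right (div_le_div_of_nonneg_right ?_ (by positivity)) hp.le
    generalize ‖psum (a q.1) (w q.1) (q.2 + 1)‖ = u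
    generalize ‖psum (b q.1) (w q.1) (q.2 + 1)‖ = v
    nlinarith [sq_nonneg (u - v), sq_nonneg (u + v)]

/-- The summand of the double series. -/
def Eul2_T (N : ℕ) (a b w : ℕ → ℂ) (x : ℝ) (p : Nat.Primes) (k : ℕ) : ℂ :=
  if (p : ℕ) ∣ N then (0 : ℂ) else
    psum (a p) (w p) (k + 1) * conj (psum (b p) (w p) (k + 1)) / ((k : ℂ) + 1) /
      (((((p : ℕ) : ℝ) ^ (((k : ℝ) + 1) * x) : ℝ)) : ℂ)

theorem Eul2_T_eq {N : ℕ} (a b w : ℕ → ℂ) (x : ℝ) (p : Nat.Primes) (hp : ¬ (p : ℕ) ∣ N) (k : ℕ) :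
    Eul2_T N a b w x p k = psum (a p) (w p) (k + 1) * conj (psum (b p) (w p) (k + 1)) *
      ((((p : ℕ) : ℝ) ^ (-x) : ℝ) : ℂ) ^ (k + 1) / ((k : ℂ) + 1) := by
  unfold Eul2_T
  rw [if_neg hp]
  have h2 : (((p : ℕ) : ℝ) ^ (-x)) ^ (k + 1) = (((p : ℕ) : ℝ) ^ (((k : ℝ) + 1) * x))⁻¹ := by
    rw [← Real.rpow_natCast, ← Real.rpow_mul (Nat.cast_nonneg _),
      ← Real.rpow_neg (Nat.cast_nonneg _)]
    congr 1
    push_cast
    ring
  rw [← Complex.ofReal_pow, h2, Complex.ofReal_inv]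
  ring

/-- The local factors. -/
theorem Eul2_loc {N : ℕ} {A B : ℕ → ℂ} {a b w : ℕ → ℂ} (hA1 : A 1 ≠ 0) (hB1 : B 1 ≠ 0)
    (hAm : ∀ p : ℕ, p.Prime → ¬ p ∣ N → ∀ j n : ℕ, ¬ p ∣ n →
      A (p ^ j * n) = lam (a p) (w p) j * A n)
    (hBm : ∀ p : ℕ, p.Prime → ¬ p ∣ N → ∀ j n : ℕ, ¬ p ∣ n →
      B (p ^ j * n) = lam (b p) (w p) j * B n)
    (hAs : ∀ x : ℝ, 1 < x → Summable fun n : ℕ => ‖A n‖ ^ 2 * (n : ℝ) ^ (-x))
    (hBs : ∀ x : ℝ, 1 < x → Summable fun n : ℕ => ‖B n‖ ^ 2 * (n : ℝ) ^ (-x))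
    (hw : ∀ p : ℕ, p.Prime → ¬ p ∣ N → ‖w p‖ = 1) {x : ℝ} (hx : 1 < x) (p : Nat.Primes)
    (hpN : ¬ (p : ℕ) ∣ N) :
    Summable (Eul2_T N a b w x p) ∧
    ∑' j : ℕ, lam (a p) (w p) j * conj (lam (b p) (w p) j) *
        ((((p : ℕ) : ℝ) ^ (-x) : ℝ) : ℂ) ^ j =
      (1 - ((((p : ℕ) : ℝ) ^ (-x) : ℝ) : ℂ) ^ 2) *
        Complex.exp (∑' k : ℕ, Eul2_T N a b w x p k) := by
  have hx' : 1 < (1 + x) / 2 := by linarith
  have hpg : (1 : ℝ) < ((p : ℕ) : ℝ) := by exact_mod_cast p.2.one_lt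
  have key : ∀ (C c : ℕ → ℂ), C 1 ≠ 0 → (∀ p : ℕ, p.Prime → ¬ p ∣ N → ∀ j n : ℕ, ¬ p ∣ n →
      C (p ^ j * n) = lam (c p) (w p) j * C n) →
      (∀ x : ℝ, 1 < x → Summable fun n : ℕ => ‖C n‖ ^ 2 * (n : ℝ) ^ (-x)) →
      Summable fun j : ℕ => ‖lam (c p) (w p) j‖ ^ 2 * (((p : ℕ) : ℝ) ^ (-((1 + x) / 2))) ^ j := by
    intro C c hC1 hCm hCs
    have h2 := ((hCs _ hx').comp_injective (Nat.pow_right_injective p.2.two_le)).mul_left
      (‖C 1‖ ^ 2)⁻¹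
    refine h2.congr fun j => ?_
    have h3 := hCm p p.2 hpN j 1 p.2.not_dvd_one
    rw [mul_one] at h3
    have h4 : ‖C 1‖ ≠ 0 := norm_ne_zero_iff.2 hC1
    simp only [Function.comp_apply]
    rw [h3, Eul_pow, norm_mul, mul_pow]
    field_simp
  obtain ⟨h1, h2⟩ := local_identity2 (a := a p) (b := b p) (hw p p.2 hpN)
    (X := ((p : ℕ) : ℝ) ^ (-x)) (X' := ((p : ℕ) : ℝ) ^ (-((1 + x) / 2)))
    (Real.rpow_pos_of_pos (by linarith) _)
    (Real.rpow_lt_rpow_of_exponent_lt hpg (by linarith))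
    (Real.rpow_lt_one_of_one_lt_of_neg hpg (by linarith))
    (key A a hA1 hAm hAs) (key B b hB1 hBm hBs)
  have h3 : Eul2_T N a b w x p = fun k : ℕ => psum (a p) (w p) (k + 1) *
      conj (psum (b p) (w p) (k + 1)) * ((((p : ℕ) : ℝ) ^ (-x) : ℝ) : ℂ) ^ (k + 1) /
        ((k : ℂ) + 1) := funext fun k => Eul2_T_eq a b w x p hpN k
  rw [h3]
  exact ⟨h1, h2⟩

open Classical in
theorem euler2 {N : ℕ} (hN : 0 < N) {A B : ℕ → ℂ} {a b w : ℕ → ℂ} (hA1 : A 1 ≠ 0) (hB1 : B 1 ≠ 0)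
    (hA0 : A 0 = 0) (hB0 : B 0 = 0) (hAN : ∀ n : ℕ, ¬ n.Coprime N → A n = 0)
    (hBN : ∀ n : ℕ, ¬ n.Coprime N → B n = 0)
    (hAm : ∀ p : ℕ, p.Prime → ¬ p ∣ N → ∀ j n : ℕ, ¬ p ∣ n →
      A (p ^ j * n) = lam (a p) (w p) j * A n)
    (hBm : ∀ p : ℕ, p.Prime → ¬ p ∣ N → ∀ j n : ℕ, ¬ p ∣ n →
      B (p ^ j * n) = lam (b p) (w p) j * B n)
    (hAs : ∀ x : ℝ, 1 < x → Summable fun n : ℕ => ‖A n‖ ^ 2 * (n : ℝ) ^ (-x))
    (hBs : ∀ x : ℝ, 1 < x → Summable fun n : ℕ => ‖B n‖ ^ 2 * (n : ℝ) ^ (-x))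
    (hw : ∀ p : ℕ, p.Prime → ¬ p ∣ N → ‖w p‖ = 1)
    (hua : ∀ p : ℕ, p.Prime → ¬ p ∣ N → w p * conj (a p) = a p)
    (hub : ∀ p : ℕ, p.Prime → ¬ p ∣ N → w p * conj (b p) = b p) {x : ℝ} (hx : 1 < x) :
    Summable (fun q : Nat.Primes × ℕ => if (q.1 : ℕ) ∣ N then (0 : ℂ) else
      psum (a q.1) (w q.1) (q.2 + 1) * conj (psum (b q.1) (w q.1) (q.2 + 1)) / ((q.2 : ℂ) + 1) /
        (((((q.1 : ℕ) : ℝ) ^ (((q.2 : ℝ) + 1) * x) : ℝ)) : ℂ)) ∧
    A 1 * conj (B 1) * Complex.exp (∑' q : Nat.Primes × ℕ, if (q.1 : ℕ) ∣ N then (0 : ℂ) else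
      psum (a q.1) (w q.1) (q.2 + 1) * conj (psum (b q.1) (w q.1) (q.2 + 1)) / ((q.2 : ℂ) + 1) /
        (((((q.1 : ℕ) : ℝ) ^ (((q.2 : ℝ) + 1) * x) : ℝ)) : ℂ)) =
      (zetaM N x : ℂ) * ∑' n : ℕ, A n * conj (B n) * (((n : ℝ) ^ (-x) : ℝ) : ℂ) := by
  have hA := (euler hN (r := fun n => ‖A n‖ ^ 2) (a := a) (w := w)
    (pow_pos (norm_pos_iff.2 hA1) 2) (fun n => sq_nonneg _) (by simp [hA0])
    (fun n hn => by simp [hAN n hn])
    (fun p hp hpN j n hpn => by simp only [hAm p hp hpN j n hpn]; rw [norm_mul, mul_pow])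
    hAs hw hua hx).1
  have hB := (euler hN (r := fun n => ‖B n‖ ^ 2) (a := b) (w := w)
    (pow_pos (norm_pos_iff.2 hB1) 2) (fun n => sq_nonneg _) (by simp [hB0])
    (fun n hn => by simp [hBN n hn])
    (fun p hp hpN j n hpn => by simp only [hBm p hp hpN j n hpn]; rw [norm_mul, mul_pow])
    hBs hw hub hx).1
  have hsum := Eul2_sum hA hB
  refine ⟨hsum, ?_⟩
  have hsumT : Summable (fun q : Nat.Primes × ℕ => Eul2_T N a b w x q.1 q.2) := by
    refine hsum.congr fun q => ?_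
    unfold Eul2_T
    rfl
  have hST : (∑' q : Nat.Primes × ℕ, if (q.1 : ℕ) ∣ N then (0 : ℂ) else
      psum (a q.1) (w q.1) (q.2 + 1) * conj (psum (b q.1) (w q.1) (q.2 + 1)) / ((q.2 : ℂ) + 1) /
        (((((q.1 : ℕ) : ℝ) ^ (((q.2 : ℝ) + 1) * x) : ℝ)) : ℂ)) =
      ∑' q : Nat.Primes × ℕ, Eul2_T N a b w x q.1 q.2 := by
    refine tsum_congr fun q => ?_
    unfold Eul2_T
    rfl
  rw [hST]
  have hTsum : ∀ p : Nat.Primes, Summable (Eul2_T N a b w x p) := by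
    intro p
    by_cases hpN : (p : ℕ) ∣ N
    · have : Eul2_T N a b w x p = fun _ => 0 := by
        funext k
        unfold Eul2_T
        rw [if_pos hpN]
      rw [this]
      exact summable_zero
    · exact (Eul2_loc hA1 hB1 hAm hBm hAs hBs hw hx p hpN).1
  have hS : HasSum (fun p : Nat.Primes => ∑' k, Eul2_T N a b w x p k)
      (∑' q : Nat.Primes × ℕ, Eul2_T N a b w x q.1 q.2) :=
    hsumT.hasSum.prod_fiberwise fun p => (hTsum p).hasSum
  have hP := hS.cexp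
  -- the multiplicative function
  have hc : A 1 * conj (B 1) ≠ 0 := mul_ne_zero hA1 ((map_ne_zero _).2 hB1)
  obtain ⟨f, hf⟩ : ∃ f : ℕ → ℂ, ∀ n, f n = A n * conj (B n) * (A 1 * conj (B 1))⁻¹ *
      (((n : ℝ) ^ (-x) : ℝ) : ℂ) := ⟨_, fun n => rfl⟩
  have hf1 : f 1 = 1 := by
    rw [hf, Nat.cast_one, Real.one_rpow, mul_inv_cancel₀ hc, Complex.ofReal_one, one_mul]
  have hf0 : f 0 = 0 := by
    rw [hf, hA0]
    simp
  have hfmul : ∀ {m n : ℕ}, m.Coprime n → f (m * n) = f m * f n := by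
    intro m n hmn
    have h2 := Eul2_mul (L := fun p j => lam (a p) (w p) j) hAN hAm m n hmn
    have h3 := Eul2_mul (L := fun p j => lam (b p) (w p) j) hBN hBm m n hmn
    have h3' : conj (B (m * n)) * conj (B 1) = conj (B m) * conj (B n) := by
      rw [← map_mul, ← map_mul, h3]
    rw [hf, hf, hf, Nat.cast_mul, Real.mul_rpow (Nat.cast_nonneg m) (Nat.cast_nonneg n),
      Complex.ofReal_mul]
    have h4 : A (m * n) * conj (B (m * n)) * (A 1 * conj (B 1))⁻¹ =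
        A m * conj (B m) * (A 1 * conj (B 1))⁻¹ * (A n * conj (B n) * (A 1 * conj (B 1))⁻¹) := by
      have h5 : A (m * n) * conj (B (m * n)) * (A 1 * conj (B 1)) =
          A m * conj (B m) * (A n * conj (B n)) := by
        calc A (m * n) * conj (B (m * n)) * (A 1 * conj (B 1)) =
            (A (m * n) * A 1) * (conj (B (m * n)) * conj (B 1)) := by ring
          _ = _ := by rw [h2, h3']; ring
      calc A (m * n) * conj (B (m * n)) * (A 1 * conj (B 1))⁻¹ =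
          (A (m * n) * conj (B (m * n)) * (A 1 * conj (B 1))) * (A 1 * conj (B 1))⁻¹ *
            (A 1 * conj (B 1))⁻¹ := by
            rw [mul_inv_cancel_right₀ hc]
        _ = _ := by rw [h5]; ring
    rw [h4]
    ring
  have hfsum : Summable (fun n => ‖f n‖) := by
    refine Summable.of_nonneg_of_le (fun n => norm_nonneg _) (fun n => ?_)
      (((hAs x hx).add (hBs x hx)).mul_left ‖(A 1 * conj (B 1))⁻¹‖)
    have hp : (0 : ℝ) ≤ (n : ℝ) ^ (-x) := Real.rpow_nonneg (Nat.cast_nonneg n) _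
    rw [hf, norm_mul, norm_mul, norm_mul, Complex.norm_real, Real.norm_of_nonneg hp,
      RCLike.norm_conj]
    have h5 : ‖A n‖ * ‖B n‖ ≤ ‖A n‖ ^ 2 + ‖B n‖ ^ 2 := by
      generalize ‖A n‖ = u
      generalize ‖B n‖ = v
      nlinarith [sq_nonneg (u - v), sq_nonneg (u + v)]
    calc ‖A n‖ * ‖B n‖ * ‖(A 1 * conj (B 1))⁻¹‖ * (n : ℝ) ^ (-x) =
        ‖(A 1 * conj (B 1))⁻¹‖ * ((‖A n‖ * ‖B n‖) * (n : ℝ) ^ (-x)) := by ring
      _ ≤ ‖(A 1 * conj (B 1))⁻¹‖ * ((‖A n‖ ^ 2 + ‖B n‖ ^ 2) * (n : ℝ) ^ (-x)) :=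
          mul_le_mul_of_nonneg_left (mul_le_mul_of_nonneg_right h5 hp) (norm_nonneg _)
      _ = _ := by ring
  have hprod := EulerProduct.eulerProduct_hasProd hf1 hfmul hfsum hf0
  have hfD : A 1 * conj (B 1) * ∑' n, f n =
      ∑' n : ℕ, A n * conj (B n) * (((n : ℝ) ^ (-x) : ℝ) : ℂ) := by
    rw [← tsum_mul_left]
    refine tsum_congr fun n => ?_
    rw [hf]
    calc A 1 * conj (B 1) * (A n * conj (B n) * (A 1 * conj (B 1))⁻¹ *
          (((n : ℝ) ^ (-x) : ℝ) : ℂ)) = (A 1 * conj (B 1)) * (A 1 * conj (B 1))⁻¹ *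
          (A n * conj (B n) * (((n : ℝ) ^ (-x) : ℝ) : ℂ)) := by ring
      _ = _ := by rw [mul_inv_cancel₀ hc, one_mul]
  have hz : HasProd (fun p : Nat.Primes => (((if (p : ℕ) ∣ N then (1 : ℝ) else
      (1 - (((p : ℕ) : ℝ) ^ (-x)) ^ 2)⁻¹ : ℝ)) : ℂ)) ((zetaM N x : ℝ) : ℂ) :=
    (Eul_zeta (N := N) hx).map Complex.ofRealHom Complex.continuous_ofReal
  have hprod2 := hprod.mul hz
  have hfac : (fun p : Nat.Primes => (∑' e, f ((p : ℕ) ^ e)) *
      (((if (p : ℕ) ∣ N then (1 : ℝ) else (1 - (((p : ℕ) : ℝ) ^ (-x)) ^ 2)⁻¹ : ℝ)) : ℂ)) =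
      Complex.exp ∘ fun p : Nat.Primes => ∑' k, Eul2_T N a b w x p k := by
    funext p
    rw [Function.comp_apply]
    by_cases hpN : (p : ℕ) ∣ N
    · rw [if_pos hpN, Complex.ofReal_one, mul_one, tsum_eq_single 0]
      · rw [pow_zero, hf1]
        have : ∀ k, Eul2_T N a b w x p k = 0 := by
          intro k
          unfold Eul2_T
          rw [if_pos hpN]
        rw [tsum_congr this, tsum_zero, Complex.exp_zero]
      · intro e he
        have hc' : ¬ ((p : ℕ) ^ e).Coprime N := fun h =>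
          p.2.ne_one (Nat.eq_one_of_dvd_coprimes h (dvd_pow_self _ he) hpN)
        rw [hf, hAN _ hc']
        simp
    · rw [if_neg hpN]
      have e1 : ∀ e : ℕ, f ((p : ℕ) ^ e) = lam (a p) (w p) e * conj (lam (b p) (w p) e) *
          ((((p : ℕ) : ℝ) ^ (-x) : ℝ) : ℂ) ^ e := by
        intro e
        have h3 := hAm p p.2 hpN e 1 p.2.not_dvd_one
        have h4 := hBm p p.2 hpN e 1 p.2.not_dvd_one
        rw [mul_one] at h3 h4
        rw [hf, h3, h4, Eul_pow, map_mul, Complex.ofReal_pow]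
        calc lam (a p) (w p) e * A 1 * (conj (lam (b p) (w p) e) * conj (B 1)) *
              (A 1 * conj (B 1))⁻¹ * ((((p : ℕ) : ℝ) ^ (-x) : ℝ) : ℂ) ^ e =
            ((A 1 * conj (B 1)) * (A 1 * conj (B 1))⁻¹) * (lam (a p) (w p) e *
              conj (lam (b p) (w p) e) * ((((p : ℕ) : ℝ) ^ (-x) : ℝ) : ℂ) ^ e) := by ring
          _ = _ := by rw [mul_inv_cancel₀ hc, one_mul]
      rw [tsum_congr e1, (Eul2_loc hA1 hB1 hAm hBm hAs hBs hw hx p hpN).2]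
      have hX0 : 0 < ((p : ℕ) : ℝ) ^ (-x) := Real.rpow_pos_of_pos (by exact_mod_cast p.2.pos) _
      have hX1 : ((p : ℕ) : ℝ) ^ (-x) < 1 :=
        Real.rpow_lt_one_of_one_lt_of_neg (by exact_mod_cast p.2.one_lt) (by linarith)
      have h4 : (1 - (((p : ℕ) : ℝ) ^ (-x)) ^ 2) ≠ 0 := by nlinarith
      have h5 : (1 - ((((p : ℕ) : ℝ) ^ (-x) : ℝ) : ℂ) ^ 2) =
          ((1 - (((p : ℕ) : ℝ) ^ (-x)) ^ 2 : ℝ) : ℂ) := by push_cast; rfl
      have h6 : ((1 - (((p : ℕ) : ℝ) ^ (-x)) ^ 2 : ℝ) : ℂ) ≠ 0 := Complex.ofReal_ne_zero.2 h4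
      rw [h5, Complex.ofReal_inv, mul_comm ((1 - (((p : ℕ) : ℝ) ^ (-x)) ^ 2 : ℝ) : ℂ), mul_assoc,
        mul_inv_cancel₀ h6, mul_one]
  rw [hfac] at hprod2
  rw [hP.unique hprod2, ← mul_assoc, hfD, mul_comm]

end Pool.Agent.H74W
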