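import Pool.Agent.W_7742w_h74.Dp

/-!
# The Hecke operators on depleted forms

Both functions are continuous and periodic (`ExRS_periodic`), so it is enough to compare all the
Fourier coefficients (`ext_fc`: a continuous periodic function is determined by its Fourier
coefficients, see `FouB_eq`, `FouB.exists_fc_ne_zero`).  With `fc_mul` and `fc_div` of
`Pool/Agent/W_7742m_h74/Heck.lean` (restate them for continuous periodic functions; their proofs do
not use more of `IsWave`) one gets for `F = depl N (upf m f)`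
`fc (coord (hecke χ p F)) n y = (√p)⁻¹ (χ(p) [p ∣ n] fc (coord F) (n / p) (p y) + p fc (coord F) (n p) (y / p))`
and the same for `f`; `fc (coord F) n y = [(n, N) = 1] m fc (coord f) (n m) (y / m)` (`fc_depl`,
`fc_upf`), and for `p ∤ N` the conditions `(n, N) = 1`, `(n p, N) = 1`, and `(n / p, N) = 1` (if
`p ∣ n`) are equivalent, `p ∣ n m ↔ p ∣ n`.  Alternatively: `hecke` commutes with `upf m` and with
`depl N` (direct computation with cosets modulo the periodicity).
-/

set_option autoImplicit false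

noncomputable section

namespace Pool.Agent.H74W

open UpperHalfPlane CongruenceSubgroup ComplexConjugate Pool.Agent.Maass74 Pool.Agent.MaassRS74
open scoped MatrixGroups

theorem Hd_mulsum {m p : ℕ} (hpm : p.Coprime m) {h : ℕ → ℂ} (hh : ∀ n, h (n + m) = h n) :
    ∑ b ∈ Finset.range m, h (p * b) = ∑ b ∈ Finset.range m, h b := by
  rcases Nat.eq_zero_or_pos m with rfl | hm
  · simp
  have hper : Function.Periodic h m := hh
  have hinj : Set.InjOn (fun b => (p * b) % m) (Finset.range m : Set ℕ) := by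
    intro b hb b' hb' h1
    rw [Finset.mem_coe, Finset.mem_range] at hb hb'
    have h2 : p * b ≡ p * b' [MOD m] := h1
    have h3 : b ≡ b' [MOD m] := Nat.ModEq.cancel_left_of_coprime hpm.symm h2
    exact Nat.ModEq.eq_of_lt_of_lt h3 hb hb'
  refine Finset.sum_nbij (fun b => (p * b) % m) ?_ hinj ?_ ?_
  · intro b _
    exact Finset.mem_range.2 (Nat.mod_lt _ hm)
  · exact Finset.surjOn_of_injOn_of_card_le _
      (fun b _ => Finset.mem_coe.2 (Finset.mem_range.2 (Nat.mod_lt _ hm))) hinj le_rfl
  · intro b _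
    exact (hper.map_mod_nat (p * b)).symm

theorem Hd_crt {e p : ℕ} (hpe : p.Coprime e) (hp : 0 < p) (he : 0 < e) {h : ℕ → ℂ}
    (hh : ∀ n, h (n + p * e) = h n) :
    ∑ c ∈ Finset.range p, ∑ j ∈ Finset.range e, h (e * c + p * j) =
      ∑ k ∈ Finset.range (p * e), h k := by
  have hpos : 0 < p * e := Nat.mul_pos hp he
  have hper : Function.Periodic h (p * e) := hh
  rw [← Finset.sum_product' (Finset.range p) (Finset.range e) fun c j => h (e * c + p * j)]
  have hinj : Set.InjOn (fun x : ℕ × ℕ => (e * x.1 + p * x.2) % (p * e))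
      ((Finset.range p ×ˢ Finset.range e : Finset (ℕ × ℕ)) : Set (ℕ × ℕ)) := by
    rintro ⟨c, j⟩ h1 ⟨c', j'⟩ h2 h3
    rw [Finset.mem_coe, Finset.mem_product, Finset.mem_range, Finset.mem_range] at h1 h2
    have h4 : e * c + p * j ≡ e * c' + p * j' [MOD p * e] := h3
    have h5 : e * c + p * j ≡ e * c' + p * j' [MOD p] := Nat.ModEq.of_mul_right e h4
    have h6 : e * c + p * j ≡ e * c' + p * j' [MOD e] := Nat.ModEq.of_mul_left p h4
    have h7 : e * c ≡ e * c' [MOD p] := by
      have ha : e * c + p * j ≡ e * c [MOD p] := by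
        unfold Nat.ModEq
        rw [Nat.add_mul_mod_self_left]
      have hb : e * c' + p * j' ≡ e * c' [MOD p] := by
        unfold Nat.ModEq
        rw [Nat.add_mul_mod_self_left]
      exact ha.symm.trans (h5.trans hb)
    have h8 : p * j ≡ p * j' [MOD e] := by
      have ha : e * c + p * j ≡ p * j [MOD e] := by
        unfold Nat.ModEq
        rw [add_comm, Nat.add_mul_mod_self_left]
      have hb : e * c' + p * j' ≡ p * j' [MOD e] := by
        unfold Nat.ModEq
        rw [add_comm, Nat.add_mul_mod_self_left]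
      exact ha.symm.trans (h6.trans hb)
    have h9 : c = c' := Nat.ModEq.eq_of_lt_of_lt
      (Nat.ModEq.cancel_left_of_coprime hpe h7) h1.1 h2.1
    have h10 : j = j' := Nat.ModEq.eq_of_lt_of_lt
      (Nat.ModEq.cancel_left_of_coprime hpe.symm h8) h1.2 h2.2
    rw [h9, h10]
  refine Finset.sum_nbij (fun x : ℕ × ℕ => (e * x.1 + p * x.2) % (p * e)) ?_ hinj ?_ ?_
  · intro b _
    exact Finset.mem_range.2 (Nat.mod_lt _ hpos)
  · refine Finset.surjOn_of_injOn_of_card_le _
      (fun b _ => Finset.mem_coe.2 (Finset.mem_range.2 (Nat.mod_lt _ hpos))) hinj ?_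
    rw [Finset.card_product, Finset.card_range, Finset.card_range, Finset.card_range]
  · rintro ⟨c, j⟩ _
    exact (hper.map_mod_nat (e * c + p * j)).symm

theorem Hd_range (p m : ℕ) (h : ℕ → ℂ) :
    ∑ c ∈ Finset.range p, ∑ b ∈ Finset.range m, h (c + p * b) =
      ∑ k ∈ Finset.range (p * m), h k := by
  rw [Finset.sum_comm]
  induction m with
  | zero => simp
  | succ m ih =>
    rw [Finset.sum_range_succ, ih, Nat.mul_succ, Finset.sum_range_add]
    congr 1
    refine Finset.sum_congr rfl fun c _ => ?_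
    rw [add_comm]

theorem Hd_upf {F : ℝ → ℝ → ℂ} (hper : ∀ x y : ℝ, 0 < y → F (x + 1) y = F x y) {p m : ℕ}
    (hp : 0 < p) (hm : 0 < m) (hpm : p.Coprime m) {w s : ℂ}
    (H : ∀ x y : ℝ, 0 < y → w * F (p * x) (p * y) +
      ∑ b ∈ Finset.range p, F ((x + b) / p) (y / p) = s * F x y) (x y : ℝ) (hy : 0 < y) :
    w * ∑ b ∈ Finset.range m, F ((p * x + b) / m) (p * y / m) +
      ∑ c ∈ Finset.range p, ∑ b ∈ Finset.range m, F (((x + c) / p + b) / m) (y / p / m) =
      s * ∑ b ∈ Finset.range m, F ((x + b) / m) (y / m) := by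
  have hp' : (0 : ℝ) < p := Nat.cast_pos.2 hp
  have hm' : (0 : ℝ) < m := Nat.cast_pos.2 hm
  have h1 : s * ∑ b ∈ Finset.range m, F ((x + b) / m) (y / m) =
      ∑ b ∈ Finset.range m, (w * F (p * ((x + b) / m)) (p * (y / m)) +
        ∑ c ∈ Finset.range p, F (((x + b) / m + c) / p) (y / m / p)) := by
    rw [Finset.mul_sum]
    refine Finset.sum_congr rfl fun b _ => ?_
    exact (H _ _ (div_pos hy hm')).symm
  rw [h1, Finset.sum_add_distrib, ← Finset.mul_sum]
  congr 1
  · congr 1
    have h2 := Hd_mulsum hpm (h := fun b : ℕ => F ((p * x + b) / m) (p * y / m)) (by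
      intro n
      have h3 : (p * x + ((n + m : ℕ) : ℝ)) / m = (p * x + n) / m + 1 := by
        push_cast
        field_simp
        ring
      rw [h3]
      exact hper _ _ (by positivity))
    rw [← h2]
    refine Finset.sum_congr rfl fun b _ => ?_
    congr 1
    · push_cast
      ring
    · ring
  · have h2 := Hd_range p m fun k : ℕ => F ((x + k) / (p * m)) (y / (p * m))
    have h3 := Hd_range m p fun k : ℕ => F ((x + k) / (p * m)) (y / (p * m))
    rw [mul_comm m p] at h3
    calc _ = ∑ c ∈ Finset.range p, ∑ b ∈ Finset.range m,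
          F ((x + ((c + p * b : ℕ) : ℝ)) / (p * m)) (y / (p * m)) := by
          refine Finset.sum_congr rfl fun c _ => Finset.sum_congr rfl fun b _ => ?_
          congr 1
          · push_cast
            field_simp
            ring
          · rw [div_div]
      _ = ∑ c ∈ Finset.range m, ∑ b ∈ Finset.range p,
          F ((x + ((c + m * b : ℕ) : ℝ)) / (p * m)) (y / (p * m)) := h2.trans h3.symm
      _ = _ := by
          refine Finset.sum_congr rfl fun c _ => Finset.sum_congr rfl fun b _ => ?_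
          congr 1
          · push_cast
            field_simp
            ring
          · rw [div_div, mul_comm (m : ℝ) p]

theorem Hd_one {F : ℝ → ℝ → ℂ} (hper : ∀ x y : ℝ, 0 < y → F (x + 1) y = F x y) {p e : ℕ}
    (hp : 0 < p) (he : 0 < e) (hpe : p.Coprime e) {w s : ℂ}
    (H : ∀ x y : ℝ, 0 < y → w * F (p * x) (p * y) +
      ∑ b ∈ Finset.range p, F ((x + b) / p) (y / p) = s * F x y) (x y : ℝ) (hy : 0 < y) :
    w * ∑ j ∈ Finset.range e, F (p * x + j / e) (p * y) +
      ∑ c ∈ Finset.range p, ∑ j ∈ Finset.range e, F ((x + c) / p + j / e) (y / p) =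
      s * ∑ j ∈ Finset.range e, F (x + j / e) y := by
  have hp' : (0 : ℝ) < p := Nat.cast_pos.2 hp
  have he' : (0 : ℝ) < e := Nat.cast_pos.2 he
  have h1 : s * ∑ j ∈ Finset.range e, F (x + j / e) y =
      ∑ j ∈ Finset.range e, (w * F (p * (x + j / e)) (p * y) +
        ∑ c ∈ Finset.range p, F ((x + j / e + c) / p) (y / p)) := by
    rw [Finset.mul_sum]
    refine Finset.sum_congr rfl fun b _ => ?_
    exact (H _ _ hy).symm
  rw [h1, Finset.sum_add_distrib, ← Finset.mul_sum]
  congr 1
  · congr 1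
    have h2 := Hd_mulsum hpe (h := fun j : ℕ => F (p * x + j / e) (p * y)) (by
      intro n
      have h3 : (p * x + ((n + e : ℕ) : ℝ) / e) = (p * x + n / e) + 1 := by
        push_cast
        field_simp
        ring
      rw [h3]
      exact hper _ _ (by positivity))
    rw [← h2]
    refine Finset.sum_congr rfl fun b _ => ?_
    congr 1
    push_cast
    ring
  · have h2 := Hd_crt hpe hp he (h := fun k : ℕ => F (x / p + k / (p * e)) (y / p)) (by
      intro n
      have h3 : x / p + ((n + p * e : ℕ) : ℝ) / (p * e) = (x / p + n / (p * e)) + 1 := by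
        push_cast
        field_simp
        ring
      rw [h3]
      exact hper _ _ (by positivity))
    have h3 := Hd_range e p fun k : ℕ => F (x / p + k / (p * e)) (y / p)
    rw [mul_comm e p] at h3
    calc _ = ∑ c ∈ Finset.range p, ∑ j ∈ Finset.range e,
          F (x / p + ((e * c + p * j : ℕ) : ℝ) / (p * e)) (y / p) := by
          refine Finset.sum_congr rfl fun c _ => Finset.sum_congr rfl fun b _ => ?_
          congr 1
          push_cast
          field_simp
          ring
      _ = ∑ c ∈ Finset.range e, ∑ b ∈ Finset.range p,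
          F (x / p + ((c + e * b : ℕ) : ℝ) / (p * e)) (y / p) := h2.trans h3.symm
      _ = _ := by
          refine Finset.sum_congr rfl fun c _ => Finset.sum_congr rfl fun b _ => ?_
          congr 1
          push_cast
          field_simp
          ring

/-- The Hecke relation from the relation in coordinates. -/
theorem Hd_of_coord {M : ℕ} {χ : DirichletCharacter ℂ M} {g : ℍ → ℂ} {p : ℕ} (hp : 0 < p)
    {a : ℂ} (h : ∀ x y : ℝ, 0 < y → χ p * coord g (p * x) (p * y) +
      ∑ b ∈ Finset.range p, coord g ((x + b) / p) (y / p) =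
      (Real.sqrt p : ℂ) * a * coord g x y) (z : ℍ) : hecke χ p g z = a * g z := by
  have h1 := h z.re z.im z.im_pos
  have hsq : (Real.sqrt p : ℂ) ≠ 0 := by
    have : Real.sqrt (p : ℝ) ≠ 0 := Real.sqrt_ne_zero'.2 (by exact_mod_cast hp)
    exact_mod_cast this
  have hz : ((z.re : ℝ) : ℂ) + ((z.im : ℝ) : ℂ) * Complex.I = (z : ℂ) := Complex.re_add_im (z : ℂ)
  unfold hecke
  rw [div_eq_iff hsq]
  rw [Frm_coord_eq] at h1
  have h3 : coord g (p * z.re) (p * z.im) = g (ofComplex (p * (z : ℂ))) := by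
    unfold coord
    congr 2
    rw [← hz]
    push_cast
    ring
  have h4 : ∀ b : ℕ, coord g ((z.re + b) / p) (z.im / p) =
      g (ofComplex (((z : ℂ) + b) / p)) := by
    intro b
    unfold coord
    congr 2
    rw [← hz]
    push_cast
    ring
  rw [h3, Finset.sum_congr rfl fun b _ => h4 b] at h1
  rw [h1]
  ring

theorem lift_eq {N : ℕ} [NeZero N] (χ : DirichletCharacter ℂ N) {γ : SL(2, ℤ)}
    (hγ : γ ∈ Gamma0 (N ^ 3)) :
    lift χ ((γ 1 1 : ℤ) : ZMod (N ^ 3)) = χ ((γ 1 1 : ℤ) : ZMod N) := by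
  refine DirichletCharacter.changeLevel_eq_cast_of_dvd' _ _ ?_
  have hc : ((N ^ 3 : ℕ) : ℤ) ∣ γ 1 0 := by
    rw [← ZMod.intCast_zmod_eq_zero_iff_dvd]
    exact Gamma0_mem.1 hγ
  have hdet : γ 0 0 * γ 1 1 - γ 0 1 * γ 1 0 = 1 := by
    have h := γ.det_coe
    rw [Matrix.det_fin_two] at h
    exact h
  obtain ⟨k, hk⟩ := hc
  refine ⟨γ 0 0, -(γ 0 1 * k), ?_⟩
  linear_combination hdet + (γ 0 1) * hk

theorem lift_prime {N : ℕ} [NeZero N] (χ : DirichletCharacter ℂ N) {p : ℕ} (hp : p.Prime)
    (hpN : ¬ p ∣ N) : lift χ p = χ p := by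
  have h1 : IsCoprime ((p : ℕ) : ℤ) ((N ^ 3 : ℕ) : ℤ) := by
    rw [Nat.isCoprime_iff_coprime]
    exact Nat.Coprime.pow_right 3 ((Nat.Prime.coprime_iff_not_dvd hp).2 hpN)
  have h2 := DirichletCharacter.changeLevel_eq_cast_of_dvd' χ (dvd_pow_self N three_ne_zero) h1
  rw [Int.cast_natCast, Int.cast_natCast] at h2
  exact h2

theorem hecke_depl {N : ℕ} [NeZero N] {χ : DirichletCharacter ℂ N} {f : ℍ → ℂ}
    (hf : IsMaassCuspForm N χ f) {m : ℕ} (hm : 0 < m) (hmN : ∀ p : ℕ, p.Prime → p ∣ m → p ∣ N)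
    {p : ℕ} (hp : p.Prime) (hpN : ¬ p ∣ N) {a : ℂ} (ha : ∀ z, hecke χ p f z = a * f z) (z : ℍ) :
    hecke (lift χ) p (depl N (upf m f)) z = a * depl N (upf m f) z := by
  have hN : 0 < N := Nat.pos_of_ne_zero (NeZero.ne N)
  have hpc : p.Coprime N := (Nat.Prime.coprime_iff_not_dvd hp).2 hpN
  have hpm : p.Coprime m := (Nat.Prime.coprime_iff_not_dvd hp).2 fun h => hpN (hmN p hp h)
  have hp' : (0 : ℝ) < p := Nat.cast_pos.2 hp.pos
  have hW := isWave_coord hf
  have hu := upf_automorphic hf.automorphic hm hmN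
  have H0 := ExRS_hecke_coord hp.pos ha
  have H1 : ∀ x y : ℝ, 0 < y → χ p * coord (upf m f) (p * x) (p * y) +
      ∑ b ∈ Finset.range p, coord (upf m f) ((x + b) / p) (y / p) =
      (Real.sqrt p : ℂ) * a * coord (upf m f) x y := by
    intro x y hy
    have h1 := Hd_upf hW.periodic hp.pos hm hpm H0 x y hy
    rw [HopC_coord_upf f m _ (mul_pos hp' hy), HopC_coord_upf f m x hy]
    have h2 : ∀ b : ℕ, coord (upf m f) ((x + b) / p) (y / p) =
        ∑ c ∈ Finset.range m, coord f (((x + b) / p + c) / m) (y / p / m) := fun b =>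
      HopC_coord_upf f m _ (div_pos hy hp')
    rw [Finset.sum_congr rfl fun b _ => h2 b]
    exact h1
  have hper1 : ∀ x y : ℝ, 0 < y → coord (upf m f) (x + 1) y = coord (upf m f) x y :=
    fun x y hy => ExRS_periodic hu x y hy
  refine Hd_of_coord hp.pos (fun x y hy => ?_) z
  rw [lift_prime χ hp hpN, HopC_coord_depl _ N _ (mul_pos hp' hy), HopC_coord_depl _ N x hy]
  have h2 : ∀ b : ℕ, coord (depl N (upf m f)) ((x + b) / p) (y / p) =
      ∑ e ∈ N.divisors, ((ArithmeticFunction.moebius e : ℂ) / e) *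
        ∑ j ∈ Finset.range e, coord (upf m f) ((x + b) / p + j / e) (y / p) := fun b =>
    HopC_coord_depl _ N _ (div_pos hy hp')
  rw [Finset.sum_congr rfl fun b _ => h2 b, Finset.sum_comm, Finset.mul_sum,
    ← Finset.sum_add_distrib, Finset.mul_sum]
  refine Finset.sum_congr rfl fun e he => ?_
  have heN := Nat.dvd_of_mem_divisors he
  have he0 : 0 < e := Nat.pos_of_dvd_of_pos heN hN
  have h3 := Hd_one hper1 hp.pos he0 (Nat.Coprime.coprime_dvd_right heN hpc) H1 x y hy
  rw [← Finset.mul_sum]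
  linear_combination ((ArithmeticFunction.moebius e : ℂ) / e) * h3

end Pool.Agent.H74W
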