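import Pool.Agent.W_7742w_h74.Dp
import Pool.Agent.W_7742m_h74.AdjB

/-!
# Orthogonality of eigenfunctions with different eigenvalues

As in `Pool/Agent/W_7742m_h74/AdjB.lean` (proof of `unitary`), with `H = F + ζ G` instead of `f`
(only continuity, boundedness and the automorphy of `f` are used there).  Let
`(u, v) = ∫ w u conj(v)` and `T H = √p (a F + ζ b G)` the sum over the representatives.
`adjoint_abstract` with `H δ z = χ(a) H(δ z) conj(H z)`, `κ = χ p`, gives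
`(T H, H) = χ(p) conj (T H, H)`.  Since `χ(p) conj a = a` and `χ(p) conj b = b`, expanding gives
`(a - b) (conj ζ (F, G) - ζ conj (F, G)) = 0`; with `ζ = 1` and `ζ = i`, `(F, G) = 0`.
-/

set_option autoImplicit false

noncomputable section

namespace Pool.Agent.H74W

open UpperHalfPlane CongruenceSubgroup ComplexConjugate MeasureTheory ENNReal
open Pool.Agent.Maass74 Pool.Agent.MaassRS74
open scoped MatrixGroups

theorem kern_gm' {N : ℕ} {χ : DirichletCharacter ℂ N} {f : ℍ → ℂ}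
    (hf : ∀ γ ∈ Gamma0 N, ∀ z : ℍ, f (γ • z) = χ ((γ 1 1 : ℤ) : ZMod N) * f z)
    {p : ℕ} [NeZero p] (γ : Gamma0 N) (δ : HM N p) (z : ℍ) :
    kern χ f (HM.gm γ δ) z = kern χ f δ z := by
  unfold kern
  rw [HM.act_gm, hf γ.1 γ.2]
  have hγ : (((γ : SL(2, ℤ)) 1 0 : ℤ) : ZMod N) = 0 := Gamma0_mem.1 γ.2
  have hδ : ((δ.1 1 0 : ℤ) : ZMod N) = 0 := (ZMod.intCast_zmod_eq_zero_iff_dvd _ _).2 δ.2.2
  have h1 : (((HM.gm γ δ).1 0 0 : ℤ) : ZMod N) =
      (((γ : SL(2, ℤ)) 0 0 : ℤ) : ZMod N) * ((δ.1 0 0 : ℤ) : ZMod N) := by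
    have h2 : (HM.gm γ δ).1 0 0 =
        (γ : SL(2, ℤ)) 0 0 * δ.1 0 0 + (γ : SL(2, ℤ)) 0 1 * δ.1 1 0 := by
      show (((γ : SL(2, ℤ)) : Matrix (Fin 2) (Fin 2) ℤ) * δ.1) 0 0 = _
      rw [Matrix.mul_apply, Fin.sum_univ_two]
    rw [h2]
    push_cast
    rw [hδ]
    ring
  have h3 : (((γ : SL(2, ℤ)) 0 0 : ℤ) : ZMod N) * (((γ : SL(2, ℤ)) 1 1 : ℤ) : ZMod N) = 1 := by
    have h4 := (γ : SL(2, ℤ)).det_coe
    rw [Matrix.det_fin_two] at h4
    have h5 := congrArg (Int.cast : ℤ → ZMod N) h4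
    push_cast at h5
    rw [hγ] at h5
    simpa using h5
  have h6 : χ (((γ : SL(2, ℤ)) 0 0 : ℤ) : ZMod N) * χ (((γ : SL(2, ℤ)) 1 1 : ℤ) : ZMod N) = 1 := by
    rw [← map_mul, h3, map_one]
  rw [h1, map_mul]
  linear_combination (χ ((δ.1 0 0 : ℤ) : ZMod N) * f (δ.act z) * conj (f z)) * h6

/-- The sum over the representatives is the Hecke operator. -/
theorem sum_rep {N : ℕ} {χ : DirichletCharacter ℂ N} {f : ℍ → ℂ} {p : ℕ} [NeZero p]
    {a : ℂ} (ha : ∀ z, hecke χ p f z = a * f z) (z : ℍ) :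
    ∑ i, χ (((HM.rep N p i).1 0 0 : ℤ) : ZMod N) * f ((HM.rep N p i).act z) =
      (Real.sqrt p : ℂ) * a * f z := by
  have hs : (Real.sqrt p : ℂ) ≠ 0 := by
    have : (0 : ℝ) < p := by exact_mod_cast Nat.pos_of_ne_zero (NeZero.ne p)
    exact_mod_cast (Real.sqrt_pos.2 this).ne'
  have h1 := ha z
  unfold hecke at h1
  rw [div_eq_iff hs] at h1
  rw [Fintype.sum_option]
  have h2 : (((HM.rep N p none).1 0 0 : ℤ) : ZMod N) = (p : ZMod N) := by
    simp [HM.rep]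
  have h3 : ∀ b : Fin p, (((HM.rep N p (some b)).1 0 0 : ℤ) : ZMod N) = 1 := by
    intro b
    simp [HM.rep]
  rw [h2, HM.act_rep_none]
  simp only [h3, HM.act_rep_some, map_one, one_mul]
  have h4 : ∑ b : Fin p, f (ofComplex ((z + ((b : ℕ) : ℂ)) / p)) =
      ∑ b ∈ Finset.range p, f (ofComplex ((z + b) / p)) :=
    Fin.sum_univ_eq_sum_range (fun b : ℕ => f (ofComplex (((z : ℂ) + (b : ℂ)) / p))) p
  rw [h4, h1]
  ring

theorem sum_kern2 {N : ℕ} {χ : DirichletCharacter ℂ N} {F G : ℍ → ℂ} {p : ℕ} [NeZero p]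
    {a b ζ : ℂ} (ha : ∀ z, hecke χ p F z = a * F z) (hb : ∀ z, hecke χ p G z = b * G z) (z : ℍ) :
    ∑ i, kern χ (fun z => F z + ζ * G z) (HM.rep N p i) z =
      (Real.sqrt p : ℂ) * ((a * F z + ζ * b * G z) * conj (F z + ζ * G z)) := by
  unfold kern
  rw [← Finset.sum_mul]
  have h1 : ∑ i, χ (((HM.rep N p i).1 0 0 : ℤ) : ZMod N) *
      (F ((HM.rep N p i).act z) + ζ * G ((HM.rep N p i).act z)) =
      ∑ i, χ (((HM.rep N p i).1 0 0 : ℤ) : ZMod N) * F ((HM.rep N p i).act z) +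
        ζ * ∑ i, χ (((HM.rep N p i).1 0 0 : ℤ) : ZMod N) * G ((HM.rep N p i).act z) := by
    rw [Finset.mul_sum, ← Finset.sum_add_distrib]
    apply Finset.sum_congr rfl
    intro i _
    ring
  rw [h1, sum_rep ha, sum_rep hb]
  ring

theorem orth_aux {M : ℕ} [NeZero M] {χ : DirichletCharacter ℂ M} {F G : ℍ → ℂ}
    (hFc : Continuous F) (hGc : Continuous G) (hFb : ∃ C : ℝ, ∀ z, ‖F z‖ ≤ C)
    (hGb : ∃ C : ℝ, ∀ z, ‖G z‖ ≤ C)
    (hFa : ∀ γ ∈ Gamma0 M, ∀ z : ℍ, F (γ • z) = χ ((γ 1 1 : ℤ) : ZMod M) * F z)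
    (hGa : ∀ γ ∈ Gamma0 M, ∀ z : ℍ, G (γ • z) = χ ((γ 1 1 : ℤ) : ZMod M) * G z)
    {p : ℕ} (hp : p.Prime) (hpM : ¬ p ∣ M) {a b : ℂ} (hab : a ≠ b) (ha : χ p * conj a = a)
    (hb : χ p * conj b = b) (hFh : ∀ z, hecke χ p F z = a * F z)
    (hGh : ∀ z, hecke χ p G z = b * G z)
    (ζ : ℂ) {w : ℍ → ℝ≥0∞} (hw : Measurable w)
    (hw1 : ∀ᵐ z : ℍ, ∑' γ : Gamma0 M, w ((γ : SL(2, ℤ)) • z) = 1) (hwi : ∫⁻ z, w z < ∞) :
    conj ζ * ∫ z, ((w z).toReal : ℂ) * (F z * conj (G z)) =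
      ζ * conj (∫ z, ((w z).toReal : ℂ) * (F z * conj (G z))) := by
  have : NeZero p := ⟨hp.ne_zero⟩
  have := countable_gamma M
  obtain ⟨C₁, hC₁⟩ := hFb
  obtain ⟨C₂, hC₂⟩ := hGb
  set H : ℍ → ℂ := fun z => F z + ζ * G z with hH
  have hHc : Continuous H := hFc.add (continuous_const.mul hGc)
  have hHb : ∀ z, ‖H z‖ ≤ C₁ + ‖ζ‖ * C₂ := by
    intro z
    calc ‖H z‖ ≤ ‖F z‖ + ‖ζ * G z‖ := norm_add_le _ _
      _ ≤ C₁ + ‖ζ‖ * C₂ := by
        rw [norm_mul]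
        exact add_le_add (hC₁ z) (mul_le_mul_of_nonneg_left (hC₂ z) (norm_nonneg _))
  have hHa : ∀ γ ∈ Gamma0 M, ∀ z : ℍ, H (γ • z) = χ ((γ 1 1 : ℤ) : ZMod M) * H z := by
    intro γ hγ z
    simp only [hH]
    rw [hFa γ hγ, hGa γ hγ]
    ring
  have key := adjoint_abstract (X := ℍ) (volume : Measure ℍ) (G := Gamma0 M)
    (fun g => measurePreserving_gamma g) (M := HM M p) HM.act HM.measurePreserving_act
    HM.gm (fun g δ x => HM.act_gm g δ x) HM.adj HM.adj_adj HM.act_adj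
    (kern χ H) (fun δ => (continuous_kern hHc δ).measurable) (kern_gm' hHa)
    (χ p) (kern_adj hp hpM) (norm_kern_le hHb) w hw hw1 hwi (HM.rep M p)
    (HM.bijective_rep hp hpM)
  have hI : ∀ u v : ℍ → ℂ, Continuous u → Continuous v → (∃ C : ℝ, ∀ z, ‖u z‖ ≤ C) →
      (∃ C : ℝ, ∀ z, ‖v z‖ ≤ C) →
      Integrable (fun z => ((w z).toReal : ℂ) * (u z * conj (v z))) volume := by
    rintro u v hu hv ⟨Cu, hCu⟩ ⟨Cv, hCv⟩
    refine integrable_weight hw hwi (hu.mul (Complex.continuous_conj.comp hv)).measurable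
      (C := Cu * Cv) fun z => ?_
    rw [norm_mul, Complex.norm_conj]
    exact mul_le_mul (hCu z) (hCv z) (norm_nonneg _) ((norm_nonneg _).trans (hCu z))
  have iFF := hI F F hFc hFc ⟨C₁, hC₁⟩ ⟨C₁, hC₁⟩
  have iFG := hI F G hFc hGc ⟨C₁, hC₁⟩ ⟨C₂, hC₂⟩
  have iGF := hI G F hGc hFc ⟨C₂, hC₂⟩ ⟨C₁, hC₁⟩
  have iGG := hI G G hGc hGc ⟨C₂, hC₂⟩ ⟨C₂, hC₂⟩
  set A : ℂ := ∫ z, ((w z).toReal : ℂ) * (F z * conj (F z)) with hA
  set B : ℂ := ∫ z, ((w z).toReal : ℂ) * (G z * conj (G z)) with hB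
  set E : ℂ := ∫ z, ((w z).toReal : ℂ) * (F z * conj (G z)) with hE
  have hA' : conj A = A := by
    rw [hA, ← integral_conj]
    congr 1
    funext z
    rw [map_mul, map_mul, Complex.conj_ofReal, Complex.conj_conj]
    ring
  have hB' : conj B = B := by
    rw [hB, ← integral_conj]
    congr 1
    funext z
    rw [map_mul, map_mul, Complex.conj_ofReal, Complex.conj_conj]
    ring
  have hE' : ∫ z, ((w z).toReal : ℂ) * (G z * conj (F z)) = conj E := by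
    rw [hE, ← integral_conj]
    congr 1
    funext z
    rw [map_mul, map_mul, Complex.conj_ofReal, Complex.conj_conj]
    ring
  have hsum : ∑ i, ∫ x, ((w x).toReal : ℂ) * kern χ H (HM.rep M p i) x =
      (Real.sqrt p : ℂ) * (a * A + a * conj ζ * E + ζ * b * conj E + ζ * b * conj ζ * B) := by
    rw [← integral_finsetSum]
    · have h1 : ∀ x : ℍ, ∑ i, ((w x).toReal : ℂ) * kern χ H (HM.rep M p i) x =
          (Real.sqrt p : ℂ) * a * (((w x).toReal : ℂ) * (F x * conj (F x))) +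
          (Real.sqrt p : ℂ) * (a * conj ζ) * (((w x).toReal : ℂ) * (F x * conj (G x))) +
          (Real.sqrt p : ℂ) * (ζ * b) * (((w x).toReal : ℂ) * (G x * conj (F x))) +
          (Real.sqrt p : ℂ) * (ζ * b * conj ζ) * (((w x).toReal : ℂ) * (G x * conj (G x))) := by
        intro x
        rw [← Finset.mul_sum, sum_kern2 hFh hGh x, map_add, map_mul]
        ring
      simp only [h1]
      rw [integral_add, integral_add, integral_add, integral_const_mul, integral_const_mul,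
        integral_const_mul, integral_const_mul, hE']
      · ring
      · exact iFF.const_mul _
      · exact iFG.const_mul _
      · exact (iFF.const_mul _).add (iFG.const_mul _)
      · exact iGF.const_mul _
      · exact ((iFF.const_mul _).add (iFG.const_mul _)).add (iGF.const_mul _)
      · exact iGG.const_mul _
    · intro i _
      exact integrable_weight hw hwi (continuous_kern hHc _).measurable
        (norm_kern_le hHb _)
  rw [hsum] at key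
  have hs : (Real.sqrt p : ℂ) ≠ 0 := by
    have : (0 : ℝ) < p := by exact_mod_cast hp.pos
    exact_mod_cast (Real.sqrt_pos.2 this).ne'
  simp only [map_mul, map_add, Complex.conj_ofReal, Complex.conj_conj, hA', hB'] at key
  have h9 : (Real.sqrt p : ℂ) * ((a - b) * (conj ζ * E - ζ * conj E)) = 0 := by
    linear_combination key + (Real.sqrt p : ℂ) * (A + ζ * conj E) * ha +
      (Real.sqrt p : ℂ) * (conj ζ * E + conj ζ * ζ * B) * hb
  rcases mul_eq_zero.1 h9 with h | h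
  · exact absurd h hs
  · rcases mul_eq_zero.1 h with h | h
    · exact absurd (sub_eq_zero.1 h) hab
    · exact sub_eq_zero.1 h

theorem orth {M : ℕ} [NeZero M] {χ : DirichletCharacter ℂ M} {F G : ℍ → ℂ}
    (hFc : Continuous F) (hGc : Continuous G) (hFb : ∃ C : ℝ, ∀ z, ‖F z‖ ≤ C)
    (hGb : ∃ C : ℝ, ∀ z, ‖G z‖ ≤ C)
    (hFa : ∀ γ ∈ Gamma0 M, ∀ z : ℍ, F (γ • z) = χ ((γ 1 1 : ℤ) : ZMod M) * F z)
    (hGa : ∀ γ ∈ Gamma0 M, ∀ z : ℍ, G (γ • z) = χ ((γ 1 1 : ℤ) : ZMod M) * G z)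
    {p : ℕ} (hp : p.Prime) (hpM : ¬ p ∣ M) {a b : ℂ} (hab : a ≠ b) (ha : χ p * conj a = a)
    (hb : χ p * conj b = b) (hFh : ∀ z, hecke χ p F z = a * F z)
    (hGh : ∀ z, hecke χ p G z = b * G z)
    {w : ℍ → ℝ≥0∞} (hw : Measurable w)
    (hw1 : ∀ᵐ z : ℍ, ∑' γ : Gamma0 M, w ((γ : SL(2, ℤ)) • z) = 1) (hwi : ∫⁻ z, w z < ∞) :
    ∫ z, ((w z).toReal : ℂ) * (F z * conj (G z)) = 0 := by
  have h1 := orth_aux hFc hGc hFb hGb hFa hGa hp hpM hab ha hb hFh hGh 1 hw hw1 hwi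
  have h2 := orth_aux hFc hGc hFb hGb hFa hGa hp hpM hab ha hb hFh hGh Complex.I hw hw1 hwi
  rw [map_one, one_mul, one_mul] at h1
  rw [← h1, Complex.conj_I] at h2
  have h3 : (2 * Complex.I) * ∫ z, ((w z).toReal : ℂ) * (F z * conj (G z)) = 0 := by
    linear_combination -h2
  rcases mul_eq_zero.1 h3 with h | h
  · exfalso
    exact (mul_ne_zero two_ne_zero Complex.I_ne_zero) h
  · exact h

end Pool.Agent.H74W
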