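import Pool.Agent.W_7742w_h74.Dp

/-!
# Rankin-Selberg data of a linear combination

For `H = F + ζ G` the Fourier coefficients are the linear combinations (`fc` is linear for
continuous functions), so `‖fc (coord H) (± n) y‖ ^ 2 = ‖A n + ζ B n‖ ^ 2 y K0(2 π n y) ^ 2`
(`‖ε‖ = 1`), and Parseval (`ExRS_parseval`) gives the expansion as in `exists_rs`.
-/

set_option autoImplicit false

noncomputable section

namespace Pool.Agent.H74W

open UpperHalfPlane CongruenceSubgroup ComplexConjugate Pool.Agent.Maass74 Pool.Agent.MaassRS74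
open scoped MatrixGroups

theorem Rsp_cont {g : ℍ → ℂ} (hg : Continuous g) {y : ℝ} (hy : 0 < y) :
    Continuous fun x : ℝ => coord g x y := by
  have h1 : (fun x : ℝ => coord g x y) = fun x : ℝ => g ⟨(x : ℂ) + y * Complex.I, by
      simpa using hy⟩ := by
    funext x
    unfold coord
    rw [ofComplex_apply_of_im_pos (by simpa using hy)]
  rw [h1]
  refine hg.comp ?_
  rw [UpperHalfPlane.isOpenEmbedding_coe.isInducing.continuous_iff]
  exact (Complex.continuous_ofReal.add continuous_const)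

theorem Rsp_fc {F G : ℍ → ℂ} (hF : Continuous F) (hG : Continuous G) (ζ : ℂ) (n : ℤ) {y : ℝ}
    (hy : 0 < y) : fc (coord fun z => F z + ζ * G z) n y =
      fc (coord F) n y + ζ * fc (coord G) n y := by
  have hc : Continuous fun x : ℝ => Complex.exp (-(2 * Real.pi * Complex.I * n * x)) := by
    fun_prop
  have h1 : IntervalIntegrable (fun x : ℝ => Complex.exp (-(2 * Real.pi * Complex.I * n * x)) *
      coord F x y) MeasureTheory.volume 0 1 := (hc.mul (Rsp_cont hF hy)).intervalIntegrable 0 1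
  have h2 : IntervalIntegrable (fun x : ℝ => ζ * (Complex.exp (-(2 * Real.pi * Complex.I * n * x)) *
      coord G x y)) MeasureTheory.volume 0 1 :=
    (continuous_const.mul (hc.mul (Rsp_cont hG hy))).intervalIntegrable 0 1
  unfold fc
  rw [← intervalIntegral.integral_const_mul, ← intervalIntegral.integral_add h1 h2]
  refine intervalIntegral.integral_congr fun x _ => ?_
  simp only [coord]
  ring

theorem isRS_pair {N : ℕ} [NeZero N] {χ : DirichletCharacter ℂ N} {ε : ℂ} (hε : ε = 1 ∨ ε = -1)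
    {a b : ℕ → ℂ} {F G : ℍ → ℂ} {A B : ℕ → ℂ} (hF : IsDepl χ ε a F A) (hG : IsDepl χ ε b G B)
    (ζ : ℂ) : IsRS (N ^ 3) (fun z => ‖F z + ζ * G z‖ ^ 2) (fun n => 2 * ‖A n + ζ * B n‖ ^ 2) := by
  obtain ⟨C₁, hC₁⟩ := hF.bdd
  obtain ⟨C₂, hC₂⟩ := hG.bdd
  have hcH : Continuous fun z => F z + ζ * G z :=
    hF.continuous.add (continuous_const.mul hG.continuous)
  have hbH : ∀ z, ‖F z + ζ * G z‖ ≤ C₁ + ‖ζ‖ * C₂ := by
    intro z
    refine (norm_add_le _ _).trans (add_le_add (hC₁ z) ?_)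
    rw [norm_mul]
    exact mul_le_mul_of_nonneg_left (hC₂ z) (norm_nonneg _)
  have hε1 : ‖ε‖ = 1 := by
    rcases hε with rfl | rfl
    · exact norm_one
    · rw [norm_neg, norm_one]
  refine ⟨hcH.norm.pow 2, fun z => by positivity,
    ⟨(C₁ + ‖ζ‖ * C₂) ^ 2, fun z => pow_le_pow_left₀ (norm_nonneg _) (hbH z) 2⟩, ?_,
    fun n => by positivity, ?_, ?_⟩
  · intro γ hγ z
    show ‖F (γ • z) + ζ * G (γ • z)‖ ^ 2 = ‖F z + ζ * G z‖ ^ 2
    rw [hF.automorphic γ hγ z, hG.automorphic γ hγ z,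
      show lift χ ((γ 1 1 : ℤ) : ZMod (N ^ 3)) * F z +
        ζ * (lift χ ((γ 1 1 : ℤ) : ZMod (N ^ 3)) * G z) =
        lift χ ((γ 1 1 : ℤ) : ZMod (N ^ 3)) * (F z + ζ * G z) by ring, norm_mul,
      ExRS_norm_char (lift χ) hγ, one_mul]
  · simp [hF.A_zero, hG.A_zero]
  · intro y hy
    have hp := ExRS_parseval hcH hbH hy
    have h1 := hp.nat_add_neg
    have h0 : fc (coord fun z => F z + ζ * G z) 0 y = 0 := by
      rw [Rsp_fc hF.continuous hG.continuous ζ 0 hy, hF.fc_zero y hy, hG.fc_zero y hy, mul_zero,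
        add_zero]
    have h2 : (∫ x in (0 : ℝ)..1, ‖coord (fun z => F z + ζ * G z) x y‖ ^ 2) +
        ‖fc (coord fun z => F z + ζ * G z) 0 y‖ ^ 2 =
        cterm (fun z => ‖F z + ζ * G z‖ ^ 2) y := by
      rw [h0, norm_zero, zero_pow two_ne_zero, add_zero]
      rfl
    rw [h2] at h1
    have h3 : (fun n : ℕ => 2 * ‖A n + ζ * B n‖ ^ 2 * (y * K0 (2 * Real.pi * n * y) ^ 2)) =
        fun n : ℕ => ‖fc (coord fun z => F z + ζ * G z) (n : ℤ) y‖ ^ 2 +
          ‖fc (coord fun z => F z + ζ * G z) (-(n : ℤ)) y‖ ^ 2 := by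
      funext n
      rcases Nat.eq_zero_or_pos n with rfl | hn
      · rw [hF.A_zero, hG.A_zero, Nat.cast_zero, Nat.cast_zero, neg_zero, h0]
        simp
      · rw [Rsp_fc hF.continuous hG.continuous ζ _ hy, Rsp_fc hF.continuous hG.continuous ζ _ hy,
          hF.fc_pos n y hn hy, hG.fc_pos n y hn hy, hF.fc_neg n y hn hy, hG.fc_neg n y hn hy,
          show A n * ((Real.sqrt y * K0 (2 * Real.pi * n * y) : ℝ) : ℂ) +
            ζ * (B n * ((Real.sqrt y * K0 (2 * Real.pi * n * y) : ℝ) : ℂ)) =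
            (A n + ζ * B n) * ((Real.sqrt y * K0 (2 * Real.pi * n * y) : ℝ) : ℂ) by ring,
          show ε * A n * ((Real.sqrt y * K0 (2 * Real.pi * n * y) : ℝ) : ℂ) +
            ζ * (ε * B n * ((Real.sqrt y * K0 (2 * Real.pi * n * y) : ℝ) : ℂ)) =
            ε * ((A n + ζ * B n) * ((Real.sqrt y * K0 (2 * Real.pi * n * y) : ℝ) : ℂ)) by ring,
          norm_mul ε, hε1, one_mul, norm_mul, Complex.norm_real, Real.norm_eq_abs, mul_pow, sq_abs,
          mul_pow, Real.sq_sqrt hy.le]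
        ring
    rw [h3]
    exact h1

end Pool.Agent.H74W
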