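import Pool.Agent.W_7742w_h74.RsV
import Pool.Agent.W_7742w_h74.Rsp
import Pool.Agent.W_7742w_h74.Eul2
import Pool.Agent.W_7742w_h74.Orth
import Pool.Agent.W_7742w_h74.Hd

/-!
# Boundedness of the Rankin-Selberg `L`-function of two forms

`P(s) = g_1(s) + i g_i(s) - g_{-1}(s) - i g_{-i}(s)` where `g_ζ` is the function of `rs_main_val` for
`|F + ζ G| ^ 2`.  It vanishes at `1` by orthogonality, and
`P(x) = (x - 1) zeta_M(x) ∑ 8 A n conj(B n) n ^ (-x) = 8 (x - 1) A 1 conj(B 1) exp(S(x))`.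
-/

set_option autoImplicit false

noncomputable section

namespace Pool.Agent.H74W

open UpperHalfPlane CongruenceSubgroup ComplexConjugate MeasureTheory ENNReal Topology
open Pool.Agent.Maass74 Pool.Agent.MaassRS74
open scoped MatrixGroups

/-- The weighted inner product. -/
def ip (w : ℍ → ℝ≥0∞) (u v : ℍ → ℂ) : ℂ := ∫ z, ((w z).toReal : ℂ) * (u z * conj (v z))

theorem ip_conj (w : ℍ → ℝ≥0∞) (u v : ℍ → ℂ) : conj (ip w u v) = ip w v u := by
  unfold ip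
  rw [← integral_conj]
  refine integral_congr_ae (Filter.Eventually.of_forall fun z => ?_)
  simp only [map_mul, Complex.conj_conj, Complex.conj_ofReal]
  ring

theorem ip_norm {w : ℍ → ℝ≥0∞} (hw : Measurable w) (hwi : ∫⁻ z, w z < ∞) {u : ℍ → ℂ}
    (hu : Continuous u) :
    (((∫⁻ z, w z * ENNReal.ofReal (‖u z‖ ^ 2)).toReal : ℝ) : ℂ) = ip w u u := by
  have hm : Measurable fun z => w z * ENNReal.ofReal (‖u z‖ ^ 2) :=
    hw.mul (hu.norm.pow 2).measurable.ennreal_ofReal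
  have hlt : ∀ᵐ z : ℍ, w z * ENNReal.ofReal (‖u z‖ ^ 2) < ∞ := by
    filter_upwards [ae_lt_top hw hwi.ne] with z hz
    exact ENNReal.mul_lt_top hz ENNReal.ofReal_lt_top
  rw [← integral_toReal hm.aemeasurable hlt, ← integral_complex_ofReal]
  unfold ip
  refine integral_congr_ae (Filter.Eventually.of_forall fun z => ?_)
  simp only [ENNReal.toReal_mul]
  rw [ENNReal.toReal_ofReal (by positivity), Complex.mul_conj']
  push_cast
  ring

theorem ip_add {w : ℍ → ℝ≥0∞} (hw : Measurable w) (hwi : ∫⁻ z, w z < ∞) {F G : ℍ → ℂ}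
    (hFc : Continuous F) (hGc : Continuous G) (hFb : ∃ C : ℝ, ∀ z, ‖F z‖ ≤ C)
    (hGb : ∃ C : ℝ, ∀ z, ‖G z‖ ≤ C) (ζ : ℂ) (hζ : ζ * conj ζ = 1) (h0 : ip w F G = 0) :
    ip w (fun z => F z + ζ * G z) (fun z => F z + ζ * G z) = ip w F F + ip w G G := by
  have h0' : ip w G F = 0 := by rw [← ip_conj, h0, map_zero]
  obtain ⟨C, hC⟩ := hFb
  obtain ⟨C', hC'⟩ := hGb
  have hint : ∀ (u v : ℍ → ℂ), Continuous u → Continuous v → (∃ B : ℝ, ∀ z, ‖u z‖ ≤ B) →
      (∃ B : ℝ, ∀ z, ‖v z‖ ≤ B) →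
      Integrable (fun z => ((w z).toReal : ℂ) * (u z * conj (v z))) := by
    rintro u v hu hv ⟨B, hB⟩ ⟨B', hB'⟩
    refine integrable_weight hw hwi (g := fun z => u z * conj (v z)) (C := B * B')
      (hu.mul (Complex.continuous_conj.comp hv)).measurable (fun z => ?_)
    rw [norm_mul, Complex.norm_conj]
    exact mul_le_mul (hB z) (hB' z) (norm_nonneg _) ((norm_nonneg _).trans (hB z))
  have i1 := hint F F hFc hFc ⟨C, hC⟩ ⟨C, hC⟩
  have i2 := hint F G hFc hGc ⟨C, hC⟩ ⟨C', hC'⟩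
  have i3 := hint G F hGc hFc ⟨C', hC'⟩ ⟨C, hC⟩
  have i4 := hint G G hGc hGc ⟨C', hC'⟩ ⟨C', hC'⟩
  have e : ip w (fun z => F z + ζ * G z) (fun z => F z + ζ * G z) =
      ip w F F + conj ζ * ip w F G + ζ * ip w G F + ζ * conj ζ * ip w G G := by
    unfold ip
    have j2 := i2.const_mul (conj ζ)
    have j3 := i3.const_mul ζ
    have j4 := i4.const_mul (ζ * conj ζ)
    have s1 : ∫ z, (((w z).toReal : ℂ) * (F z * conj (F z)) +
        conj ζ * (((w z).toReal : ℂ) * (F z * conj (G z)))) =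
        (∫ z, ((w z).toReal : ℂ) * (F z * conj (F z))) +
        ∫ z, conj ζ * (((w z).toReal : ℂ) * (F z * conj (G z))) := integral_add i1 j2
    have s2 : ∫ z, (((w z).toReal : ℂ) * (F z * conj (F z)) +
        conj ζ * (((w z).toReal : ℂ) * (F z * conj (G z))) +
        ζ * (((w z).toReal : ℂ) * (G z * conj (F z)))) =
        (∫ z, (((w z).toReal : ℂ) * (F z * conj (F z)) +
        conj ζ * (((w z).toReal : ℂ) * (F z * conj (G z))))) +
        ∫ z, ζ * (((w z).toReal : ℂ) * (G z * conj (F z))) := integral_add (i1.add j2) j3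
    have s3 : ∫ z, (((w z).toReal : ℂ) * (F z * conj (F z)) +
        conj ζ * (((w z).toReal : ℂ) * (F z * conj (G z))) +
        ζ * (((w z).toReal : ℂ) * (G z * conj (F z))) +
        ζ * conj ζ * (((w z).toReal : ℂ) * (G z * conj (G z)))) =
        (∫ z, (((w z).toReal : ℂ) * (F z * conj (F z)) +
        conj ζ * (((w z).toReal : ℂ) * (F z * conj (G z))) +
        ζ * (((w z).toReal : ℂ) * (G z * conj (F z))))) +
        ∫ z, ζ * conj ζ * (((w z).toReal : ℂ) * (G z * conj (G z))) :=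
      integral_add ((i1.add j2).add j3) j4
    rw [integral_const_mul] at s1 s2 s3
    rw [← s1, ← s2, ← s3]
    refine integral_congr_ae (Filter.Eventually.of_forall fun z => ?_)
    simp only [map_add, map_mul]
    ring
  rw [e, h0, h0', hζ]
  ring

theorem bounded_of_zero {P : ℂ → ℂ} (hP : ∀ s : ℂ, 0 < s.re → AnalyticAt ℂ P s) (h1 : P 1 = 0) :
    ∃ C : ℝ, ∀ x : ℝ, 1 < x → x ≤ 2 → ‖P x‖ ≤ C * (x - 1) := by
  have hc : ContinuousOn (fun x : ℝ => dslope P 1 (x : ℂ)) (Set.Icc 1 2) := by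
    intro x hx
    have hx0 : 0 < ((x : ℝ) : ℂ).re := by
      rw [Complex.ofReal_re]
      linarith [hx.1]
    have hd : DifferentiableAt ℂ P ((x : ℝ) : ℂ) := (hP _ hx0).differentiableAt
    have h2 : ContinuousAt (dslope P 1) ((x : ℝ) : ℂ) := by
      rcases eq_or_ne ((x : ℝ) : ℂ) 1 with h | h
      · rw [h] at hd ⊢
        exact continuousAt_dslope_same.2 hd
      · exact (continuousAt_dslope_of_ne h).2 hd.continuousAt
    exact (h2.comp Complex.continuous_ofReal.continuousAt).continuousWithinAt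
  obtain ⟨C, hC⟩ := (isCompact_Icc (a := (1 : ℝ)) (b := 2)).exists_bound_of_continuousOn hc
  refine ⟨C, fun x hx hx2 => ?_⟩
  have h3 := hC x ⟨hx.le, hx2⟩
  have hne : ((x : ℝ) : ℂ) ≠ 1 := by
    have : x ≠ 1 := hx.ne'
    exact_mod_cast this
  rw [dslope_of_ne _ hne, slope_def_field, h1, sub_zero, norm_div] at h3
  have h4 : ‖((x : ℝ) : ℂ) - 1‖ = x - 1 := by
    have h5 : ((x : ℝ) : ℂ) - 1 = ((x - 1 : ℝ) : ℂ) := by push_cast; rfl
    rw [h5, Complex.norm_real, Real.norm_of_nonneg (by linarith)]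
  rw [h4, div_le_iff₀ (by linarith)] at h3
  exact h3

open Classical in
theorem pair_bounded {N : ℕ} [NeZero N] {χ : DirichletCharacter ℂ N} {ε : ℂ}
    (hε : ε = 1 ∨ ε = -1) {a b : ℕ → ℂ} {F G : ℍ → ℂ} {A B : ℕ → ℂ} (hF : IsDepl χ ε a F A)
    (hG : IsDepl χ ε b G B) (hw : ∀ p : ℕ, p.Prime → ¬ p ∣ N → ‖χ p‖ = 1)
    (hua : ∀ p : ℕ, p.Prime → ¬ p ∣ N → χ p * conj (a p) = a p)
    (hub : ∀ p : ℕ, p.Prime → ¬ p ∣ N → χ p * conj (b p) = b p)
    (hab : ∃ p : ℕ, p.Prime ∧ ¬ p ∣ N ∧ a p ≠ b p) :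
    ∃ C : ℝ, ∀ x : ℝ, 1 < x → x ≤ 2 →
      ‖Complex.exp (∑' q : Nat.Primes × ℕ, if (q.1 : ℕ) ∣ N then (0 : ℂ) else
      psum (a q.1) (χ q.1) (q.2 + 1) * conj (psum (b q.1) (χ q.1) (q.2 + 1)) / ((q.2 : ℂ) + 1) /
        (((((q.1 : ℕ) : ℝ) ^ (((q.2 : ℝ) + 1) * x) : ℝ)) : ℂ))‖ ≤ C := by
  have hN : 0 < N := Nat.pos_of_ne_zero (NeZero.ne N)
  have : NeZero (N ^ 3) := ⟨pow_ne_zero 3 hN.ne'⟩
  obtain ⟨w, κ, hwm, hw1, hwi, hRS⟩ := rs_main_val (N ^ 3)
  obtain ⟨p, hp, hpN, hne⟩ := hab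
  have hpM : ¬ p ∣ N ^ 3 := fun h => hpN (hp.dvd_of_dvd_pow h)
  have horth : ip w F G = 0 := orth hF.continuous hG.continuous hF.bdd hG.bdd hF.automorphic
    hG.automorphic hp hpM hne (by rw [lift_prime χ hp hpN]; exact hua p hp hpN)
    (by rw [lift_prime χ hp hpN]; exact hub p hp hpN) (hF.hecke p hp hpN) (hG.hecke p hp hpN)
    hwm hw1 hwi
  have hg := fun ζ : ℂ => hRS _ _ (isRS_pair hε hF hG ζ)
  choose g hga hgx hg1 using hg
  have hg1' : ∀ ζ : ℂ, ζ * conj ζ = 1 → g ζ 1 = κ * (ip w F F + ip w G G) := by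
    intro ζ hζ
    have hc : Continuous fun z => F z + ζ * G z :=
      hF.continuous.add (continuous_const.mul hG.continuous)
    rw [hg1 ζ, Complex.ofReal_mul, ip_norm hwm hwi hc,
      ip_add hwm hwi hF.continuous hG.continuous hF.bdd hG.bdd ζ hζ horth]
  set P : ℂ → ℂ := fun s => g 1 s + Complex.I * g Complex.I s - g (-1) s -
    Complex.I * g (-Complex.I) s with hP
  have hPa : ∀ s : ℂ, 0 < s.re → AnalyticAt ℂ P s := by
    intro s hs
    exact (((hga 1 s hs).add (analyticAt_const.mul (hga _ s hs))).sub (hga _ s hs)).sub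
      (analyticAt_const.mul (hga _ s hs))
  have hP1 : P 1 = 0 := by
    simp only [hP]
    rw [hg1' 1 (by simp), hg1' Complex.I (by simp), hg1' (-1) (by simp), hg1' (-Complex.I) (by simp)]
    ring
  obtain ⟨C, hC⟩ := bounded_of_zero hPa hP1
  have hA1 := hF.A_one
  have hB1 := hG.A_one
  have hsA : ∀ (F : ℍ → ℂ) (a : ℕ → ℂ) (A : ℕ → ℂ), IsDepl χ ε a F A → ∀ x : ℝ, 1 < x →
      Summable fun n : ℕ => ‖A n‖ ^ 2 * (n : ℝ) ^ (-x) := by
    intro F a A hF x hx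
    have h1 := (summable_r (isRS_pair hε hF hF 0) hx).mul_left (1 / 2)
    refine h1.congr fun n => ?_
    simp only [zero_mul, add_zero]
    ring
  have hnorm : 0 < ‖A 1 * conj (B 1)‖ := by
    rw [norm_pos_iff]
    exact mul_ne_zero hA1 ((map_ne_zero _).2 hB1)
  refine ⟨C / (8 * ‖A 1 * conj (B 1)‖), fun x hx hx2 => ?_⟩
  have heul := (euler2 hN (w := fun p => χ p) hA1 hB1 hF.A_zero hG.A_zero hF.A_coprime hG.A_coprime
    hF.A_mul hG.A_mul (hsA F a A hF) (hsA G b B hG) hw hua hub hx).2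
  set S : ℂ := ∑' q : Nat.Primes × ℕ, if (q.1 : ℕ) ∣ N then (0 : ℂ) else
      psum (a q.1) (χ q.1) (q.2 + 1) * conj (psum (b q.1) (χ q.1) (q.2 + 1)) / ((q.2 : ℂ) + 1) /
        (((((q.1 : ℕ) : ℝ) ^ (((q.2 : ℝ) + 1) * x) : ℝ)) : ℂ) with hS
  have hPx : P x = 8 * ((x : ℂ) - 1) * (A 1 * conj (B 1) * Complex.exp S) := by
    have hsum : ∀ ζ : ℂ, HasSum (fun n : ℕ => (((2 * ‖A n + ζ * B n‖ ^ 2 * (n : ℝ) ^ (-x) : ℝ)) : ℂ))
        (((∑' n : ℕ, 2 * ‖A n + ζ * B n‖ ^ 2 * (n : ℝ) ^ (-x) : ℝ)) : ℂ) := by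
      intro ζ
      exact Complex.hasSum_ofReal.2 (summable_r (isRS_pair hε hF hG ζ) hx).hasSum
    have h4 := (((hsum 1).add ((hsum Complex.I).mul_left Complex.I)).sub (hsum (-1))).sub
      ((hsum (-Complex.I)).mul_left Complex.I)
    have h5 : ∀ n : ℕ, (((2 * ‖A n + 1 * B n‖ ^ 2 * (n : ℝ) ^ (-x) : ℝ)) : ℂ) +
        Complex.I * (((2 * ‖A n + Complex.I * B n‖ ^ 2 * (n : ℝ) ^ (-x) : ℝ)) : ℂ) -
        (((2 * ‖A n + (-1) * B n‖ ^ 2 * (n : ℝ) ^ (-x) : ℝ)) : ℂ) -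
        Complex.I * (((2 * ‖A n + (-Complex.I) * B n‖ ^ 2 * (n : ℝ) ^ (-x) : ℝ)) : ℂ) =
        8 * (A n * conj (B n) * (((n : ℝ) ^ (-x) : ℝ) : ℂ)) := by
      intro n
      have h6 : ∀ ζ : ℂ, (((2 * ‖A n + ζ * B n‖ ^ 2 * (n : ℝ) ^ (-x) : ℝ)) : ℂ) =
          2 * ((A n + ζ * B n) * (conj (A n) + conj ζ * conj (B n))) *
            (((n : ℝ) ^ (-x) : ℝ) : ℂ) := by
        intro ζ
        have h7 : (A n + ζ * B n) * (conj (A n) + conj ζ * conj (B n)) =
            ((‖A n + ζ * B n‖ ^ 2 : ℝ) : ℂ) := by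
          have := Complex.mul_conj' (A n + ζ * B n)
          rw [map_add, map_mul] at this
          rw [this]
          push_cast
          rfl
        rw [h7]
        push_cast
        ring
      rw [h6, h6, h6, h6]
      simp only [map_one, map_neg, Complex.conj_I]
      linear_combination (2 * A n * conj (B n) * (((n : ℝ) ^ (-x) : ℝ) : ℂ) * (-2) -
        2 * B n * conj (A n) * (((n : ℝ) ^ (-x) : ℝ) : ℂ) * (-2)) * Complex.I_sq
    rw [funext h5] at h4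
    have h8 := h4.tsum_eq
    rw [tsum_mul_left] at h8
    have h9 : P x = ((x : ℂ) - 1) * (zetaM (N ^ 3) x : ℂ) *
        (8 * ∑' n : ℕ, A n * conj (B n) * (((n : ℝ) ^ (-x) : ℝ) : ℂ)) := by
      rw [h8]
      simp only [hP]
      rw [hgx 1 x hx, hgx Complex.I x hx, hgx (-1) x hx, hgx (-Complex.I) x hx]
      push_cast
      ring
    have hz : zetaM (N ^ 3) x = zetaM N x := by
      unfold zetaM
      refine tsum_congr fun k => ?_
      have : k.Coprime (N ^ 3) ↔ k.Coprime N := by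
        constructor
        · intro h
          exact Nat.Coprime.coprime_dvd_right (dvd_pow_self N (by norm_num)) h
        · intro h
          exact Nat.Coprime.pow_right 3 h
      simp only [this]
    rw [h9, hz]
    linear_combination (-8 * ((x : ℂ) - 1)) * heul
  have h10 := hC x hx hx2
  rw [hPx, norm_mul, norm_mul, norm_mul (A 1 * conj (B 1))] at h10
  have h11 : ‖((x : ℝ) : ℂ) - 1‖ = x - 1 := by
    have h5 : ((x : ℝ) : ℂ) - 1 = ((x - 1 : ℝ) : ℂ) := by push_cast; rfl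
    rw [h5, Complex.norm_real, Real.norm_of_nonneg (by linarith)]
  rw [h11] at h10
  have h12 : ‖(8 : ℂ)‖ = 8 := by norm_num
  rw [h12] at h10
  have hx1 : 0 < x - 1 := by linarith
  rw [le_div_iff₀ (by positivity)]
  have h13 : (x - 1) * (‖Complex.exp S‖ * (8 * ‖A 1 * conj (B 1)‖)) ≤ (x - 1) * C := by
    linarith
  exact le_of_mul_le_mul_left h13 hx1

end Pool.Agent.H74W
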