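import Pool.Agent.W_7742w_h74.Zer
import Pool.Agent.W_7742w_h74.Pair
import Pool.Agent.W_7742w_h74.ExD
import Pool.Agent.W_7742v_h74.Fin
import Pool.Agent.W_7742x_h74.QRS

/-!
# Families of Maass forms
-/

set_option autoImplicit false

noncomputable section

namespace Pool.Agent.H74V

open Filter Topology ComplexConjugate UpperHalfPlane
open Pool.Agent.Maass74 Pool.Agent.MaassRS74 Pool.Agent.H74W

/-- Dirichlet characters which agree at the primes not dividing the level are equal. -/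
theorem char_ext {N : ℕ} (hN : 0 < N) {χ ψ : DirichletCharacter ℂ N}
    (h : ∀ p : ℕ, p.Prime → ¬ p ∣ N → χ p = ψ p) : χ = ψ := by
  have : NeZero N := ⟨hN.ne'⟩
  have key : ∀ n : ℕ, 0 < n → n.Coprime N → χ n = ψ n := by
    intro n
    induction n using Nat.strong_induction_on with
    | _ n ih =>
      intro hn hc
      rcases eq_or_ne n 1 with rfl | h1
      · simp
      · obtain ⟨p, hp, m, rfl⟩ := Nat.exists_prime_and_dvd h1
        have hm : 0 < m := Nat.pos_of_mul_pos_left hn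
        have hpN : ¬ p ∣ N := by
          intro hd
          have h2 : p ∣ Nat.gcd (p * m) N := Nat.dvd_gcd (dvd_mul_right p m) hd
          rw [hc] at h2
          exact hp.one_lt.ne' (Nat.dvd_one.1 h2)
        have hlt : m < p * m := by
          have := hp.two_le
          nlinarith
        have h3 := ih m hlt hm (Nat.Coprime.coprime_mul_left hc)
        push_cast
        rw [map_mul, map_mul, h p hp hpN, h3]
  refine MulChar.ext fun u => ?_
  have hu : ((((u : ZMod N)).val + N : ℕ) : ZMod N) = (u : ZMod N) := by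
    push_cast
    rw [ZMod.natCast_self, add_zero, ZMod.natCast_zmod_val]
  have hc : (((u : ZMod N)).val + N).Coprime N := by
    rw [Nat.coprime_add_self_left]
    exact ZMod.val_coe_unit_coprime u
  have := key (((u : ZMod N)).val + N) (by omega) hc
  rwa [hu] at this

namespace SatakeSystem

variable {K : Type} [Field K] [NumberField K] {n : ℕ} {π : SatakeSystem K n}

theorem isMaass_of_family (h : π.IsMaassFamily) (σ : K →+* ℂ) : π.IsMaass σ := by
  obtain ⟨hn, ε, hε, h⟩ := h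
  obtain ⟨χ, f, hχ, hf, h0, -, hT⟩ := h σ
  exact ⟨hn, χ, hχ, f, hf, h0, fun p hp hpN => hT p ⟨hp, hpN⟩⟩

theorem isBounded_of_rankinSelberg {σ : K →+* ℂ} (h : π.IsRankinSelberg σ) : π.IsBounded σ := by
  obtain ⟨hu, hc, g, hg, hgx⟩ := h
  refine ⟨hu, hc, ?_⟩
  have hcont : ContinuousOn (fun x : ℝ => g (x : ℂ)) (Set.Icc 1 2) := by
    intro x hx
    have hx0 : 0 < ((x : ℝ) : ℂ).re := by
      rw [Complex.ofReal_re]
      linarith [hx.1]
    exact ((hg _ hx0).continuousAt.comp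
      Complex.continuous_ofReal.continuousAt).continuousWithinAt
  obtain ⟨C, hC⟩ := (isCompact_Icc (a := (1 : ℝ)) (b := 2)).exists_bound_of_continuousOn hcont
  refine ⟨C, fun s hs hs2 => ?_⟩
  have h1 := hC s ⟨hs.le, hs2⟩
  rw [hgx s (by rw [Complex.ofReal_re]; exact hs), norm_mul] at h1
  have h2 : ‖((s : ℝ) : ℂ) - 1‖ = s - 1 := by
    have h5 : ((s : ℝ) : ℂ) - 1 = ((s - 1 : ℝ) : ℂ) := by push_cast; rfl
    rw [h5, Complex.norm_real, Real.norm_of_nonneg (by linarith)]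
  rwa [h2] at h1

theorem isBoundedFamily (h : π.IsMaassFamily) (hg : π.Generates) : π.IsBoundedFamily := by
  classical
  have hM := isMaass_of_family h
  obtain ⟨rfl, ε, hε, h⟩ := h
  have hN := π.level_pos
  have : NeZero π.level := ⟨hN.ne'⟩
  refine ⟨fun σ => isBounded_of_rankinSelberg (maass_rankinSelberg (hM σ)), fun σ τ hne hag => ?_⟩
  obtain ⟨χ, f, hχ, hf, hf0, hfp, hfT⟩ := h σ
  obtain ⟨ψ, f', hψ, hf', hf0', hfp', hfT'⟩ := h τ
  have hdet : ∀ p, π.Good p → σ (π.A p).det = τ (π.A p).det := by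
    intro p hp
    exact hag _ (maass_facts (hM σ) hp).1
  have hχψ : χ = ψ := by
    refine char_ext hN fun p hp hpN => ?_
    rw [hχ p ⟨hp, hpN⟩, hψ p ⟨hp, hpN⟩, hdet p ⟨hp, hpN⟩]
  subst hχψ
  obtain ⟨F, A, hF⟩ := exists_depl hf hf0 hε hfp (a := fun p => σ (π.A p).trace)
    (fun p hp hpN => hfT p ⟨hp, hpN⟩)
  obtain ⟨G, B, hG⟩ := exists_depl hf' hf0' hε hfp' (a := fun p => τ (π.A p).trace)
    (fun p hp hpN => hfT' p ⟨hp, hpN⟩)
  have hab : ∃ p : ℕ, p.Prime ∧ ¬ p ∣ π.level ∧ σ (π.A p).trace ≠ τ (π.A p).trace := by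
    by_contra hcon
    push Not at hcon
    refine hne (eq_of_agree hg hag ?_)
    rintro x ⟨p, hp, rfl⟩
    exact hcon p hp.1 hp.2
  obtain ⟨C, hC⟩ := pair_bounded hε hF hG
    (fun p hp hpN => by rw [hχ p ⟨hp, hpN⟩]; exact (maass_facts (hM σ) ⟨hp, hpN⟩).2.1)
    (fun p hp hpN => by rw [hχ p ⟨hp, hpN⟩]; exact (maass_facts (hM σ) ⟨hp, hpN⟩).2.2)
    (fun p hp hpN => by
      rw [hχ p ⟨hp, hpN⟩, hdet p ⟨hp, hpN⟩]; exact (maass_facts (hM τ) ⟨hp, hpN⟩).2.2) hab
  refine ⟨C, fun s hs hs2 => ?_⟩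
  have h1 := hC s hs hs2
  unfold L2
  convert h1 using 5 with x
  unfold coeff2
  by_cases hx : (x.1 : ℕ) ∣ π.level
  · rw [if_neg (fun h => h.2 hx), if_pos hx, zero_div]
  · rw [if_pos (show π.Good x.1 from ⟨x.1.2, hx⟩), if_neg hx, map_trace_pow, map_trace_pow,
      hχ x.1 ⟨x.1.2, hx⟩, hdet x.1 ⟨x.1.2, hx⟩]
    push_cast
    rfl

/-- Cusp forms on `GL_n` are bounded. -/
theorem isBounded_of_isCuspidal (hn : 2 ≤ n) {σ : K →+* ℂ} (h : π.IsCuspidal σ) :
    π.IsBounded σ := by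
  have hw : GL74.WeakRS (π.T σ) := by
    refine (GL74.cuspidal_main hn h).2 _ (fun x hx => ?_) (fun x hx => ?_)
    · unfold T coeff
      rw [if_pos hx]
      have h1 : ((x.2 : ℝ) + 1) ≠ 0 := by positivity
      push_cast
      field_simp
    · unfold T coeff
      rw [if_neg hx, zero_mul]
  obtain ⟨C, hC⟩ := hw.bound (T_nonneg π σ)
  refine ⟨(GL74.cuspidal_main hn h).1, fun s hs =>
    (hw.summable (T_nonneg π σ) hs).congr fun x => (coeff_pk π σ s x).symm, C,
    fun s hs hs2 => ?_⟩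
  rw [L_real]
  exact hC s hs hs2

/-- The main theorem. -/
theorem main (π : SatakeSystem K n) :
    (((2 ≤ n ∧ ∀ σ, π.IsCuspidal σ) ∨ π.IsMaassFamily ∨ ∀ σ, π.IsBounded σ) → π.ManyUnits) ∧
    (π.Generates → (π.IsMaassFamily ∨ π.IsBoundedFamily) → π.ManyZeros) := by
  refine ⟨fun h => ?_, fun hg h => ?_⟩
  · rcases h with ⟨hn, h⟩ | h | h
    · exact π.manyUnits fun σ => Or.inl (isBounded_of_isCuspidal hn (h σ))
    · exact π.manyUnits fun σ => Or.inr (isMaass_of_family h σ)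
    · exact π.manyUnits fun σ => Or.inl (h σ)
  · rcases h with h | h
    · exact π.manyZeros (isBoundedFamily h hg)
    · exact π.manyZeros h

end SatakeSystem

end Pool.Agent.H74V
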