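import Mathlib

/-!
# Embeddings which agree on the roots of unity

Let `L` be the subfield generated by the roots of unity.  `σ` and `τ` agree on the roots of unity iff
they agree on `L`.  With the `L`-algebra structure on `ℂ` given by `σ` these `τ` are the
`L`-algebra homomorphisms `K → ℂ`, their number is `[K : L]` (`AlgHom.card`).
`agree_nonneg`: the sum is `∑_C |∑_{σ ∈ C} v σ| ^ 2` over the equivalence classes `C`.
-/

set_option autoImplicit false

noncomputable section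

namespace Pool.Agent.H74W

open ComplexConjugate

variable {K : Type} [Field K] [NumberField K]

/-- `σ` and `τ` agree on the roots of unity. -/
def Agree (σ τ : K →+* ℂ) : Prop := ∀ x : K, (∃ k : ℕ, 0 < k ∧ x ^ k = 1) → σ x = τ x

/-- The degree of `K` over the field generated by the roots of unity. -/
def rk (K : Type) [Field K] [NumberField K] : ℕ :=
  Module.finrank (IntermediateField.adjoin ℚ {x : K | ∃ k : ℕ, 0 < k ∧ x ^ k = 1}) K

theorem rk_pos : 0 < rk K := by
  unfold rk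
  exact Module.finrank_pos

theorem agree_refl (σ : K →+* ℂ) : Agree σ σ := fun _ _ => rfl

theorem Agree.symm {σ τ : K →+* ℂ} (h : Agree σ τ) : Agree τ σ := fun x hx => (h x hx).symm

theorem Agree.trans {σ τ ρ : K →+* ℂ} (h : Agree σ τ) (h' : Agree τ ρ) : Agree σ ρ :=
  fun x hx => (h x hx).trans (h' x hx)

/-- two embeddings which agree on `S` agree on the field generated by `S` -/
theorem Agr_adjoin {S : Set K} {σ τ : K →+* ℂ} (hS : ∀ x ∈ S, σ x = τ x) :
    ∀ x ∈ IntermediateField.adjoin ℚ S, σ x = τ x := by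
  intro x hx
  induction hx using IntermediateField.adjoin_induction with
  | mem x hx => exact hS x hx
  | algebraMap q =>
    exact RingHom.congr_fun (Subsingleton.elim (σ.comp (algebraMap ℚ K))
      (τ.comp (algebraMap ℚ K))) q
  | add x y _ _ hx hy => rw [map_add, map_add, hx, hy]
  | inv x _ hx => rw [map_inv₀, map_inv₀, hx]
  | mul x y _ _ hx hy => rw [map_mul, map_mul, hx, hy]

open Classical in
theorem card_agree (σ : K →+* ℂ) :
    (Finset.univ.filter fun τ : K →+* ℂ => Agree σ τ).card = rk K := by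
  letI : Algebra (IntermediateField.adjoin ℚ {x : K | ∃ k : ℕ, 0 < k ∧ x ^ k = 1}) ℂ :=
    (σ.comp (algebraMap (IntermediateField.adjoin ℚ {x : K | ∃ k : ℕ, 0 < k ∧ x ^ k = 1})
      K)).toAlgebra
  have h1 : Fintype.card (K →ₐ[IntermediateField.adjoin ℚ {x : K | ∃ k : ℕ, 0 < k ∧ x ^ k = 1}] ℂ)
      = rk K := AlgHom.card _ _ _
  rw [← h1, ← Fintype.card_subtype]
  refine Fintype.card_congr
    { toFun := fun τ =>
        { τ.1 with
          commutes' := fun r => (Agr_adjoin (fun x hx => τ.2 x hx) r.1 r.2).symm }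
      invFun := fun τ => ⟨(τ : K →+* ℂ), fun x hx => ?_⟩
      left_inv := fun τ => ?_
      right_inv := fun τ => ?_ }
  · have := τ.commutes ⟨x, IntermediateField.subset_adjoin _ _ hx⟩
    exact this.symm
  · ext x; rfl
  · ext x; rfl

open Classical in
theorem agree_nonneg (v : (K →+* ℂ) → ℂ) :
    0 ≤ ∑ σ : K →+* ℂ, ∑ τ : K →+* ℂ, if Agree σ τ then (v σ * conj (v τ)).re else 0 := by
  have hcount : ∀ σ τ : K →+* ℂ,
      (∑ ρ : K →+* ℂ, if Agree ρ σ ∧ Agree ρ τ then (1 : ℝ) else 0) =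
        if Agree σ τ then (rk K : ℝ) else 0 := by
    intro σ τ
    split_ifs with h
    · rw [← card_agree σ, Finset.card_filter, Nat.cast_sum]
      refine Finset.sum_congr rfl fun ρ _ => ?_
      by_cases h1 : Agree σ ρ
      · rw [if_pos ⟨h1.symm, h1.symm.trans h⟩, if_pos h1, Nat.cast_one]
      · rw [if_neg (fun h2 => h1 h2.1.symm), if_neg h1, Nat.cast_zero]
    · refine Finset.sum_eq_zero fun ρ _ => ?_
      rw [if_neg]
      exact fun h2 => h (h2.1.symm.trans h2.2)
  have hsq : ∀ ρ : K →+* ℂ, (∑ σ : K →+* ℂ, ∑ τ : K →+* ℂ,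
      (if Agree ρ σ ∧ Agree ρ τ then (1 : ℝ) else 0) * (v σ * conj (v τ)).re) =
      ‖∑ σ : K →+* ℂ, if Agree ρ σ then v σ else 0‖ ^ 2 := by
    intro ρ
    have h1 : (((‖∑ σ : K →+* ℂ, if Agree ρ σ then v σ else 0‖ ^ 2 : ℝ)) : ℂ) =
        (∑ σ : K →+* ℂ, if Agree ρ σ then v σ else 0) *
          conj (∑ τ : K →+* ℂ, if Agree ρ τ then v τ else 0) := by
      rw [Complex.mul_conj, Complex.normSq_eq_norm_sq]
    have h2 := congrArg Complex.re h1
    rw [Complex.ofReal_re] at h2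
    rw [h2, map_sum, Finset.sum_mul_sum, Complex.re_sum]
    refine Finset.sum_congr rfl fun σ _ => ?_
    rw [Complex.re_sum]
    refine Finset.sum_congr rfl fun τ _ => ?_
    by_cases h3 : Agree ρ σ <;> by_cases h4 : Agree ρ τ <;> simp [h3, h4]
  have hmain : (rk K : ℝ) * (∑ σ : K →+* ℂ, ∑ τ : K →+* ℂ,
      if Agree σ τ then (v σ * conj (v τ)).re else 0) =
      ∑ ρ : K →+* ℂ, ‖∑ σ : K →+* ℂ, if Agree ρ σ then v σ else 0‖ ^ 2 := by
    have e1 : ∀ σ τ : K →+* ℂ,
        (rk K : ℝ) * (if Agree σ τ then (v σ * conj (v τ)).re else 0) =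
        ∑ ρ : K →+* ℂ, (if Agree ρ σ ∧ Agree ρ τ then (1 : ℝ) else 0) *
          (v σ * conj (v τ)).re := by
      intro σ τ
      rw [← Finset.sum_mul, hcount σ τ]
      split_ifs <;> ring
    calc (rk K : ℝ) * (∑ σ : K →+* ℂ, ∑ τ : K →+* ℂ,
          if Agree σ τ then (v σ * conj (v τ)).re else 0)
        = ∑ σ : K →+* ℂ, ∑ τ : K →+* ℂ, ∑ ρ : K →+* ℂ,
          (if Agree ρ σ ∧ Agree ρ τ then (1 : ℝ) else 0) * (v σ * conj (v τ)).re := by
          rw [Finset.mul_sum]
          refine Finset.sum_congr rfl fun σ _ => ?_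
          rw [Finset.mul_sum]
          exact Finset.sum_congr rfl fun τ _ => e1 σ τ
      _ = ∑ σ : K →+* ℂ, ∑ ρ : K →+* ℂ, ∑ τ : K →+* ℂ,
          (if Agree ρ σ ∧ Agree ρ τ then (1 : ℝ) else 0) * (v σ * conj (v τ)).re :=
          Finset.sum_congr rfl fun σ _ => Finset.sum_comm
      _ = ∑ ρ : K →+* ℂ, ∑ σ : K →+* ℂ, ∑ τ : K →+* ℂ,
          (if Agree ρ σ ∧ Agree ρ τ then (1 : ℝ) else 0) * (v σ * conj (v τ)).re :=
          Finset.sum_comm
      _ = ∑ ρ : K →+* ℂ, ‖∑ σ : K →+* ℂ, if Agree ρ σ then v σ else 0‖ ^ 2 :=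
          Finset.sum_congr rfl fun ρ _ => hsq ρ
  have hr : (0 : ℝ) < rk K := by exact_mod_cast rk_pos
  have h0 : 0 ≤ (rk K : ℝ) * (∑ σ : K →+* ℂ, ∑ τ : K →+* ℂ,
      if Agree σ τ then (v σ * conj (v τ)).re else 0) := by
    rw [hmain]
    exact Finset.sum_nonneg fun ρ _ => by positivity
  exact nonneg_of_mul_nonneg_right h0 hr

/-- If `K` is generated by the roots of unity and a set `S`, two embeddings which agree on the roots
of unity and on `S` are equal. -/
theorem eq_of_agree {S : Set K}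
    (hg : IntermediateField.adjoin ℚ ({x : K | ∃ k : ℕ, 0 < k ∧ x ^ k = 1} ∪ S) = ⊤)
    {σ τ : K →+* ℂ} (h : Agree σ τ) (hS : ∀ x ∈ S, σ x = τ x) : σ = τ := by
  ext x
  refine Agr_adjoin (S := {x : K | ∃ k : ℕ, 0 < k ∧ x ^ k = 1} ∪ S) ?_ x ?_
  · rintro y (hy | hy)
    · exact h y hy
    · exact hS y hy
  · rw [hg]; trivial

end Pool.Agent.H74W
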