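import Pool.Agent.W_7742r_h74.Asy

/-! The asymptotics of the theta integral with the value of the constant. -/

set_option autoImplicit false

noncomputable section

namespace Pool.Agent.MaassRS74

open UpperHalfPlane ENNReal MeasureTheory CongruenceSubgroup Filter Topology Asymptotics
open scoped MatrixGroups

theorem uth_asymp_val {M : ℕ} [NeZero M] {w : ℍ → ℝ≥0∞} (hw : Measurable w)
    (hw1 : ∀ᵐ z : ℍ, ∑' γ : Gamma0 M, w ((γ : SL(2, ℤ)) • z) = 1) {C₀ : ℝ≥0∞} (hC₀ : C₀ ≠ ∞)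
    (hwC : ∀ H : ℍ → ℝ≥0∞, Measurable H → (∀ (g : SL(2, ℤ)) (z : ℍ), H (g • z) = H z) →
      ∫⁻ z, w z * H z ≤ C₀ * ∫⁻ z in ModularGroup.fd, H z) {G : ℍ → ℝ} (hG : Continuous G)
    (h0 : ∀ z, 0 ≤ G z)
    (hb : ∃ B : ℝ, ∀ z, G z ≤ B) (hinv : ∀ γ ∈ Gamma0 M, ∀ z : ℍ, G (γ • z) = G z) :
    ∃ V' : ℝ, ∀ A : ℝ, 1 / 2 < A → A < 1 →
      (fun t : ℝ => (uth M G t).toReal - (∑ d ∈ M.divisors, (ArithmeticFunction.moebius d : ℝ) *
        ((∫⁻ z, w z * ENNReal.ofReal (G z)).toReal / (M * d))) / t + V') =O[𝓝[>] 0]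
          fun t : ℝ => t ^ (A - 1) := by
  obtain ⟨B, hB⟩ := hb
  have hM : 0 < M := Nat.pos_of_ne_zero (NeZero.ne M)
  have hM' : (0 : ℝ) < M := by exact_mod_cast hM
  have hV := Asy_V_lt_top (w := w) hB hC₀ hwC
  obtain ⟨V, hVdef⟩ : ∃ V : ℝ≥0∞, V = ∫⁻ z, w z * ENNReal.ofReal (G z) := ⟨_, rfl⟩
  rw [← hVdef] at hV
  have hd : ∀ d ∈ M.divisors, 0 < d ∧ 0 < M / d := by
    intro d hd
    have h2 := Nat.dvd_of_mem_divisors hd
    exact ⟨Nat.pos_of_dvd_of_pos h2 hM, Nat.div_pos (Nat.le_of_dvd hM h2)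
      (Nat.pos_of_dvd_of_pos h2 hM)⟩
  refine ⟨(if M = 1 then 1 else 0) * V.toReal, fun A hA hA1 => ?_⟩
  rw [← hVdef]
  have hex : ∀ d : ℕ, ∃ C : ℝ, 0 < C ∧ (d ∈ M.divisors → ∀ u : ℝ, ((M / d : ℕ) : ℝ) ≤ u →
      V ≤ Jint w G (M / d) u ∧ Jint w G (M / d) u ≤ V + ENNReal.ofReal (C * u ^ (-A))) := by
    intro d
    by_cases hd' : d ∈ M.divisors
    · obtain ⟨C, hC, h⟩ := J_bound (M := M) hG h0 hB hw hC₀ hwC (hd d hd').2 hA hA1
      refine ⟨C, hC, fun _ u hu => ?_⟩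
      rw [hVdef]
      exact h u hu
    · exact ⟨1, one_pos, fun h => absurd h hd'⟩
  choose C hC hJ using hex
  refine IsBigO.of_bound (∑ d ∈ M.divisors, |(ArithmeticFunction.moebius d : ℝ)| *
    (C d * ((M : ℝ) * d) ^ (A - 1))) ?_
  have hev : ∀ᶠ t : ℝ in 𝓝[>] 0, 0 < t ∧ t < 1 / (M : ℝ) ^ 3 := by
    have h1 : Set.Ioo (0 : ℝ) (1 / (M : ℝ) ^ 3) ∈ 𝓝[>] (0 : ℝ) :=
      Ioo_mem_nhdsGT (by positivity)
    exact h1
  filter_upwards [hev] with t ht
  obtain ⟨ht0, ht1⟩ := ht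
  have hE := Asy_eq hG h0 hB hinv hw hw1 hC₀ hwC ht0
  rw [← hVdef] at hE
  have hterm : ∀ d ∈ M.divisors,
      |(Jint w G (M / d) (t * M * d)).toReal - V.toReal / (M * d) / t| ≤
        C d * ((M : ℝ) * d) ^ (A - 1) * t ^ (A - 1) := by
    intro d hd'
    obtain ⟨h2, h3⟩ := hd d hd'
    have h4 : (0 : ℝ) < d := by exact_mod_cast h2
    have hu0 : 0 < t * M * d := by positivity
    have hdM : (d : ℝ) ≤ M := by
      exact_mod_cast Nat.le_of_dvd hM (Nat.dvd_of_mem_divisors hd')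
    have hge : ((M / d : ℕ) : ℝ) ≤ (t * M * d)⁻¹ := by
      have h5 : ((M / d : ℕ) : ℝ) ≤ M := by exact_mod_cast Nat.div_le_self M d
      refine h5.trans ?_
      rw [le_inv_comm₀ hM' hu0]
      have h6 : t * (M : ℝ) ^ 3 < 1 := by
        rwa [lt_div_iff₀ (by positivity)] at ht1
      rw [inv_eq_one_div, le_div_iff₀ hM']
      nlinarith [mul_le_mul_of_nonneg_left hdM (by positivity : (0 : ℝ) ≤ t * M * M)]
    obtain ⟨h7, h8⟩ := hJ d hd' _ hge
    have hpw : ((t * M * d)⁻¹) ^ (-A) = (t * M * d) ^ A := by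
      rw [Real.inv_rpow hu0.le, Real.rpow_neg hu0.le, inv_inv]
    rw [hpw] at h8
    have hJf : Jint w G (M / d) (t * M * d)⁻¹ ≠ ∞ :=
      (h8.trans_lt (ENNReal.add_lt_top.2 ⟨hV, ENNReal.ofReal_lt_top⟩)).ne
    have h9 : V.toReal ≤ (Jint w G (M / d) (t * M * d)⁻¹).toReal :=
      ENNReal.toReal_mono hJf h7
    have hnn : 0 ≤ C d * (t * M * d) ^ A := by
      have := hC d
      positivity
    have h10 : (Jint w G (M / d) (t * M * d)⁻¹).toReal ≤ V.toReal + C d * (t * M * d) ^ A := by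
      have h11 := ENNReal.toReal_mono (ENNReal.add_lt_top.2 ⟨hV, ENNReal.ofReal_lt_top⟩).ne h8
      rwa [ENNReal.toReal_add hV.ne ENNReal.ofReal_ne_top, ENNReal.toReal_ofReal hnn] at h11
    rw [J_inv w G (M / d) hu0, ENNReal.toReal_mul, ENNReal.toReal_ofReal (by positivity)]
    have h12 : (t * M * d)⁻¹ * (Jint w G (M / d) (t * M * d)⁻¹).toReal - V.toReal / (M * d) / t =
        (t * M * d)⁻¹ * ((Jint w G (M / d) (t * M * d)⁻¹).toReal - V.toReal) := by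
      field_simp
    rw [h12, abs_of_nonneg (mul_nonneg (by positivity) (by linarith))]
    calc (t * M * d)⁻¹ * ((Jint w G (M / d) (t * M * d)⁻¹).toReal - V.toReal)
        ≤ (t * M * d)⁻¹ * (C d * (t * M * d) ^ A) := by
          gcongr
          linarith
      _ = C d * (t * M * d) ^ (A - 1) := by
          rw [Real.rpow_sub hu0, Real.rpow_one]
          field_simp
      _ = C d * ((M : ℝ) * d) ^ (A - 1) * t ^ (A - 1) := by
          rw [show t * M * d = (M * d) * t by ring, Real.mul_rpow (by positivity) ht0.le]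
          ring
  have hsum : (uth M G t).toReal - (∑ d ∈ M.divisors, (ArithmeticFunction.moebius d : ℝ) *
      (V.toReal / (M * d))) / t + (if M = 1 then 1 else 0) * V.toReal =
      ∑ d ∈ M.divisors, (ArithmeticFunction.moebius d : ℝ) *
        ((Jint w G (M / d) (t * M * d)).toReal - V.toReal / (M * d) / t) := by
    simp_rw [mul_sub, Finset.sum_sub_distrib]
    rw [← hE, Finset.sum_div]
    have h13 : ∀ d : ℕ, (ArithmeticFunction.moebius d : ℝ) * (V.toReal / (M * d)) / t =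
        (ArithmeticFunction.moebius d : ℝ) * (V.toReal / (M * d) / t) := fun d => by ring
    simp_rw [h13]
    ring
  rw [hsum, Real.norm_eq_abs, Real.norm_eq_abs, abs_of_nonneg (Real.rpow_nonneg ht0.le _),
    Finset.sum_mul]
  refine (Finset.abs_sum_le_sum_abs _ _).trans (Finset.sum_le_sum fun d hd' => ?_)
  rw [abs_mul, mul_assoc |(ArithmeticFunction.moebius d : ℝ)|]
  exact mul_le_mul_of_nonneg_left (hterm d hd') (abs_nonneg _)

end Pool.Agent.MaassRS74
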