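import Pool.Agent.W_7742r_h74.Eul

/-!
# Depleted eigenfunctions (definitions)

Project 7742w (MP_7742d9_nt, helper74): orthogonality of two Maass forms of eigenvalue `1 / 4` with
the same level `N`, the same character `χ` and the same parity `ε`, but different Hecke eigenvalues.
For each form `f` the depleted form `F = depl N (upf m f)` of level `N ^ 3` has Fourier expansion
`F = ∑_{(n, N) = 1} A(|n|) (ε if n < 0) √y K_0(2 π |n| y) e(n x)` with `A(p ^ j n) = lam_j A(n)`.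
-/

set_option autoImplicit false

noncomputable section

namespace Pool.Agent.H74W

open UpperHalfPlane CongruenceSubgroup ComplexConjugate Pool.Agent.Maass74 Pool.Agent.MaassRS74
open scoped MatrixGroups

/-- The character `χ` at level `N ^ 3`. -/
def lift {N : ℕ} (χ : DirichletCharacter ℂ N) : DirichletCharacter ℂ (N ^ 3) :=
  DirichletCharacter.changeLevel (dvd_pow_self N three_ne_zero) χ

/-- Continuous bounded eigenfunctions `F` of the Hecke operators of level `N ^ 3` whose Fourier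
coefficients at the `n` not prime to `N` vanish; `A` are the coefficients, `a` the eigenvalues. -/
structure IsDepl {N : ℕ} (χ : DirichletCharacter ℂ N) (ε : ℂ) (a : ℕ → ℂ) (F : ℍ → ℂ)
    (A : ℕ → ℂ) : Prop where
  continuous : Continuous F
  bdd : ∃ C : ℝ, ∀ z, ‖F z‖ ≤ C
  automorphic : ∀ γ ∈ Gamma0 (N ^ 3), ∀ z : ℍ,
    F (γ • z) = lift χ ((γ 1 1 : ℤ) : ZMod (N ^ 3)) * F z
  hecke : ∀ p : ℕ, p.Prime → ¬ p ∣ N → ∀ z, hecke (lift χ) p F z = a p * F z
  fc_zero : ∀ y : ℝ, 0 < y → fc (coord F) 0 y = 0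
  fc_pos : ∀ (n : ℕ) (y : ℝ), 0 < n → 0 < y →
    fc (coord F) n y = A n * ((Real.sqrt y * K0 (2 * Real.pi * n * y) : ℝ) : ℂ)
  fc_neg : ∀ (n : ℕ) (y : ℝ), 0 < n → 0 < y →
    fc (coord F) (-n) y = ε * A n * ((Real.sqrt y * K0 (2 * Real.pi * n * y) : ℝ) : ℂ)
  A_zero : A 0 = 0
  A_one : A 1 ≠ 0
  A_coprime : ∀ n : ℕ, ¬ n.Coprime N → A n = 0
  A_mul : ∀ p : ℕ, p.Prime → ¬ p ∣ N → ∀ j n : ℕ, ¬ p ∣ n →
    A (p ^ j * n) = lam (a p) (χ p) j * A n

end Pool.Agent.H74W
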