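import Pool.Agent.W_7742r_h74.Loc

/-!
# The local identity for two eigenvalues

As in `Pool/Agent/W_7742r_h74/Loc.lean`: `α₁, β₁` the roots for `a`, `α₂, β₂` those for `b`
(`LO_roots`), `|α_i| ^ 2 X < 1` (`LO_small`), so the four numbers
`γ = α₁ conj α₂, α₁ conj β₂, β₁ conj α₂, β₁ conj β₂` satisfy `|γ| X < 1`;
`psum_k(a) conj(psum_k(b)) = ∑ γ ^ k`, `(∑_j lam_j(a) conj(lam_j(b)) X ^ j) ∏ (1 - γ X) = 1 - X ^ 2`
because the product of all four `γ` is `(w conj w) ^ 2 = 1`: the sequence satisfies the linear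
recursion of order four (analogue of `LO_rec`, a `ring` identity).
-/

set_option autoImplicit false

noncomputable section

namespace Pool.Agent.H74W

open ComplexConjugate Pool.Agent.MaassRS74

/-- The recursion of order four. -/
theorem L2_rec (a b w : ℂ) (j : ℕ) : lam a w (j + 4) * conj (lam b w (j + 4)) =
    a * conj b * (lam a w (j + 3) * conj (lam b w (j + 3))) -
    (conj w * a ^ 2 + w * conj b ^ 2 - 2 * (w * conj w)) * (lam a w (j + 2) * conj (lam b w (j + 2))) +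
    w * conj w * (a * conj b) * (lam a w (j + 1) * conj (lam b w (j + 1))) -
    (w * conj w) ^ 2 * (lam a w j * conj (lam b w j)) := by
  have h2 : lam a w (j + 2) = a * lam a w (j + 1) - w * lam a w j := by rw [lam]
  have h3 : lam a w (j + 3) = a * lam a w (j + 2) - w * lam a w (j + 1) := by rw [lam]
  have h4 : lam a w (j + 4) = a * lam a w (j + 3) - w * lam a w (j + 2) := by rw [lam]
  have k2 : lam b w (j + 2) = b * lam b w (j + 1) - w * lam b w j := by rw [lam]
  have k3 : lam b w (j + 3) = b * lam b w (j + 2) - w * lam b w (j + 1) := by rw [lam]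
  have k4 : lam b w (j + 4) = b * lam b w (j + 3) - w * lam b w (j + 2) := by rw [lam]
  rw [h4, h3, h2, k4, k3, k2]
  simp only [map_sub, map_mul]
  ring

theorem L2_summable {a w : ℂ} {X X' : ℝ} (hX : 0 < X)
    (hXX : X < X') (hS : Summable fun j : ℕ => ‖lam a w j‖ ^ 2 * X' ^ j) :
    Summable fun j : ℕ => ‖lam a w j‖ ^ 2 * X ^ j := by
  refine Summable.of_nonneg_of_le (fun j => by positivity) (fun j => ?_) hS
  exact mul_le_mul_of_nonneg_left (pow_le_pow_left₀ hX.le hXX.le j) (by positivity)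

/-- The generating function. -/
theorem L2_gen {a b w : ℂ} (hw : ‖w‖ = 1) {X X' : ℝ} (hX : 0 < X)
    (hXX : X < X') (hSa : Summable fun j : ℕ => ‖lam a w j‖ ^ 2 * X' ^ j)
    (hSb : Summable fun j : ℕ => ‖lam b w j‖ ^ 2 * X' ^ j) :
    (∑' j : ℕ, lam a w j * conj (lam b w j) * (X : ℂ) ^ j) * (1 - a * conj b * X +
      (conj w * a ^ 2 + w * conj b ^ 2 - 2 * (w * conj w)) * X ^ 2 - w * conj w * (a * conj b) * X ^ 3 +
      (w * conj w) ^ 2 * X ^ 4) = 1 - (X : ℂ) ^ 2 := by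
  set u : ℕ → ℂ := fun j => lam a w j * conj (lam b w j) * (X : ℂ) ^ j with hu
  have hsu : Summable u := by
    refine Summable.of_norm_bounded (((L2_summable hX hXX hSa).add (L2_summable hX hXX hSb)).mul_left (1 / 2))
      fun j => ?_
    rw [hu]
    show ‖lam a w j * conj (lam b w j) * (X : ℂ) ^ j‖ ≤ _
    rw [norm_mul, norm_mul, norm_pow, Complex.norm_real, Real.norm_of_nonneg hX.le, RCLike.norm_conj]
    have h1 : 0 ≤ X ^ j := pow_nonneg hX.le j
    nlinarith [mul_nonneg h1 (sq_nonneg (‖lam a w j‖ - ‖lam b w j‖))]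
  set T := ∑' j, u j with hTdef
  have hs : ∀ k : ℕ, Summable fun j => u (j + k) := fun k => (summable_nat_add_iff k).2 hsu
  have t1 : ∑' j, u (j + 1) = T - u 0 := by
    have := hsu.sum_add_tsum_nat_add 1
    rw [Finset.sum_range_one] at this
    linear_combination this
  have t2 : ∑' j, u (j + 2) = T - u 0 - u 1 := by
    have := hsu.sum_add_tsum_nat_add 2
    rw [Finset.sum_range_succ, Finset.sum_range_one] at this
    linear_combination this
  have t3 : ∑' j, u (j + 3) = T - u 0 - u 1 - u 2 := by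
    have := hsu.sum_add_tsum_nat_add 3
    rw [Finset.sum_range_succ, Finset.sum_range_succ, Finset.sum_range_one] at this
    linear_combination this
  have t4 : ∑' j, u (j + 4) = T - u 0 - u 1 - u 2 - u 3 := by
    have := hsu.sum_add_tsum_nat_add 4
    rw [Finset.sum_range_succ, Finset.sum_range_succ, Finset.sum_range_succ, Finset.sum_range_one] at this
    linear_combination this
  have hrec : ∀ j, u (j + 4) = a * conj b * X * u (j + 3) -
      (conj w * a ^ 2 + w * conj b ^ 2 - 2 * (w * conj w)) * X ^ 2 * u (j + 2) +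
      w * conj w * (a * conj b) * X ^ 3 * u (j + 1) - (w * conj w) ^ 2 * X ^ 4 * u j := by
    intro j
    rw [hu]
    show lam a w (j + 4) * conj (lam b w (j + 4)) * (X : ℂ) ^ (j + 4) =
      a * conj b * X * (lam a w (j + 3) * conj (lam b w (j + 3)) * (X : ℂ) ^ (j + 3)) -
      (conj w * a ^ 2 + w * conj b ^ 2 - 2 * (w * conj w)) * X ^ 2 *
        (lam a w (j + 2) * conj (lam b w (j + 2)) * (X : ℂ) ^ (j + 2)) +
      w * conj w * (a * conj b) * X ^ 3 * (lam a w (j + 1) * conj (lam b w (j + 1)) * (X : ℂ) ^ (j + 1)) -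
      (w * conj w) ^ 2 * X ^ 4 * (lam a w j * conj (lam b w j) * (X : ℂ) ^ j)
    rw [L2_rec]
    ring
  have t4' : ∑' j, u (j + 4) = a * conj b * X * (∑' j, u (j + 3)) -
      (conj w * a ^ 2 + w * conj b ^ 2 - 2 * (w * conj w)) * X ^ 2 * (∑' j, u (j + 2)) +
      w * conj w * (a * conj b) * X ^ 3 * (∑' j, u (j + 1)) - (w * conj w) ^ 2 * X ^ 4 * T := by
    have k3 := (hs 3).mul_left (a * conj b * X)
    have k2 := (hs 2).mul_left ((conj w * a ^ 2 + w * conj b ^ 2 - 2 * (w * conj w)) * X ^ 2)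
    have k1 := (hs 1).mul_left (w * conj w * (a * conj b) * X ^ 3)
    have k0 := hsu.mul_left ((w * conj w) ^ 2 * X ^ 4)
    rw [tsum_congr hrec, Summable.tsum_sub ((k3.sub k2).add k1) k0, Summable.tsum_add (k3.sub k2) k1,
      Summable.tsum_sub k3 k2, tsum_mul_left, tsum_mul_left, tsum_mul_left, tsum_mul_left]
  rw [t4, t3, t2, t1] at t4'
  have hww : w * conj w = 1 := by
    rw [Complex.mul_conj', hw]
    norm_num
  have u0 : u 0 = 1 := by
    simp [hu, lam]
  have u1 : u 1 = a * conj b * X := by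
    simp [hu, lam]
  have u2 : u 2 = (a ^ 2 - w) * (conj b ^ 2 - conj w) * X ^ 2 := by
    simp only [hu, lam, map_sub, map_mul, map_one]
    ring
  have u3 : u 3 = a * (a ^ 2 - 2 * w) * (conj b * (conj b ^ 2 - 2 * conj w)) * X ^ 3 := by
    simp only [hu, lam, map_sub, map_mul, map_one]
    ring
  rw [u0, u1, u2, u3] at t4'
  linear_combination t4' - (X : ℂ) ^ 2 * hww

theorem local_identity2 {a b w : ℂ} (hw : ‖w‖ = 1) {X X' : ℝ} (hX : 0 < X) (hXX : X < X')
    (hX1 : X < 1) (hSa : Summable fun j : ℕ => ‖lam a w j‖ ^ 2 * X' ^ j)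
    (hSb : Summable fun j : ℕ => ‖lam b w j‖ ^ 2 * X' ^ j) :
    Summable (fun k : ℕ => psum a w (k + 1) * conj (psum b w (k + 1)) * (X : ℂ) ^ (k + 1) /
      ((k : ℂ) + 1)) ∧
    ∑' j : ℕ, lam a w j * conj (lam b w j) * (X : ℂ) ^ j =
      (1 - (X : ℂ) ^ 2) * Complex.exp (∑' k : ℕ,
        psum a w (k + 1) * conj (psum b w (k + 1)) * (X : ℂ) ^ (k + 1) / ((k : ℂ) + 1)) := by
  have hgen := L2_gen hw hX hXX hSa hSb
  obtain ⟨α, β, hab, habw, hle⟩ := LO_roots a w
  obtain ⟨γ, δ, hcd, hcdw, hle'⟩ := LO_roots b w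
  have hα : ‖α‖ ^ 2 * X < 1 := by
    refine LO_small hle (by rw [habw]; exact hw) hX hXX hX1 ?_
    rw [hab, habw]
    exact hSa
  have hγ : ‖γ‖ ^ 2 * X < 1 := by
    refine LO_small hle' (by rw [hcdw]; exact hw) hX hXX hX1 ?_
    rw [hcd, hcdw]
    exact hSb
  have hαγ : ‖α‖ * ‖γ‖ * X < 1 := by
    have h1 : (‖α‖ * ‖γ‖ * X) ^ 2 < 1 := by
      have e1 : (‖α‖ * ‖γ‖ * X) ^ 2 = (‖α‖ ^ 2 * X) * (‖γ‖ ^ 2 * X) := by ring
      rw [e1]
      have h2 : 0 ≤ ‖α‖ ^ 2 * X := by positivity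
      have h3 : 0 ≤ ‖γ‖ ^ 2 * X := by positivity
      nlinarith
    exact (sq_lt_one_iff₀ (by positivity)).1 h1
  have hXn : ‖(X : ℂ)‖ = X := by rw [Complex.norm_real, Real.norm_of_nonneg hX.le]
  have key : ∀ x y : ℂ, ‖x‖ ≤ ‖α‖ → ‖y‖ ≤ ‖γ‖ → ‖x * conj y * X‖ < 1 := by
    intro x y hx hy
    rw [norm_mul, norm_mul, RCLike.norm_conj, hXn]
    refine lt_of_le_of_lt ?_ hαγ
    exact mul_le_mul_of_nonneg_right (mul_le_mul hx hy (norm_nonneg _) (norm_nonneg _)) hX.le
  have n1 := key α γ le_rfl le_rfl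
  have n2 := key α δ le_rfl hle'
  have n3 := key β γ hle le_rfl
  have n4 := key β δ hle hle'
  have hH := (((LO_log n1).add (LO_log n2)).add (LO_log n3)).add (LO_log n4)
  have hpa : ∀ k : ℕ, psum a w k = α ^ k + β ^ k := fun k => by rw [← hab, ← habw]; exact LO_psum α β k
  have hpb : ∀ k : ℕ, psum b w k = γ ^ k + δ ^ k := fun k => by rw [← hcd, ← hcdw]; exact LO_psum γ δ k
  have hpt : ∀ k : ℕ, psum a w (k + 1) * conj (psum b w (k + 1)) * (X : ℂ) ^ (k + 1) / ((k : ℂ) + 1) =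
      (α * conj γ * X) ^ (k + 1) / ((k : ℂ) + 1) + (α * conj δ * X) ^ (k + 1) / ((k : ℂ) + 1) +
      (β * conj γ * X) ^ (k + 1) / ((k : ℂ) + 1) + (β * conj δ * X) ^ (k + 1) / ((k : ℂ) + 1) := by
    intro k
    rw [hpa, hpb, map_add, map_pow, map_pow]
    ring
  rw [← funext hpt] at hH
  refine ⟨hH.summable, ?_⟩
  rw [hH.tsum_eq]
  have ne : ∀ z : ℂ, ‖z‖ < 1 → 1 - z ≠ 0 := by
    intro z hz h0
    have : z = 1 := by linear_combination -h0
    rw [this, norm_one] at hz
    exact lt_irrefl _ hz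
  have m1 := ne _ n1
  have m2 := ne _ n2
  have m3 := ne _ n3
  have m4 := ne _ n4
  rw [Complex.exp_add, Complex.exp_add, Complex.exp_add, Complex.exp_neg, Complex.exp_neg, Complex.exp_neg,
    Complex.exp_neg, Complex.exp_log m1, Complex.exp_log m2, Complex.exp_log m3, Complex.exp_log m4]
  have hP : (1 - a * conj b * X +
      (conj w * a ^ 2 + w * conj b ^ 2 - 2 * (w * conj w)) * X ^ 2 - w * conj w * (a * conj b) * X ^ 3 +
      (w * conj w) ^ 2 * X ^ 4 : ℂ) = (1 - α * conj γ * X) * (1 - α * conj δ * X) * (1 - β * conj γ * X) *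
      (1 - β * conj δ * X) := by
    have e1 : conj w = conj γ * conj δ := by rw [← hcdw, map_mul]
    have e2 : conj b = conj γ + conj δ := by rw [← hcd, map_add]
    rw [e1, e2, ← hab, ← habw]
    ring
  rw [hP] at hgen
  have hPne : (1 - α * conj γ * X) * (1 - α * conj δ * X) * (1 - β * conj γ * X) * (1 - β * conj δ * X) ≠ (0 : ℂ) :=
    mul_ne_zero (mul_ne_zero (mul_ne_zero m1 m2) m3) m4
  rw [← mul_inv, ← mul_inv, ← mul_inv, ← div_eq_mul_inv, eq_div_iff hPne]
  exact hgen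

end Pool.Agent.H74W
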