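import Pool.Agent.W_7742w_h74.Agr
import Pool.Agent.W_7742w_h74.SieB

/-!
# The pointwise inequality

Let `D` be the number of embeddings, `r = rk K`, `t = a b`, so `σ t = |σ a| ^ 2`,
`S₁ = ∑ |σ a| ^ 2 = ∑ σ t`, `S₂` the double sum (`≥ 0` by `agree_nonneg`).

* `t = 1`: then `|σ a| = 1` for all `σ` and `a` is a root of unity
  (`NumberField.Embeddings.pow_eq_one_of_norm_eq_one`), so `τ a = σ a` if `τ` and `σ` agree, and
  `S₂ = r D` (`card_agree`), `S₁ = D`.
* `t ^ 2 - 3 t + 1 = 0`: let `g = t - 1`, so `g ^ 2 = t` and `g ^ 2 = g + 1`.  `ζ = a / g` is an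
  algebraic integer (`g` is a unit) with `|σ ζ| = 1` for all `σ`, hence a root of unity.  So
  `S₂ = ∑_{σ, τ agree} σ(g) τ(g)`.  With `v = 2 g - 1`, `v ^ 2 = 5`, `g = (1 + v) / 2`,
  `4 S₂ = r D + 2 r ∑_σ σ(v) + ∑_{σ, τ agree} σ(v) τ(v) ≥ r D + 2 r ∑_σ σ(v)` and `∑_σ σ(v) = 0` (the
  trace of `v` is rational and an integral multiple of `√5`).  `S₁ = ∑ σ t = ∑ (3 + σ v) / 2 = 3 D / 2`.
* otherwise `S₁ ≥ 5 D / 3` by `trace_bound`.
-/

set_option autoImplicit false

noncomputable section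

namespace Pool.Agent.H74W

open ComplexConjugate

/-- The sum of the conjugates is rational. -/
theorem sum_emb_rat {K : Type} [Field K] [NumberField K] (x : K) :
    ∃ q : ℚ, ∑ σ : K →+* ℂ, σ x = (q : ℂ) := by
  refine ⟨Algebra.trace ℚ K x, ?_⟩
  have h := trace_eq_sum_embeddings (K := ℚ) (L := K) ℂ (x := x)
  rw [eq_ratCast] at h
  rw [h]
  exact Fintype.sum_equiv (RingHom.equivRatAlgHom K ℂ) _ _ (fun σ => by
    simp [RingHom.equivRatAlgHom_apply])

/-- `∑ σ v = 0` if `v ^ 2 = 5`. -/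
theorem sum_emb_sqrt {K : Type} [Field K] [NumberField K] {v : K} (hv : v ^ 2 = 5) :
    ∑ σ : K →+* ℂ, σ v = 0 := by
  classical
  have h1 : ∀ σ : K →+* ℂ, σ v = (((if σ v = (Real.sqrt 5 : ℂ) then 1 else -1 : ℤ)) : ℂ) *
      (Real.sqrt 5 : ℂ) := by
    intro σ
    split_ifs with h
    · rw [h]; simp
    · have h2 : (σ v - (Real.sqrt 5 : ℂ)) * (σ v + (Real.sqrt 5 : ℂ)) = 0 := by
        have h3 : (σ v) ^ 2 = 5 := by rw [← map_pow, hv, map_ofNat]
        have h4 : ((Real.sqrt 5 : ℝ) : ℂ) ^ 2 = 5 := by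
          rw [← Complex.ofReal_pow, Real.sq_sqrt (by norm_num)]
          norm_num
        linear_combination h3 - h4
      rcases mul_eq_zero.1 h2 with h3 | h3
      · exact absurd (sub_eq_zero.1 h3) h
      · rw [eq_neg_of_add_eq_zero_left h3]
        simp
  obtain ⟨q, hq⟩ := sum_emb_rat v
  have h2 : ∑ σ : K →+* ℂ, σ v =
      ((∑ σ : K →+* ℂ, (if σ v = (Real.sqrt 5 : ℂ) then 1 else -1 : ℤ) : ℤ) : ℂ) *
        (Real.sqrt 5 : ℂ) := by
    rw [Int.cast_sum, Finset.sum_mul]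
    exact Finset.sum_congr rfl fun σ _ => h1 σ
  set m : ℤ := ∑ σ : K →+* ℂ, (if σ v = (Real.sqrt 5 : ℂ) then 1 else -1 : ℤ) with hm
  rw [h2]
  by_cases hm0 : m = 0
  · rw [hm0]; simp
  exfalso
  have h3 : (m : ℝ) * Real.sqrt 5 = (q : ℝ) := by
    have h4 := h2.symm.trans hq
    exact_mod_cast h4
  have h5 : Irrational (Real.sqrt 5) := by
    have := Nat.Prime.irrational_sqrt (p := 5) (by norm_num)
    exact_mod_cast this
  apply h5
  refine ⟨q / m, ?_⟩
  have hm1 : (m : ℝ) ≠ 0 := by exact_mod_cast hm0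
  push_cast
  rw [← h3]
  field_simp

open Classical in
theorem pointwise {K : Type} [Field K] [NumberField K] {a b : K} (ha : IsIntegral ℤ a)
    (hb : IsIntegral ℤ b) (hab : ∀ σ : K →+* ℂ, conj (σ a) = σ b) (h0 : a ≠ 0) :
    5 * (Fintype.card (K →+* ℂ) : ℝ) ≤ 3 * ∑ σ : K →+* ℂ, ‖σ a‖ ^ 2 + 2 / (rk K : ℝ) *
      ∑ σ : K →+* ℂ, ∑ τ : K →+* ℂ, if Agree σ τ then (σ a * conj (τ a)).re else 0 := by
  have hr : (0 : ℝ) < rk K := by exact_mod_cast rk_pos (K := K)
  have hS2 := agree_nonneg (K := K) (fun σ => σ a)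
  have hst : ∀ σ : K →+* ℂ, σ (a * b) = ((‖σ a‖ ^ 2 : ℝ) : ℂ) := by
    intro σ
    rw [map_mul, ← hab, Complex.mul_conj']
    push_cast
    rfl
  have hre : ∀ σ : K →+* ℂ, (σ (a * b)).re = ‖σ a‖ ^ 2 := fun σ => by
    rw [hst σ, Complex.ofReal_re]
  have hne : Nonempty (K →+* ℂ) := inferInstance
  obtain ⟨σ₀⟩ := hne
  have hb0 : b ≠ 0 := by
    rintro rfl
    have h1 := hab σ₀
    rw [map_zero, map_eq_zero] at h1
    exact h0 ((map_eq_zero σ₀).1 h1)
  have ht0 : a * b ≠ 0 := mul_ne_zero h0 hb0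
  by_cases h1 : a * b = 1
  · -- roots of unity
    have hn : ∀ σ : K →+* ℂ, ‖σ a‖ = 1 := by
      intro σ
      have h2 := hre σ
      rw [h1, map_one, Complex.one_re] at h2
      exact (pow_eq_one_iff_of_nonneg (norm_nonneg _) two_ne_zero).1 h2.symm
    obtain ⟨n, hn0, hn1⟩ := NumberField.Embeddings.pow_eq_one_of_norm_eq_one K ℂ ha hn
    have h3 : ∀ σ τ : K →+* ℂ, (if Agree σ τ then (σ a * conj (τ a)).re else 0) =
        if Agree σ τ then (1 : ℝ) else 0 := by
      intro σ τ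
      split_ifs with h
      · rw [← h a ⟨n, hn0, hn1⟩, Complex.mul_conj', hn σ]
        norm_num
      · rfl
    have h4 : ∑ σ : K →+* ℂ, ∑ τ : K →+* ℂ, (if Agree σ τ then (σ a * conj (τ a)).re else 0) =
        (Fintype.card (K →+* ℂ) : ℝ) * rk K := by
      have h5 : ∀ σ : K →+* ℂ, ∑ τ : K →+* ℂ, (if Agree σ τ then (σ a * conj (τ a)).re else 0) =
          (rk K : ℝ) := by
        intro σ
        rw [Finset.sum_congr rfl fun τ _ => h3 σ τ, ← Finset.sum_filter, Finset.sum_const,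
          card_agree, nsmul_eq_mul, mul_one]
      rw [Finset.sum_congr rfl fun σ _ => h5 σ, Finset.sum_const, Finset.card_univ, nsmul_eq_mul]
    have h6 : ∑ σ : K →+* ℂ, ‖σ a‖ ^ 2 = (Fintype.card (K →+* ℂ) : ℝ) := by
      simp only [hn, one_pow, Finset.sum_const, Finset.card_univ, nsmul_eq_mul, mul_one]
    rw [h4, h6]
    have h7 : 2 / (rk K : ℝ) * ((Fintype.card (K →+* ℂ) : ℝ) * rk K) =
        2 * (Fintype.card (K →+* ℂ) : ℝ) := by
      field_simp
    rw [h7]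
    linarith
  by_cases h5 : (a * b) ^ 2 - 3 * (a * b) + 1 = 0
  · -- the golden ratio
    set t := a * b with ht
    set g := t - 1 with hg
    have hgt : g ^ 2 = t := by rw [hg]; linear_combination h5
    have hg1 : g * (g - 1) = 1 := by
      have : g ^ 2 = g + 1 := by rw [hgt, hg]; ring
      linear_combination this
    have hg0 : g ≠ 0 := by
      rintro h
      rw [h, zero_mul] at hg1
      exact zero_ne_one hg1
    have htint : IsIntegral ℤ t := ha.mul hb
    have hgint : IsIntegral ℤ g := htint.sub isIntegral_one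
    set ζ := a * (g - 1) with hζ
    have hζint : IsIntegral ℤ ζ := ha.mul (hgint.sub isIntegral_one)
    have haζ : a = g * ζ := by rw [hζ]; linear_combination (-a) * hg1
    -- `σ g` is real
    have hgr : ∀ σ : K →+* ℂ, σ g = ((‖σ a‖ ^ 2 - 1 : ℝ) : ℂ) := by
      intro σ
      rw [hg, map_sub, map_one, hst σ]
      push_cast
      rfl
    have hζn : ∀ σ : K →+* ℂ, ‖σ ζ‖ = 1 := by
      intro σ
      have h6 : ‖σ a‖ = ‖σ g‖ * ‖σ ζ‖ := by
        rw [← norm_mul, ← map_mul, ← haζ]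
      have h7 : ‖σ g‖ ^ 2 = ‖σ a‖ ^ 2 := by
        rw [← norm_pow, ← map_pow, hgt, hst σ, Complex.norm_real, Real.norm_of_nonneg (sq_nonneg _)]
      have h8 : ‖σ g‖ = ‖σ a‖ := by
        rw [← abs_of_nonneg (norm_nonneg (σ g)), ← abs_of_nonneg (norm_nonneg (σ a))]
        exact sq_eq_sq_iff_abs_eq_abs _ _ |>.1 h7
      have h9 : ‖σ a‖ ≠ 0 := by
        rw [norm_ne_zero_iff]
        exact (map_ne_zero σ).2 h0
      rw [h8] at h6
      have h10 : ‖σ a‖ * 1 = ‖σ a‖ * ‖σ ζ‖ := by rw [mul_one]; exact h6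
      exact (mul_left_cancel₀ h9 h10).symm
    obtain ⟨n, hn0, hn1⟩ := NumberField.Embeddings.pow_eq_one_of_norm_eq_one K ℂ hζint hζn
    set v := 2 * g - 1 with hv
    have hv2 : v ^ 2 = 5 := by
      rw [hv]
      linear_combination 4 * hg1
    have hvr : ∀ σ : K →+* ℂ, ∃ y : ℝ, σ v = y ∧ 2 * (‖σ a‖ ^ 2 - 1) = 1 + y ∧
        2 * ‖σ a‖ ^ 2 = 3 + y := by
      intro σ
      refine ⟨2 * (‖σ a‖ ^ 2 - 1) - 1, ?_, by ring, by ring⟩
      rw [hv, map_sub, map_mul, map_one, map_ofNat, hgr σ]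
      push_cast
      ring
    choose y hy1 hy2 hy3 using hvr
    have hsumy : ∑ σ, y σ = 0 := by
      have h6 := sum_emb_sqrt hv2
      rw [Finset.sum_congr rfl fun σ _ => hy1 σ] at h6
      exact_mod_cast h6
    have hvS := agree_nonneg (K := K) (fun σ => σ v)
    have h6 : ∀ σ τ : K →+* ℂ, 4 * (if Agree σ τ then (σ a * conj (τ a)).re else 0) =
        (if Agree σ τ then (1 : ℝ) else 0) + (if Agree σ τ then y σ else 0) +
          (if Agree σ τ then y τ else 0) +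
          (if Agree σ τ then (σ v * conj (τ v)).re else 0) := by
      intro σ τ
      split_ifs with h
      · have h7 : σ a * conj (τ a) = (((‖σ a‖ ^ 2 - 1) * (‖τ a‖ ^ 2 - 1) : ℝ) : ℂ) := by
          have e1 : σ a = σ g * σ ζ := by rw [← map_mul, ← haζ]
          have e2 : τ a = τ g * σ ζ := by rw [h ζ ⟨n, hn0, hn1⟩, ← map_mul, ← haζ]
          have e3 : σ a * conj (τ a) = (σ g * conj (τ g)) * (σ ζ * conj (σ ζ)) := by
            rw [e1, e2, map_mul (starRingEnd ℂ)]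
            ring
          rw [e3, Complex.mul_conj', hζn σ, hgr σ, hgr τ, Complex.conj_ofReal]
          push_cast
          ring
        rw [h7, Complex.ofReal_re, hy1 σ, hy1 τ, Complex.conj_ofReal, ← Complex.ofReal_mul,
          Complex.ofReal_re]
        have e4 := hy2 σ
        have e5 := hy2 τ
        have e6 : 4 * ((‖σ a‖ ^ 2 - 1) * (‖τ a‖ ^ 2 - 1)) = (1 + y σ) * (1 + y τ) := by
          rw [← e4, ← e5]; ring
        rw [e6]; ring
      · ring
    have hcount : ∀ σ : K →+* ℂ, ∑ τ : K →+* ℂ, (if Agree σ τ then (1 : ℝ) else 0) = rk K := by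
      intro σ
      rw [← Finset.sum_filter, Finset.sum_const, card_agree, nsmul_eq_mul, mul_one]
    have hcount' : ∀ σ : K →+* ℂ, ∀ c : ℝ, ∑ τ : K →+* ℂ, (if Agree σ τ then c else 0) =
        rk K * c := by
      intro σ c
      rw [← Finset.sum_filter, Finset.sum_const, card_agree, nsmul_eq_mul]
    have hsymm : ∀ σ τ : K →+* ℂ, Agree σ τ ↔ Agree τ σ := fun σ τ => ⟨Agree.symm, Agree.symm⟩
    have h7 : 4 * ∑ σ : K →+* ℂ, ∑ τ : K →+* ℂ, (if Agree σ τ then (σ a * conj (τ a)).re else 0) =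
        (rk K : ℝ) * Fintype.card (K →+* ℂ) +
          ∑ σ : K →+* ℂ, ∑ τ : K →+* ℂ, (if Agree σ τ then (σ v * conj (τ v)).re else 0) := by
      rw [Finset.mul_sum]
      simp only [Finset.mul_sum]
      rw [Finset.sum_congr rfl fun σ _ => Finset.sum_congr rfl fun τ _ => h6 σ τ]
      simp only [Finset.sum_add_distrib]
      have e1 : ∑ σ : K →+* ℂ, ∑ τ : K →+* ℂ, (if Agree σ τ then (1 : ℝ) else 0) =
          (rk K : ℝ) * Fintype.card (K →+* ℂ) := by
        rw [Finset.sum_congr rfl fun σ _ => hcount σ, Finset.sum_const, Finset.card_univ,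
          nsmul_eq_mul, mul_comm]
      have e2 : ∑ σ : K →+* ℂ, ∑ τ : K →+* ℂ, (if Agree σ τ then y σ else 0) = 0 := by
        rw [Finset.sum_congr rfl fun σ _ => hcount' σ (y σ), ← Finset.mul_sum, hsumy, mul_zero]
      have e3 : ∑ σ : K →+* ℂ, ∑ τ : K →+* ℂ, (if Agree σ τ then y τ else 0) = 0 := by
        rw [Finset.sum_comm]
        refine Eq.trans ?_ e2
        apply Finset.sum_congr rfl
        intro σ _
        apply Finset.sum_congr rfl
        intro τ _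
        simp only [hsymm τ σ]
      rw [e1, e2, e3]
      ring
    have h8 : ∑ σ : K →+* ℂ, ‖σ a‖ ^ 2 = 3 / 2 * Fintype.card (K →+* ℂ) := by
      have e1 : 2 * ∑ σ : K →+* ℂ, ‖σ a‖ ^ 2 = 3 * Fintype.card (K →+* ℂ) := by
        rw [Finset.mul_sum, Finset.sum_congr rfl fun σ _ => hy3 σ, Finset.sum_add_distrib, hsumy,
          Finset.sum_const, Finset.card_univ, nsmul_eq_mul]
        ring
      linarith
    rw [h8]
    set S := ∑ σ : K →+* ℂ, ∑ τ : K →+* ℂ, (if Agree σ τ then (σ a * conj (τ a)).re else 0) with hS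
    set D : ℝ := (Fintype.card (K →+* ℂ) : ℝ) with hD
    have h9 : (rk K : ℝ) * D ≤ 4 * S := by linarith
    have h10 : D / 2 ≤ 2 / (rk K : ℝ) * S := by
      rw [div_mul_eq_mul_div, le_div_iff₀ hr]
      linarith
    linarith
  · have h6 := trace_bound (K := K) (t := a * b) (ha.mul hb)
      (fun σ => ⟨‖σ a‖ ^ 2, sq_nonneg _, hst σ⟩) ht0 h1 h5
    rw [Finset.sum_congr rfl fun σ _ => hre σ] at h6
    have h7 : 0 ≤ 2 / (rk K : ℝ) *
        ∑ σ : K →+* ℂ, ∑ τ : K →+* ℂ, (if Agree σ τ then (σ a * conj (τ a)).re else 0) :=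
      mul_nonneg (by positivity) hS2
    linarith

end Pool.Agent.H74W
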