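import Pool.Agent.W_7742w_h74.AsyV
import Pool.Agent.W_7742r_h74.RSmain

/-! The Rankin-Selberg method with the value of the residue. -/

set_option autoImplicit false

noncomputable section

namespace Pool.Agent.MaassRS74

open UpperHalfPlane ENNReal MeasureTheory CongruenceSubgroup
open scoped MatrixGroups

/-- The Rankin-Selberg method with the value at `1`. -/
theorem rs_main_val (M : ℕ) [NeZero M] : ∃ (w : ℍ → ℝ≥0∞) (κ : ℝ), Measurable w ∧
    (∀ᵐ z : ℍ, ∑' γ : Gamma0 M, w ((γ : SL(2, ℤ)) • z) = 1) ∧ ∫⁻ z, w z < ∞ ∧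
    ∀ (G : ℍ → ℝ) (r : ℕ → ℝ), IsRS M G r →
    ∃ g : ℂ → ℂ, (∀ s : ℂ, 0 < s.re → AnalyticAt ℂ g s) ∧ (∀ x : ℝ, 1 < x →
      g x = (((x - 1) * (zetaM M x * ∑' n : ℕ, r n * (n : ℝ) ^ (-x)) : ℝ) : ℂ)) ∧
      g 1 = ((κ * (∫⁻ z, w z * ENNReal.ofReal (G z)).toReal : ℝ) : ℂ) := by
  obtain ⟨w, hw, hw1, C₀, hC₀, hwC⟩ := exists_weightB M
  have hwi : ∫⁻ z, w z < ∞ := by
    have := Asy_V_lt_top (G := fun _ => 1) (B := 1) (fun _ => le_rfl) hC₀ hwC
    simpa using this
  refine ⟨w, 8 * Real.pi ^ 2 * (Real.Gamma (1 / 2) ^ 4)⁻¹ *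
    ∑ d ∈ M.divisors, (ArithmeticFunction.moebius d : ℝ) * (1 / (M * d)), hw, hw1, hwi,
    fun G r h => ?_⟩
  have h0 := h.nonneg
  obtain ⟨V', hcV⟩ := uth_asymp_val hw hw1 hC₀ hwC h.continuous h0 h.bdd h.inv
  obtain ⟨c, hc⟩ : ∃ c : ℝ, c = ∑ d ∈ M.divisors, (ArithmeticFunction.moebius d : ℝ) *
    ((∫⁻ z, w z * ENNReal.ofReal (G z)).toReal / (M * d)) := ⟨_, rfl⟩
  rw [← hc] at hcV
  have hanti : Antitone (uth M G) := fun s t hst => uth_antitone h0 hst
  have hfin : ∀ t : ℝ, 0 < t → uth M G t < ⊤ := fun t ht =>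
    uth_lt_top h.continuous h0 h.bdd h.inv ht
  obtain ⟨m, hm, hmu⟩ := RSm_mellin (fun t => (uth M G t).toReal)
    (fun s hs t ht hst => ENNReal.toReal_mono (hfin s hs).ne (hanti hst)) c V' hcV
    (fun B hB => uth_bigO h hB)
  refine ⟨fun s => 8 * (Real.pi : ℂ) ^ (2 * s) * ((Complex.Gamma (s / 2)) ^ 4)⁻¹ *
    ((s - 1) * m s + c - V' * (s - 1) * (1 / s)), fun s hs => ?_, fun x hx => ?_, ?_⟩
  · have hopen : IsOpen {s : ℂ | 0 < s.re} := isOpen_lt continuous_const Complex.continuous_re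
    refine DifferentiableOn.analyticAt (s := {s : ℂ | 0 < s.re}) (fun w hw => ?_) (hopen.mem_nhds hs)
    have hw' : 0 < w.re := hw
    have hw2 : 0 < (w / 2).re := by
      rw [Complex.div_ofNat_re]
      exact div_pos hw' two_pos
    have hw0 : w ≠ 0 := by
      rintro rfl
      simp at hw'
    have hπ : (Real.pi : ℂ) ≠ 0 := by exact_mod_cast Real.pi_ne_zero
    have d1 : DifferentiableAt ℂ (fun s : ℂ => (Real.pi : ℂ) ^ (2 * s)) w :=
      (differentiableAt_id.const_mul 2).const_cpow (Or.inl hπ)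
    have d2 : DifferentiableAt ℂ (fun s : ℂ => Complex.Gamma (s / 2)) w := by
      have : DifferentiableAt ℂ Complex.Gamma (w / 2) := by
        refine Complex.differentiableAt_Gamma _ fun n hn => ?_
        rw [hn] at hw2
        have : (-(n : ℂ)).re = -(n : ℝ) := by simp
        rw [this] at hw2
        have : (0 : ℝ) ≤ n := Nat.cast_nonneg n
        linarith
      exact this.comp w (differentiableAt_id.div_const 2)
    have d3 : Complex.Gamma (w / 2) ^ 4 ≠ 0 := pow_ne_zero _ (Complex.Gamma_ne_zero_of_re_pos hw2)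
    have d4 : DifferentiableAt ℂ (fun s : ℂ => ((Complex.Gamma (s / 2)) ^ 4)⁻¹) w :=
      (d2.pow 4).inv d3
    have d5 : DifferentiableAt ℂ (fun s : ℂ => (s - 1) * m s + c - V' * (s - 1) * (1 / s)) w := by
      have e1 : DifferentiableAt ℂ (fun s : ℂ => s - 1) w := differentiableAt_id.sub_const 1
      have e2 : DifferentiableAt ℂ (fun s : ℂ => 1 / s) w := by
        simp only [one_div]
        exact differentiableAt_inv hw0
      exact ((e1.mul (hm w hw')).add_const _).sub ((e1.const_mul _).mul e2)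
    exact (((d1.const_mul 8).mul d4).mul d5).differentiableWithinAt
  · have hx1 : 1 < ((x : ℝ) : ℂ).re := by simpa using hx
    have hx0 : (0 : ℝ) < x := by linarith
    have hzM : 0 ≤ zetaM M x := by
      unfold zetaM
      exact tsum_nonneg fun k => by
        split_ifs
        · exact Real.rpow_nonneg (Nat.cast_nonneg k) _
        · exact le_rfl
    have hD : 0 ≤ ∑' n : ℕ, r n * (n : ℝ) ^ (-x) :=
      tsum_nonneg fun n => mul_nonneg (h.r_nonneg n) (Real.rpow_nonneg (Nat.cast_nonneg n) _)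
    have hΓ : 0 < Real.Gamma (x / 2) := Real.Gamma_pos_of_pos (by linarith)
    have hpi := Real.pi_pos
    have hK : 0 ≤ Real.pi ^ (-(2 * x)) / 8 * Real.Gamma (x / 2) ^ 4 * zetaM M x *
        ∑' n : ℕ, r n * (n : ℝ) ^ (-x) := by positivity
    have hmel := RSm_real (uth M G) hanti.measurable hfin x _ hK (uth_mellin h hx)
    have h3 := hmu x hx1
    rw [hmel] at h3
    have hx1' : ((x : ℂ) - 1) ≠ 0 := by
      have : (x - 1 : ℝ) ≠ 0 := by linarith
      exact_mod_cast this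
    have h4 : ((x : ℂ) - 1) * m x + c - V' * ((x : ℂ) - 1) * (1 / x) =
        ((x : ℂ) - 1) * ((Real.pi ^ (-(2 * x)) / 8 * Real.Gamma (x / 2) ^ 4 * zetaM M x *
        ∑' n : ℕ, r n * (n : ℝ) ^ (-x) : ℝ) : ℂ) := by
      rw [h3]
      field_simp
    simp only []
    rw [h4]
    have hg : Complex.Gamma ((x : ℂ) / 2) = ((Real.Gamma (x / 2) : ℝ) : ℂ) := by
      rw [← Complex.Gamma_ofReal]
      push_cast
      rfl
    have hpow : (Real.pi : ℂ) ^ (2 * (x : ℂ)) = ((Real.pi ^ (2 * x) : ℝ) : ℂ) := by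
      rw [Complex.ofReal_cpow hpi.le]
      push_cast
      rfl
    rw [hg, hpow]
    have h5 : (8 : ℝ) * Real.pi ^ (2 * x) * (Real.Gamma (x / 2) ^ 4)⁻¹ *
        ((x - 1) * (Real.pi ^ (-(2 * x)) / 8 * Real.Gamma (x / 2) ^ 4 * zetaM M x *
        ∑' n : ℕ, r n * (n : ℝ) ^ (-x))) =
        (x - 1) * (zetaM M x * ∑' n : ℕ, r n * (n : ℝ) ^ (-x)) := by
      rw [Real.rpow_neg hpi.le]
      have : Real.pi ^ (2 * x) ≠ 0 := (Real.rpow_pos_of_pos hpi _).ne'
      field_simp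
    rw [← h5]
    push_cast
    ring
  · simp only [sub_self, zero_mul, mul_zero, zero_add, sub_zero]
    have hg : Complex.Gamma (1 / 2) = ((Real.Gamma (1 / 2) : ℝ) : ℂ) := by
      rw [← Complex.Gamma_ofReal]
      push_cast
      rfl
    rw [hg, hc]
    have h1 : ∑ d ∈ M.divisors, (ArithmeticFunction.moebius d : ℝ) *
        ((∫⁻ z, w z * ENNReal.ofReal (G z)).toReal / (M * d)) =
        (∑ d ∈ M.divisors, (ArithmeticFunction.moebius d : ℝ) * (1 / (M * d))) *
          (∫⁻ z, w z * ENNReal.ofReal (G z)).toReal := by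
      rw [Finset.sum_mul]
      refine Finset.sum_congr rfl fun d _ => ?_
      ring
    rw [h1]
    have h2 : (Real.pi : ℂ) ^ (2 * (1 : ℂ)) = (Real.pi : ℂ) ^ 2 := by
      rw [mul_one]
      exact_mod_cast Complex.cpow_natCast (Real.pi : ℂ) 2
    rw [h2]
    push_cast
    ring

end Pool.Agent.MaassRS74
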