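import Mathlib

/-!
# The auxiliary function of Siegel and Smyth

`f x = x - a log x - b log |x - 1| - c log |x ^ 2 - 3 x + 1| - d log |x ^ 3 - 5 x ^ 2 + 6 x - 1|
- e log |x - 2|`.  For `a = 0.655, b = 0.695, c = 0.23, d = 0.084, e = 0.081` the minimum over `x > 0` is
`1.7128`; for the simpler `a = b = 2 / 3, c = 1 / 4, d = e = 1 / 12` it is `1.699 > 5 / 3`; you may
choose the coefficients.  The roots are `0`, `0.19806`, `0.38197`, `1`, `1.55496`, `2`, `2.61803`, `3.24698`;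
between two neighbouring roots `f` is convex with minima (first choice of coefficients)
`1.7142` at `0.1439`, `1.7130` at `0.2562`, `1.7135` at `0.5481`, `1.8801` at `1.4570`, `1.7136` at
`1.8087`, `1.7247` at `2.1887`, `1.7976` at `3.0248`, `1.7128` at `3.7156`.

Possible proof: write each logarithm as a sum of `log |x - ρ|` over the real roots `ρ` (for the cubic
get the roots from the intermediate value theorem, with rational enclosures), and on each of the eight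
intervals use `log |x - ρ| ≤ |x - ρ| / q - 1 + log q` (`Real.log_le_sub_one_of_pos`) with rational
`q = q_ρ` close to `|x₀ - ρ|`, `x₀` the minimum above; this bounds `f x` from below by a linear
function of `x` with slope almost `0`.  Upper bounds `log q ≤ u` follow from `q ≤ (1 + u / n) ^ n ≤ exp u`.
-/

set_option autoImplicit false

noncomputable section

namespace Pool.Agent.H74W

/-- Enclosures of the roots. -/
def Enc (p1 p2 r1 r2 r3 : ℝ) : Prop :=
  3819 / 10000 < p1 ∧ p1 < 382 / 1000 ∧ 2618 / 1000 < p2 ∧ p2 < 26181 / 10000 ∧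
  198 / 1000 < r1 ∧ r1 < 1981 / 10000 ∧ 15549 / 10000 < r2 ∧ r2 < 1555 / 1000 ∧
  32469 / 10000 < r3 ∧ r3 < 3247 / 1000

/-- The inequality with all logarithms split. -/
def Goal (p1 p2 r1 r2 r3 x : ℝ) : Prop :=
  5 / 3 ≤ x - 2 / 3 * Real.log x - 2 / 3 * Real.log |x - 1| -
    1 / 4 * (Real.log |x - p1| + Real.log |x - p2|) -
    1 / 12 * (Real.log |x - r1| + Real.log |x - r2| + Real.log |x - r3|) -
    1 / 12 * Real.log |x - 2|

theorem SieA_log_pos (Q : ℝ) (m : ℕ) (hQ : 0 < Q) (h : Q ^ 4 ≤ (2.7182818283 : ℝ) ^ m) :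
    Real.log Q ≤ m / 4 := by
  have h1 : Q ^ 4 ≤ Real.exp 1 ^ m :=
    h.trans (pow_le_pow_left₀ (by norm_num) Real.exp_one_gt_d9.le m)
  have h2 := Real.log_le_log (pow_pos hQ 4) h1
  rw [Real.log_pow, Real.log_pow, Real.log_exp] at h2
  push_cast at h2
  linarith

theorem SieA_log_neg (Q : ℝ) (m : ℕ) (hQ : 0 < Q) (h : Q ^ 4 * (2.7182818286 : ℝ) ^ m ≤ 1) :
    Real.log Q ≤ -(m / 4) := by
  have h0 : Q ^ 4 * Real.exp 1 ^ m ≤ 1 := by
    refine le_trans ?_ h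
    exact mul_le_mul_of_nonneg_left
      (pow_le_pow_left₀ (Real.exp_pos 1).le Real.exp_one_lt_d9.le m) (pow_pos hQ 4).le
  have hp : 0 < Q ^ 4 * Real.exp 1 ^ m := mul_pos (pow_pos hQ 4) (pow_pos (Real.exp_pos 1) m)
  have h2 := Real.log_le_log hp h0
  rw [Real.log_one, Real.log_mul (pow_pos hQ 4).ne' (pow_pos (Real.exp_pos 1) m).ne',
    Real.log_pow, Real.log_pow, Real.log_exp] at h2
  push_cast at h2
  linarith

theorem SieA_tan {y q : ℝ} (hy : 0 < y) (hq : 0 < q) : Real.log y ≤ y / q - 1 + Real.log q := by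
  have h := Real.log_le_sub_one_of_pos (div_pos hy hq)
  rw [Real.log_div hy.ne' hq.ne'] at h
  linarith

theorem SieA_comb {y0 y1 y2 y3 y4 y5 y6 y7 q0 q1 q2 q3 q4 q5 q6 q7 L : ℝ}
    (hy0 : 0 < y0) (hy1 : 0 < y1) (hy2 : 0 < y2) (hy3 : 0 < y3) (hy4 : 0 < y4) (hy5 : 0 < y5)
    (hy6 : 0 < y6) (hy7 : 0 < y7) (hq0 : 0 < q0) (hq1 : 0 < q1) (hq2 : 0 < q2) (hq3 : 0 < q3)
    (hq4 : 0 < q4) (hq5 : 0 < q5) (hq6 : 0 < q6) (hq7 : 0 < q7)
    (hL : Real.log (q0 ^ 8 * q1 ^ 8 * q2 ^ 3 * q3 ^ 3 * q4 * q5 * q6 * q7) ≤ L) :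
    8 * Real.log y0 + 8 * Real.log y1 + 3 * Real.log y2 + 3 * Real.log y3 + Real.log y4 +
      Real.log y5 + Real.log y6 + Real.log y7 ≤
    8 * (y0 / q0 - 1) + 8 * (y1 / q1 - 1) + 3 * (y2 / q2 - 1) + 3 * (y3 / q3 - 1) +
      (y4 / q4 - 1) + (y5 / q5 - 1) + (y6 / q6 - 1) + (y7 / q7 - 1) + L := by
  rw [Real.log_mul (by positivity) hq7.ne', Real.log_mul (by positivity) hq6.ne',
    Real.log_mul (by positivity) hq5.ne', Real.log_mul (by positivity) hq4.ne',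
    Real.log_mul (by positivity) (by positivity), Real.log_mul (by positivity) (by positivity),
    Real.log_mul (by positivity) (by positivity), Real.log_pow, Real.log_pow, Real.log_pow,
    Real.log_pow] at hL
  push_cast at hL
  have t0 := SieA_tan hy0 hq0
  have t1 := SieA_tan hy1 hq1
  have t2 := SieA_tan hy2 hq2
  have t3 := SieA_tan hy3 hq3
  have t4 := SieA_tan hy4 hq4
  have t5 := SieA_tan hy5 hq5
  have t6 := SieA_tan hy6 hq6
  have t7 := SieA_tan hy7 hq7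
  linarith

theorem SieA_case0 {p1 p2 r1 r2 r3 x : ℝ} (H : Enc p1 p2 r1 r2 r3)
    (ha : 0 < x) (hb : x < r1) : Goal p1 p2 r1 r2 r3 x := by
  obtain ⟨e1, e2, e3, e4, e5, e6, e7, e8, e9, e10⟩ := H
  have y0 : 0 < x := by linarith
  have y1 : 0 < 1 - x := by linarith
  have y2 : 0 < p1 - x := by linarith
  have y3 : 0 < p2 - x := by linarith
  have y4 : 0 < r1 - x := by linarith
  have y5 : 0 < r2 - x := by linarith
  have y6 : 0 < r3 - x := by linarith
  have y7 : 0 < 2 - x := by linarith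
  have hQ : Real.log ((18 / 125) ^ 8 * (107 / 125) ^ 8 * (119 / 500) ^ 3 * (1237 / 500) ^ 3 * (27 / 500) * (1411 / 1000) * (3103 / 1000) * (232 / 125) : ℝ) ≤ -(76 / 4) :=
    SieA_log_neg _ 76 (by norm_num) (by norm_num)
  have hc := SieA_comb y0 y1 y2 y3 y4 y5 y6 y7 (q0 := (18 / 125)) (q1 := (107 / 125)) (q2 := (119 / 500))
    (q3 := (1237 / 500)) (q4 := (27 / 500)) (q5 := (1411 / 1000)) (q6 := (3103 / 1000)) (q7 := (232 / 125))
    (by norm_num) (by norm_num) (by norm_num) (by norm_num) (by norm_num) (by norm_num)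
    (by norm_num) (by norm_num) hQ
  have a1 : |x - 1| = 1 - x := by rw [abs_sub_comm]; exact abs_of_pos y1
  have a2 : |x - p1| = p1 - x := by rw [abs_sub_comm]; exact abs_of_pos y2
  have a3 : |x - p2| = p2 - x := by rw [abs_sub_comm]; exact abs_of_pos y3
  have a4 : |x - r1| = r1 - x := by rw [abs_sub_comm]; exact abs_of_pos y4
  have a5 : |x - r2| = r2 - x := by rw [abs_sub_comm]; exact abs_of_pos y5
  have a6 : |x - r3| = r3 - x := by rw [abs_sub_comm]; exact abs_of_pos y6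
  have a7 : |x - 2| = 2 - x := by rw [abs_sub_comm]; exact abs_of_pos y7
  unfold Goal
  rw [a1, a2, a3, a4, a5, a6, a7]
  linarith

theorem SieA_case1 {p1 p2 r1 r2 r3 x : ℝ} (H : Enc p1 p2 r1 r2 r3)
    (ha : r1 < x) (hb : x < p1) : Goal p1 p2 r1 r2 r3 x := by
  obtain ⟨e1, e2, e3, e4, e5, e6, e7, e8, e9, e10⟩ := H
  have y0 : 0 < x := by linarith
  have y1 : 0 < 1 - x := by linarith
  have y2 : 0 < p1 - x := by linarith
  have y3 : 0 < p2 - x := by linarith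
  have y4 : 0 < x - r1 := by linarith
  have y5 : 0 < r2 - x := by linarith
  have y6 : 0 < r3 - x := by linarith
  have y7 : 0 < 2 - x := by linarith
  have hQ : Real.log ((127 / 500) ^ 8 * (373 / 500) ^ 8 * (16 / 125) ^ 3 * (591 / 250) ^ 3 * (7 / 125) * (1301 / 1000) * (2993 / 1000) * (873 / 500) : ℝ) ≤ -(71 / 4) :=
    SieA_log_neg _ 71 (by norm_num) (by norm_num)
  have hc := SieA_comb y0 y1 y2 y3 y4 y5 y6 y7 (q0 := (127 / 500)) (q1 := (373 / 500)) (q2 := (16 / 125))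
    (q3 := (591 / 250)) (q4 := (7 / 125)) (q5 := (1301 / 1000)) (q6 := (2993 / 1000)) (q7 := (873 / 500))
    (by norm_num) (by norm_num) (by norm_num) (by norm_num) (by norm_num) (by norm_num)
    (by norm_num) (by norm_num) hQ
  have a1 : |x - 1| = 1 - x := by rw [abs_sub_comm]; exact abs_of_pos y1
  have a2 : |x - p1| = p1 - x := by rw [abs_sub_comm]; exact abs_of_pos y2
  have a3 : |x - p2| = p2 - x := by rw [abs_sub_comm]; exact abs_of_pos y3
  have a4 : |x - r1| = x - r1 := abs_of_pos y4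
  have a5 : |x - r2| = r2 - x := by rw [abs_sub_comm]; exact abs_of_pos y5
  have a6 : |x - r3| = r3 - x := by rw [abs_sub_comm]; exact abs_of_pos y6
  have a7 : |x - 2| = 2 - x := by rw [abs_sub_comm]; exact abs_of_pos y7
  unfold Goal
  rw [a1, a2, a3, a4, a5, a6, a7]
  linarith

theorem SieA_case2 {p1 p2 r1 r2 r3 x : ℝ} (H : Enc p1 p2 r1 r2 r3)
    (ha : p1 < x) (hb : x < 1) : Goal p1 p2 r1 r2 r3 x := by
  obtain ⟨e1, e2, e3, e4, e5, e6, e7, e8, e9, e10⟩ := H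
  have y0 : 0 < x := by linarith
  have y1 : 0 < 1 - x := by linarith
  have y2 : 0 < x - p1 := by linarith
  have y3 : 0 < p2 - x := by linarith
  have y4 : 0 < x - r1 := by linarith
  have y5 : 0 < r2 - x := by linarith
  have y6 : 0 < r3 - x := by linarith
  have y7 : 0 < 2 - x := by linarith
  have hQ : Real.log ((561 / 1000) ^ 8 * (439 / 1000) ^ 8 * (179 / 1000) ^ 3 * (2057 / 1000) ^ 3 * (363 / 1000) * (497 / 500) * (1343 / 500) * (1439 / 1000) : ℝ) ≤ -(55 / 4) :=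
    SieA_log_neg _ 55 (by norm_num) (by norm_num)
  have hc := SieA_comb y0 y1 y2 y3 y4 y5 y6 y7 (q0 := (561 / 1000)) (q1 := (439 / 1000)) (q2 := (179 / 1000))
    (q3 := (2057 / 1000)) (q4 := (363 / 1000)) (q5 := (497 / 500)) (q6 := (1343 / 500)) (q7 := (1439 / 1000))
    (by norm_num) (by norm_num) (by norm_num) (by norm_num) (by norm_num) (by norm_num)
    (by norm_num) (by norm_num) hQ
  have a1 : |x - 1| = 1 - x := by rw [abs_sub_comm]; exact abs_of_pos y1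
  have a2 : |x - p1| = x - p1 := abs_of_pos y2
  have a3 : |x - p2| = p2 - x := by rw [abs_sub_comm]; exact abs_of_pos y3
  have a4 : |x - r1| = x - r1 := abs_of_pos y4
  have a5 : |x - r2| = r2 - x := by rw [abs_sub_comm]; exact abs_of_pos y5
  have a6 : |x - r3| = r3 - x := by rw [abs_sub_comm]; exact abs_of_pos y6
  have a7 : |x - 2| = 2 - x := by rw [abs_sub_comm]; exact abs_of_pos y7
  unfold Goal
  rw [a1, a2, a3, a4, a5, a6, a7]
  linarith

theorem SieA_case3 {p1 p2 r1 r2 r3 x : ℝ} (H : Enc p1 p2 r1 r2 r3)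
    (ha : 1 < x) (hb : x < r2) : Goal p1 p2 r1 r2 r3 x := by
  obtain ⟨e1, e2, e3, e4, e5, e6, e7, e8, e9, e10⟩ := H
  have y0 : 0 < x := by linarith
  have y1 : 0 < x - 1 := by linarith
  have y2 : 0 < x - p1 := by linarith
  have y3 : 0 < p2 - x := by linarith
  have y4 : 0 < x - r1 := by linarith
  have y5 : 0 < r2 - x := by linarith
  have y6 : 0 < r3 - x := by linarith
  have y7 : 0 < 2 - x := by linarith
  have hQ : Real.log ((1453 / 1000) ^ 8 * (453 / 1000) ^ 8 * (1071 / 1000) ^ 3 * (233 / 200) ^ 3 * (251 / 200) * (51 / 500) * (897 / 500) * (547 / 1000) : ℝ) ≤ -(19 / 4) :=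
    SieA_log_neg _ 19 (by norm_num) (by norm_num)
  have hc := SieA_comb y0 y1 y2 y3 y4 y5 y6 y7 (q0 := (1453 / 1000)) (q1 := (453 / 1000)) (q2 := (1071 / 1000))
    (q3 := (233 / 200)) (q4 := (251 / 200)) (q5 := (51 / 500)) (q6 := (897 / 500)) (q7 := (547 / 1000))
    (by norm_num) (by norm_num) (by norm_num) (by norm_num) (by norm_num) (by norm_num)
    (by norm_num) (by norm_num) hQ
  have a1 : |x - 1| = x - 1 := abs_of_pos y1
  have a2 : |x - p1| = x - p1 := abs_of_pos y2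
  have a3 : |x - p2| = p2 - x := by rw [abs_sub_comm]; exact abs_of_pos y3
  have a4 : |x - r1| = x - r1 := abs_of_pos y4
  have a5 : |x - r2| = r2 - x := by rw [abs_sub_comm]; exact abs_of_pos y5
  have a6 : |x - r3| = r3 - x := by rw [abs_sub_comm]; exact abs_of_pos y6
  have a7 : |x - 2| = 2 - x := by rw [abs_sub_comm]; exact abs_of_pos y7
  unfold Goal
  rw [a1, a2, a3, a4, a5, a6, a7]
  linarith

theorem SieA_case4 {p1 p2 r1 r2 r3 x : ℝ} (H : Enc p1 p2 r1 r2 r3)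
    (ha : r2 < x) (hb : x < 2) : Goal p1 p2 r1 r2 r3 x := by
  obtain ⟨e1, e2, e3, e4, e5, e6, e7, e8, e9, e10⟩ := H
  have y0 : 0 < x := by linarith
  have y1 : 0 < x - 1 := by linarith
  have y2 : 0 < x - p1 := by linarith
  have y3 : 0 < p2 - x := by linarith
  have y4 : 0 < x - r1 := by linarith
  have y5 : 0 < x - r2 := by linarith
  have y6 : 0 < r3 - x := by linarith
  have y7 : 0 < 2 - x := by linarith
  have hQ : Real.log ((1799 / 1000) ^ 8 * (799 / 1000) ^ 8 * (1417 / 1000) ^ 3 * (41 / 50) ^ 3 * (8 / 5) * (61 / 250) * (181 / 125) * (201 / 1000) : ℝ) ≤ 5 / 4 := 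
    SieA_log_pos _ 5 (by norm_num) (by norm_num)
  have hc := SieA_comb y0 y1 y2 y3 y4 y5 y6 y7 (q0 := (1799 / 1000)) (q1 := (799 / 1000)) (q2 := (1417 / 1000))
    (q3 := (41 / 50)) (q4 := (8 / 5)) (q5 := (61 / 250)) (q6 := (181 / 125)) (q7 := (201 / 1000))
    (by norm_num) (by norm_num) (by norm_num) (by norm_num) (by norm_num) (by norm_num)
    (by norm_num) (by norm_num) hQ
  have a1 : |x - 1| = x - 1 := abs_of_pos y1
  have a2 : |x - p1| = x - p1 := abs_of_pos y2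
  have a3 : |x - p2| = p2 - x := by rw [abs_sub_comm]; exact abs_of_pos y3
  have a4 : |x - r1| = x - r1 := abs_of_pos y4
  have a5 : |x - r2| = x - r2 := abs_of_pos y5
  have a6 : |x - r3| = r3 - x := by rw [abs_sub_comm]; exact abs_of_pos y6
  have a7 : |x - 2| = 2 - x := by rw [abs_sub_comm]; exact abs_of_pos y7
  unfold Goal
  rw [a1, a2, a3, a4, a5, a6, a7]
  linarith

theorem SieA_case5 {p1 p2 r1 r2 r3 x : ℝ} (H : Enc p1 p2 r1 r2 r3)
    (ha : 2 < x) (hb : x < p2) : Goal p1 p2 r1 r2 r3 x := by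
  obtain ⟨e1, e2, e3, e4, e5, e6, e7, e8, e9, e10⟩ := H
  have y0 : 0 < x := by linarith
  have y1 : 0 < x - 1 := by linarith
  have y2 : 0 < x - p1 := by linarith
  have y3 : 0 < p2 - x := by linarith
  have y4 : 0 < x - r1 := by linarith
  have y5 : 0 < x - r2 := by linarith
  have y6 : 0 < r3 - x := by linarith
  have y7 : 0 < x - 2 := by linarith
  have hQ : Real.log ((109 / 50) ^ 8 * (59 / 50) ^ 8 * (899 / 500) ^ 3 * (219 / 500) ^ 3 * (991 / 500) * (5 / 8) * (1067 / 1000) * (9 / 50) : ℝ) ≤ 22 / 4 := 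
    SieA_log_pos _ 22 (by norm_num) (by norm_num)
  have hc := SieA_comb y0 y1 y2 y3 y4 y5 y6 y7 (q0 := (109 / 50)) (q1 := (59 / 50)) (q2 := (899 / 500))
    (q3 := (219 / 500)) (q4 := (991 / 500)) (q5 := (5 / 8)) (q6 := (1067 / 1000)) (q7 := (9 / 50))
    (by norm_num) (by norm_num) (by norm_num) (by norm_num) (by norm_num) (by norm_num)
    (by norm_num) (by norm_num) hQ
  have a1 : |x - 1| = x - 1 := abs_of_pos y1
  have a2 : |x - p1| = x - p1 := abs_of_pos y2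
  have a3 : |x - p2| = p2 - x := by rw [abs_sub_comm]; exact abs_of_pos y3
  have a4 : |x - r1| = x - r1 := abs_of_pos y4
  have a5 : |x - r2| = x - r2 := abs_of_pos y5
  have a6 : |x - r3| = r3 - x := by rw [abs_sub_comm]; exact abs_of_pos y6
  have a7 : |x - 2| = x - 2 := abs_of_pos y7
  unfold Goal
  rw [a1, a2, a3, a4, a5, a6, a7]
  linarith

theorem SieA_case6 {p1 p2 r1 r2 r3 x : ℝ} (H : Enc p1 p2 r1 r2 r3)
    (ha : p2 < x) (hb : x < r3) : Goal p1 p2 r1 r2 r3 x := by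
  obtain ⟨e1, e2, e3, e4, e5, e6, e7, e8, e9, e10⟩ := H
  have y0 : 0 < x := by linarith
  have y1 : 0 < x - 1 := by linarith
  have y2 : 0 < x - p1 := by linarith
  have y3 : 0 < x - p2 := by linarith
  have y4 : 0 < x - r1 := by linarith
  have y5 : 0 < x - r2 := by linarith
  have y6 : 0 < r3 - x := by linarith
  have y7 : 0 < x - 2 := by linarith
  have hQ : Real.log ((3039 / 1000) ^ 8 * (2039 / 1000) ^ 8 * (2657 / 1000) ^ 3 * (421 / 1000) ^ 3 * (2841 / 1000) * (371 / 250) * (26 / 125) * (1039 / 1000) : ℝ) ≤ 60 / 4 := 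
    SieA_log_pos _ 60 (by norm_num) (by norm_num)
  have hc := SieA_comb y0 y1 y2 y3 y4 y5 y6 y7 (q0 := (3039 / 1000)) (q1 := (2039 / 1000)) (q2 := (2657 / 1000))
    (q3 := (421 / 1000)) (q4 := (2841 / 1000)) (q5 := (371 / 250)) (q6 := (26 / 125)) (q7 := (1039 / 1000))
    (by norm_num) (by norm_num) (by norm_num) (by norm_num) (by norm_num) (by norm_num)
    (by norm_num) (by norm_num) hQ
  have a1 : |x - 1| = x - 1 := abs_of_pos y1
  have a2 : |x - p1| = x - p1 := abs_of_pos y2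
  have a3 : |x - p2| = x - p2 := abs_of_pos y3
  have a4 : |x - r1| = x - r1 := abs_of_pos y4
  have a5 : |x - r2| = x - r2 := abs_of_pos y5
  have a6 : |x - r3| = r3 - x := by rw [abs_sub_comm]; exact abs_of_pos y6
  have a7 : |x - 2| = x - 2 := abs_of_pos y7
  unfold Goal
  rw [a1, a2, a3, a4, a5, a6, a7]
  linarith

theorem SieA_case7 {p1 p2 r1 r2 r3 x : ℝ} (H : Enc p1 p2 r1 r2 r3)
    (ha : r3 < x) : Goal p1 p2 r1 r2 r3 x := by
  obtain ⟨e1, e2, e3, e4, e5, e6, e7, e8, e9, e10⟩ := H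
  have y0 : 0 < x := by linarith
  have y1 : 0 < x - 1 := by linarith
  have y2 : 0 < x - p1 := by linarith
  have y3 : 0 < x - p2 := by linarith
  have y4 : 0 < x - r1 := by linarith
  have y5 : 0 < x - r2 := by linarith
  have y6 : 0 < x - r3 := by linarith
  have y7 : 0 < x - 2 := by linarith
  have hQ : Real.log ((3737 / 1000) ^ 8 * (2737 / 1000) ^ 8 * (671 / 200) ^ 3 * (1119 / 1000) ^ 3 * (3539 / 1000) * (1091 / 500) * (49 / 100) * (1737 / 1000) : ℝ) ≤ 98 / 4 := 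
    SieA_log_pos _ 98 (by norm_num) (by norm_num)
  have hc := SieA_comb y0 y1 y2 y3 y4 y5 y6 y7 (q0 := (3737 / 1000)) (q1 := (2737 / 1000)) (q2 := (671 / 200))
    (q3 := (1119 / 1000)) (q4 := (3539 / 1000)) (q5 := (1091 / 500)) (q6 := (49 / 100)) (q7 := (1737 / 1000))
    (by norm_num) (by norm_num) (by norm_num) (by norm_num) (by norm_num) (by norm_num)
    (by norm_num) (by norm_num) hQ
  have a1 : |x - 1| = x - 1 := abs_of_pos y1
  have a2 : |x - p1| = x - p1 := abs_of_pos y2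
  have a3 : |x - p2| = x - p2 := abs_of_pos y3
  have a4 : |x - r1| = x - r1 := abs_of_pos y4
  have a5 : |x - r2| = x - r2 := abs_of_pos y5
  have a6 : |x - r3| = x - r3 := abs_of_pos y6
  have a7 : |x - 2| = x - 2 := abs_of_pos y7
  unfold Goal
  rw [a1, a2, a3, a4, a5, a6, a7]
  linarith

theorem SieA_goal {p1 p2 r1 r2 r3 x : ℝ} (H : Enc p1 p2 r1 r2 r3) (h0 : 0 < x) (h1 : x ≠ 1)
    (h2 : x ≠ 2) (hp1 : x ≠ p1) (hp2 : x ≠ p2) (hr1 : x ≠ r1) (hr2 : x ≠ r2) (hr3 : x ≠ r3) :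
    Goal p1 p2 r1 r2 r3 x := by
  rcases lt_or_gt_of_ne hr1 with a | a
  · exact SieA_case0 H h0 a
  rcases lt_or_gt_of_ne hp1 with b | b
  · exact SieA_case1 H a b
  rcases lt_or_gt_of_ne h1 with c | c
  · exact SieA_case2 H b c
  rcases lt_or_gt_of_ne hr2 with d | d
  · exact SieA_case3 H c d
  rcases lt_or_gt_of_ne h2 with e | e
  · exact SieA_case4 H d e
  rcases lt_or_gt_of_ne hp2 with f | f
  · exact SieA_case5 H e f
  rcases lt_or_gt_of_ne hr3 with g | g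
  · exact SieA_case6 H f g
  · exact SieA_case7 H g

theorem SieA_root (a b : ℝ) (hab : a ≤ b)
    (h : (a ^ 3 - 5 * a ^ 2 + 6 * a - 1 < 0 ∧ 0 < b ^ 3 - 5 * b ^ 2 + 6 * b - 1) ∨
      (0 < a ^ 3 - 5 * a ^ 2 + 6 * a - 1 ∧ b ^ 3 - 5 * b ^ 2 + 6 * b - 1 < 0)) :
    ∃ r, a < r ∧ r < b ∧ r ^ 3 - 5 * r ^ 2 + 6 * r - 1 = 0 := by
  have hc : ContinuousOn (fun x : ℝ => x ^ 3 - 5 * x ^ 2 + 6 * x - 1) (Set.Icc a b) := by
    fun_prop
  rcases h with ⟨h1, h2⟩ | ⟨h1, h2⟩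
  · obtain ⟨r, hr, hr0⟩ := intermediate_value_Ioo hab hc ⟨h1, h2⟩
    exact ⟨r, hr.1, hr.2, hr0⟩
  · obtain ⟨r, hr, hr0⟩ := intermediate_value_Ioo' hab hc ⟨h2, h1⟩
    exact ⟨r, hr.1, hr.2, hr0⟩

theorem SieA_vieta {r1 r2 r3 : ℝ} (h1 : r1 ^ 3 - 5 * r1 ^ 2 + 6 * r1 - 1 = 0)
    (h2 : r2 ^ 3 - 5 * r2 ^ 2 + 6 * r2 - 1 = 0) (h3 : r3 ^ 3 - 5 * r3 ^ 2 + 6 * r3 - 1 = 0)
    (h12 : r1 ≠ r2) (h23 : r2 ≠ r3) (h13 : r1 ≠ r3) (x : ℝ) :
    x ^ 3 - 5 * x ^ 2 + 6 * x - 1 = (x - r1) * (x - r2) * (x - r3) := by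
  have a : r1 ^ 2 + r1 * r2 + r2 ^ 2 - 5 * (r1 + r2) + 6 = 0 := by
    apply mul_left_cancel₀ (sub_ne_zero.2 h12)
    linear_combination h1 - h2
  have b : r1 ^ 2 + r1 * r3 + r3 ^ 2 - 5 * (r1 + r3) + 6 = 0 := by
    apply mul_left_cancel₀ (sub_ne_zero.2 h13)
    linear_combination h1 - h3
  have c : r1 + r2 + r3 - 5 = 0 := by
    apply mul_left_cancel₀ (sub_ne_zero.2 h23)
    linear_combination a - b
  have hr3 : r3 = 5 - r1 - r2 := by linarith
  subst hr3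
  have d : r1 * r2 + (r1 + r2) * (5 - r1 - r2) - 6 = 0 := by linear_combination -a
  have e : r1 * r2 * (5 - r1 - r2) - 1 = 0 := by
    linear_combination h1 + r1 * d
  linear_combination (-x) * d + e

theorem aux_real : ∃ a b c d e : ℝ, 0 ≤ a ∧ 0 ≤ b ∧ 0 ≤ c ∧ 0 ≤ d ∧ 0 ≤ e ∧ ∀ x : ℝ, 0 < x →
    x ≠ 1 → x ≠ 2 → x ^ 2 - 3 * x + 1 ≠ 0 → x ^ 3 - 5 * x ^ 2 + 6 * x - 1 ≠ 0 →
    5 / 3 ≤ x - a * Real.log x - b * Real.log |x - 1| - c * Real.log |x ^ 2 - 3 * x + 1| -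
      d * Real.log |x ^ 3 - 5 * x ^ 2 + 6 * x - 1| - e * Real.log |x - 2| := by
  obtain ⟨r1, a1, b1, c1⟩ := SieA_root (198 / 1000) (1981 / 10000) (by norm_num)
    (Or.inl ⟨by norm_num, by norm_num⟩)
  obtain ⟨r2, a2, b2, c2⟩ := SieA_root (15549 / 10000) (1555 / 1000) (by norm_num)
    (Or.inr ⟨by norm_num, by norm_num⟩)
  obtain ⟨r3, a3, b3, c3⟩ := SieA_root (32469 / 10000) (3247 / 1000) (by norm_num)
    (Or.inl ⟨by norm_num, by norm_num⟩)
  have hs : √(5 : ℝ) ^ 2 = 5 := Real.sq_sqrt (by norm_num)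
  have hs0 : 0 ≤ √(5 : ℝ) := Real.sqrt_nonneg 5
  have s1 : 2236 / 1000 < √(5 : ℝ) := by
    apply Real.lt_sqrt_of_sq_lt
    norm_num
  have s2 : √(5 : ℝ) < 22361 / 10000 := by
    rw [Real.sqrt_lt' (by norm_num)]
    norm_num
  have H : Enc ((3 - √(5 : ℝ)) / 2) ((3 + √(5 : ℝ)) / 2) r1 r2 r3 :=
    ⟨by linarith, by linarith, by linarith, by linarith, a1, b1, a2, b2, a3, b3⟩
  refine ⟨2 / 3, 2 / 3, 1 / 4, 1 / 12, 1 / 12, by norm_num, by norm_num, by norm_num, by norm_num,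
    by norm_num, fun x h0 h1 h2 hq hc => ?_⟩
  have eq1 : x ^ 2 - 3 * x + 1 = (x - (3 - √(5 : ℝ)) / 2) * (x - (3 + √(5 : ℝ)) / 2) := by
    linear_combination (1 / 4) * hs
  have eq2 := SieA_vieta c1 c2 c3 (by intro h; linarith) (by intro h; linarith)
    (by intro h; linarith) x
  rw [eq1] at hq ⊢
  rw [eq2] at hc ⊢
  have n1 := left_ne_zero_of_mul hq
  have n2 := right_ne_zero_of_mul hq
  have n5 := right_ne_zero_of_mul hc
  have n34 := left_ne_zero_of_mul hc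
  have n3 := left_ne_zero_of_mul n34
  have n4 := right_ne_zero_of_mul n34
  have hg := SieA_goal H h0 h1 h2 (sub_ne_zero.1 n1) (sub_ne_zero.1 n2) (sub_ne_zero.1 n3)
    (sub_ne_zero.1 n4) (sub_ne_zero.1 n5)
  unfold Goal at hg
  rw [abs_mul, abs_mul, abs_mul, Real.log_mul (abs_ne_zero.2 n1) (abs_ne_zero.2 n2),
    Real.log_mul (mul_ne_zero (abs_ne_zero.2 n3) (abs_ne_zero.2 n4)) (abs_ne_zero.2 n5),
    Real.log_mul (abs_ne_zero.2 n3) (abs_ne_zero.2 n4)]
  linarith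

end Pool.Agent.H74W
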