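import Pool.Agent.W_7742v_h74.Stmt

/-! Definitions for the statements about pairs of conjugates: a positive proportion of vanishing
traces. -/

set_option autoImplicit false

noncomputable section

namespace Pool.Agent.H74V

open Filter Topology ComplexConjugate UpperHalfPlane

namespace SatakeSystem

variable {K : Type} [Field K] [NumberField K] {n : ℕ} (π : SatakeSystem K n)

/-- The field `K` is generated by its roots of unity and the traces `tr A p`. -/
def Generates : Prop :=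
  IntermediateField.adjoin ℚ ({x : K | ∃ k : ℕ, 0 < k ∧ x ^ k = 1} ∪
    {x : K | ∃ p, π.Good p ∧ x = (π.A p).trace}) = ⊤

/-- `n = 2` and for every embedding `σ` there is a nonzero Maass cusp form `f` of weight `0` and
eigenvalue `1 / 4` for `Γ₀(level)` with character `χ`, `χ(p) = σ (det A p)`, whose eigenvalue under
the Hecke operator `T_p` is `σ (tr A p)`, for all `p` not dividing the level.  Either all the `f` are
even, or all are odd: `f (- conj z) = ε * f z`. -/
def IsMaassFamily : Prop :=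
  n = 2 ∧ ∃ ε : ℂ, (ε = 1 ∨ ε = -1) ∧ ∀ σ : K →+* ℂ,
    ∃ (χ : DirichletCharacter ℂ π.level) (f : ℍ → ℂ), (∀ p : ℕ, π.Good p → χ p = σ (π.A p).det) ∧
      Maass74.IsMaassCuspForm π.level χ f ∧ (∃ z, f z ≠ 0) ∧
      (∀ z : ℍ, f (ofComplex (-conj (z : ℂ))) = ε * f z) ∧
      ∀ p : ℕ, π.Good p → ∀ z, Maass74.hecke χ p f z = σ (π.A p).trace * f z

/-- The coefficient of `p ^ (-ks)` in the logarithm of the (partial) Rankin-Selberg `L`-function of
the conjugate systems `σ (A)` and the contragredient of `τ (A)`. -/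
def coeff2 (σ τ : K →+* ℂ) (p k : ℕ) : ℂ := by
  classical exact if π.Good p then σ (π.A p ^ k).trace * conj (τ (π.A p ^ k).trace) / k else 0

/-- The Rankin-Selberg `L`-function
`L_{σ, τ}(s) = exp (∑_p ∑_k σ (tr A p ^ k) conj (τ (tr A p ^ k)) / (k p ^ (ks)))`, `s > 1`. -/
def L2 (σ τ : K →+* ℂ) (s : ℝ) : ℂ :=
  Complex.exp (∑' x : Nat.Primes × ℕ, π.coeff2 σ τ x.1 (x.2 + 1) /
    (((((x.1 : ℕ) : ℝ) ^ (((x.2 : ℝ) + 1) * s) : ℝ)) : ℂ))

/-- All conjugates are unitary with `L_σ(s) = O (1 / (s - 1))` for `1 < s ≤ 2`, and `L_{σ, τ}(s)` is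
bounded for `1 < s ≤ 2` if `σ ≠ τ` are embeddings which agree on the roots of unity of `K`. -/
def IsBoundedFamily : Prop :=
  (∀ σ, π.IsBounded σ) ∧ ∀ σ τ : K →+* ℂ, σ ≠ τ →
    (∀ x : K, (∃ k : ℕ, 0 < k ∧ x ^ k = 1) → σ x = τ x) →
    ∃ C : ℝ, ∀ s : ℝ, 1 < s → s ≤ 2 → ‖π.L2 σ τ s‖ ≤ C

/-- The density of the primes with `tr A p = 0` is at least `2 / 5 (1 - 1 / r)`, where `r` is the
degree of `K` over the field generated by the roots of unity of `K` (in the sense of the lower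
Dirichlet density). -/
def ManyZeros : Prop :=
  ∀ ε : ℝ, 0 < ε → ∀ᶠ s in 𝓝[>] (1 : ℝ),
    (2 / 5 * (1 - 1 / (Module.finrank
      (IntermediateField.adjoin ℚ {x : K | ∃ k : ℕ, 0 < k ∧ x ^ k = 1}) K : ℝ)) - ε) *
        primeSum (fun _ => True) s ≤ primeSum (fun p => π.Good p ∧ (π.A p).trace = 0) s

end SatakeSystem

end Pool.Agent.H74V
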