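import Pool.Agent.W_7742w_h74.Fam

/-! Hecke traces which are zero or roots of unity, for cusp forms on `GL_n` with integral Satake
polynomials. -/

namespace Pool.Agent.W_7742w_h74.ThirdOfTracesResult

open Pool.Agent.H74V

/-- Let `K` be a number field, `n ≥ 2` and `π` a system of Satake classes of rank `n` whose
characteristic polynomials are integral over `K`.  If all conjugates `π^σ` are the systems of Satake
classes of cusp forms on `GL_n` over `ℚ`, then three times the (lower) Dirichlet density of the primes
with `tr A p = 0` plus that of the primes such that `tr A p` is a root of unity is at least one.  If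
the conjugates are the systems of Satake classes of Maass cusp forms of eigenvalue `1 / 4` (and
`n = 2`), all even or all odd, and `K` is generated by its roots of unity and the traces `tr A p`,
then also the density of the primes with `tr A p = 0` is at least `2 / 5 (1 - 1 / r)`, `r` the degree
of `K` over the field generated by the roots of unity of `K`. -/
theorem result (K : Type) [Field K] [NumberField K] (n : ℕ) (hn : 2 ≤ n) (π : SatakeSystem K n) :
    ((∀ σ : K →+* ℂ, π.IsCuspidal σ) → π.ManyUnits) ∧
      (π.Generates → π.IsMaassFamily → π.ManyUnits ∧ π.ManyZeros) :=
  ⟨fun h => (SatakeSystem.main π).1 (Or.inl ⟨hn, h⟩), fun hg h =>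
    ⟨(SatakeSystem.main π).1 (Or.inr (Or.inl h)), (SatakeSystem.main π).2 hg (Or.inl h)⟩⟩

end Pool.Agent.W_7742w_h74.ThirdOfTracesResult
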