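import Pool.Agent.W_7742w_h74.Stm
import Pool.Agent.W_7742w_h74.Pt
import Pool.Agent.W_7742w_h74.Dens
import Pool.Agent.W_7742v_h74.Thr

/-!
# A positive proportion of vanishing traces
-/

set_option autoImplicit false

noncomputable section

namespace Pool.Agent.H74V

open Filter Topology ComplexConjugate Pool.Agent.Maass74 Pool.Agent.H74W

namespace SatakeSystem

variable {K : Type} [Field K] [NumberField K] {n : ℕ} (π : SatakeSystem K n)

/-- The denominators `p ^ (k s)`. -/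
def pw (s : ℝ) (x : Nat.Primes × ℕ) : ℝ := ((x.1 : ℕ) : ℝ) ^ (((x.2 : ℝ) + 1) * s)

lemma pw_pos (s : ℝ) (x : Nat.Primes × ℕ) : 0 < pw s x :=
  Real.rpow_pos_of_pos (by exact_mod_cast x.1.2.pos) _

/-- The logarithm of `L2`. -/
def S2 (σ τ : K →+* ℂ) (s : ℝ) : ℂ :=
  ∑' x : Nat.Primes × ℕ, π.coeff2 σ τ x.1 (x.2 + 1) / ((pw s x : ℝ) : ℂ)

lemma L2_eq (σ τ : K →+* ℂ) (s : ℝ) : π.L2 σ τ s = Complex.exp (π.S2 σ τ s) := rfl

lemma norm_coeff2_le (σ τ : K →+* ℂ) (p k : ℕ) :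
    ‖π.coeff2 σ τ p k‖ ≤ π.coeff σ p k + π.coeff τ p k := by
  unfold coeff2 coeff
  split_ifs with h
  · rw [norm_div, norm_mul, Complex.norm_conj, Complex.norm_natCast, ← add_div]
    refine div_le_div_of_nonneg_right ?_ (Nat.cast_nonneg k)
    nlinarith [norm_nonneg (σ (π.A p ^ k).trace), norm_nonneg (τ (π.A p ^ k).trace),
      sq_nonneg (‖σ (π.A p ^ k).trace‖ - ‖τ (π.A p ^ k).trace‖)]
  · simp

lemma summable_coeff {σ : K →+* ℂ} (h : π.Converges σ) {s : ℝ} (hs : 1 < s) :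
    Summable fun x : Nat.Primes × ℕ => π.coeff σ x.1 (x.2 + 1) / pw s x := h s hs

lemma summable_coeff2 {σ τ : K →+* ℂ} (hσ : π.Converges σ) (hτ : π.Converges τ) {s : ℝ}
    (hs : 1 < s) :
    Summable fun x : Nat.Primes × ℕ => π.coeff2 σ τ x.1 (x.2 + 1) / ((pw s x : ℝ) : ℂ) := by
  refine Summable.of_norm_bounded ((π.summable_coeff hσ hs).add (π.summable_coeff hτ hs))
    fun x => ?_
  rw [norm_div, Complex.norm_real, Real.norm_of_nonneg (pw_pos s x).le, ← add_div]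
  exact div_le_div_of_nonneg_right (π.norm_coeff2_le σ τ _ _) (pw_pos s x).le

lemma re_S2 {σ τ : K →+* ℂ} (hσ : π.Converges σ) (hτ : π.Converges τ) {s : ℝ} (hs : 1 < s) :
    HasSum (fun x : Nat.Primes × ℕ => (π.coeff2 σ τ x.1 (x.2 + 1)).re / pw s x)
      (π.S2 σ τ s).re := by
  have h := Complex.hasSum_re (π.summable_coeff2 hσ hτ hs).hasSum
  refine h.congr_fun fun x => ?_
  rw [Complex.div_ofReal_re]

lemma coeff2_self (σ : K →+* ℂ) (p k : ℕ) : π.coeff2 σ σ p k = (π.coeff σ p k : ℂ) := by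
  unfold coeff2 coeff
  split_ifs with h
  · rw [Complex.mul_conj']
    push_cast
    rfl
  · simp

lemma L2_self (σ : K →+* ℂ) (s : ℝ) : π.L2 σ σ s = π.L σ s := by
  unfold L2 L
  congr 1
  refine tsum_congr fun x => ?_
  rw [coeff2_self]
  congr 1
  rw [Complex.ofReal_cpow (by positivity)]
  push_cast
  rfl

lemma re_S2_le {σ τ : K →+* ℂ} {s B : ℝ} (h : ‖π.L2 σ τ s‖ ≤ B) :
    (π.S2 σ τ s).re ≤ Real.log B := by
  rw [L2_eq, Complex.norm_exp] at h
  have := Real.log_le_log (Real.exp_pos _) h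
  rwa [Real.log_exp] at this

open Classical in
theorem manyZeros (h : π.IsBoundedFamily) : π.ManyZeros := by
  obtain ⟨h1, h2⟩ := h
  have hconv : ∀ σ, π.Converges σ := fun σ => (h1 σ).2.1
  have hu : ∀ σ, π.Unitary σ := fun σ => (h1 σ).1
  set D : ℝ := (Fintype.card (K →+* ℂ) : ℝ) with hD
  have hDpos : 0 < D := by
    have σ0 : K →+* ℂ := Classical.choice inferInstance
    have : 0 < Fintype.card (K →+* ℂ) := Fintype.card_pos_iff.2 ⟨σ0⟩
    rw [hD]
    exact_mod_cast this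
  set r : ℝ := (rk K : ℝ) with hr
  have hrpos : 0 < r := by
    rw [hr]
    exact_mod_cast rk_pos
  -- the bounds
  have hB : ∀ σ τ : K →+* ℂ, ∃ B : ℝ, ∀ s : ℝ, 1 < s → s ≤ 2 → Agree σ τ →
      (π.S2 σ τ s).re ≤ (if σ = τ then -Real.log (s - 1) else 0) + B := by
    intro σ τ
    by_cases hst : σ = τ
    · subst hst
      obtain ⟨C, hC⟩ := (h1 σ).2.2
      refine ⟨Real.log (|C| + 1), fun s hs hs2 _ => ?_⟩
      have hpos : 0 < s - 1 := by linarith
      rw [if_pos rfl]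
      have h3 : ‖π.L2 σ σ s‖ ≤ (|C| + 1) / (s - 1) := by
        rw [le_div_iff₀ hpos, mul_comm, L2_self]
        linarith [hC s hs hs2, le_abs_self C]
      have h4 := π.re_S2_le h3
      rw [Real.log_div (by positivity) hpos.ne'] at h4
      linarith
    · by_cases hag : Agree σ τ
      · obtain ⟨C, hC⟩ := h2 σ τ hst hag
        refine ⟨Real.log (|C| + 1), fun s hs hs2 _ => ?_⟩
        rw [if_neg hst, zero_add]
        exact π.re_S2_le ((hC s hs hs2).trans (by linarith [le_abs_self C]))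
      · exact ⟨0, fun s _ _ h => absurd h hag⟩
  choose B hB using hB
  -- the integrality
  have hint : ∀ p : ℕ, p.Prime → ¬ p ∣ π.level → IsIntegral ℤ (π.A p).trace := by
    intro p hp hN
    have σ : K →+* ℂ := Classical.choice inferInstance
    apply H74F.isIntegral_of_map σ
    have := H74F.trace_integral σ (π.integral p hp hN) 1
    rwa [pow_one] at this
  have hint' : ∀ p : ℕ, p.Prime → ¬ p ∣ π.level → IsIntegral ℤ (π.A p)⁻¹.trace := by
    intro p hp hN
    have σ : K →+* ℂ := Classical.choice inferInstance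
    apply H74F.isIntegral_of_map σ
    have h1 := hu σ p ⟨hp, hN⟩ 1
    rw [pow_one, pow_one] at h1
    rw [← h1]
    exact ((hint p hp hN).map σ.toIntAlgHom).map (starRingEnd ℂ).toIntAlgHom
  -- the nonnegative coefficients
  let t : Nat.Primes × ℕ → ℝ := fun x =>
    3 * ∑ σ : K →+* ℂ, (π.coeff2 σ σ x.1 (x.2 + 1)).re +
      2 / r * ∑ σ : K →+* ℂ, ∑ τ : K →+* ℂ,
        if Agree σ τ then (π.coeff2 σ τ x.1 (x.2 + 1)).re else 0
  have ht : ∀ s : ℝ, 1 < s → HasSum (fun x => t x / pw s x)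
      (3 * ∑ σ : K →+* ℂ, (π.S2 σ σ s).re +
      2 / r * ∑ σ : K →+* ℂ, ∑ τ : K →+* ℂ, if Agree σ τ then (π.S2 σ τ s).re else 0) := by
    intro s hs
    have e1 : HasSum (fun x : Nat.Primes × ℕ =>
        ∑ σ : K →+* ℂ, (π.coeff2 σ σ x.1 (x.2 + 1)).re / pw s x)
        (∑ σ : K →+* ℂ, (π.S2 σ σ s).re) :=
      hasSum_sum fun σ _ => π.re_S2 (hconv σ) (hconv σ) hs
    have e2 : HasSum (fun x : Nat.Primes × ℕ => ∑ σ : K →+* ℂ, ∑ τ : K →+* ℂ,
        if Agree σ τ then (π.coeff2 σ τ x.1 (x.2 + 1)).re / pw s x else 0)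
        (∑ σ : K →+* ℂ, ∑ τ : K →+* ℂ, if Agree σ τ then (π.S2 σ τ s).re else 0) := by
      refine hasSum_sum fun σ _ => hasSum_sum fun τ _ => ?_
      split_ifs
      · exact π.re_S2 (hconv σ) (hconv τ) hs
      · exact hasSum_zero
    have e3 := (e1.mul_left 3).add (e2.mul_left (2 / r))
    have e4 : (fun x : Nat.Primes × ℕ => t x / pw s x) = fun x : Nat.Primes × ℕ =>
        3 * ∑ σ : K →+* ℂ, (π.coeff2 σ σ x.1 (x.2 + 1)).re / pw s x +
        2 / r * ∑ σ : K →+* ℂ, ∑ τ : K →+* ℂ,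
          if Agree σ τ then (π.coeff2 σ τ x.1 (x.2 + 1)).re / pw s x else 0 := by
      funext x
      have f1 : (∑ σ : K →+* ℂ, (π.coeff2 σ σ x.1 (x.2 + 1)).re) / pw s x =
          ∑ σ : K →+* ℂ, (π.coeff2 σ σ x.1 (x.2 + 1)).re / pw s x := Finset.sum_div _ _ _
      have f2 : (∑ σ : K →+* ℂ, ∑ τ : K →+* ℂ,
          if Agree σ τ then (π.coeff2 σ τ x.1 (x.2 + 1)).re else 0) / pw s x =
          ∑ σ : K →+* ℂ, ∑ τ : K →+* ℂ,
          if Agree σ τ then (π.coeff2 σ τ x.1 (x.2 + 1)).re / pw s x else 0 := by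
        rw [Finset.sum_div]
        refine Finset.sum_congr rfl fun σ _ => ?_
        rw [Finset.sum_div]
        refine Finset.sum_congr rfl fun τ _ => ?_
        split_ifs
        · rfl
        · exact zero_div _
      rw [← f1, ← f2]
      simp only [t]
      ring
    rw [e4]
    exact e3
  have hval : ∀ (x : Nat.Primes × ℕ), π.Good x.1 → t x = (3 * ∑ σ : K →+* ℂ,
      ‖σ (π.A x.1 ^ (x.2 + 1)).trace‖ ^ 2 + 2 / r * ∑ σ : K →+* ℂ, ∑ τ : K →+* ℂ,
        if Agree σ τ then (σ (π.A x.1 ^ (x.2 + 1)).trace * conj (τ (π.A x.1 ^ (x.2 + 1)).trace)).re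
        else 0) / ((x.2 + 1 : ℕ) : ℝ) := by
    intro x hx
    have e : ∀ σ τ : K →+* ℂ, (π.coeff2 σ τ x.1 (x.2 + 1)).re =
        (σ (π.A x.1 ^ (x.2 + 1)).trace * conj (τ (π.A x.1 ^ (x.2 + 1)).trace)).re /
          ((x.2 + 1 : ℕ) : ℝ) := by
      intro σ τ
      unfold coeff2
      rw [if_pos hx, ← Complex.ofReal_natCast, Complex.div_ofReal_re]
    have f1 : ∑ σ : K →+* ℂ, (π.coeff2 σ σ x.1 (x.2 + 1)).re =
        (∑ σ : K →+* ℂ, ‖σ (π.A x.1 ^ (x.2 + 1)).trace‖ ^ 2) / ((x.2 + 1 : ℕ) : ℝ) := by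
      rw [Finset.sum_div]
      refine Finset.sum_congr rfl fun σ _ => ?_
      rw [e, Complex.mul_conj', ← Complex.ofReal_pow, Complex.ofReal_re]
    have f2 : (∑ σ : K →+* ℂ, ∑ τ : K →+* ℂ,
        if Agree σ τ then (π.coeff2 σ τ x.1 (x.2 + 1)).re else 0) =
        (∑ σ : K →+* ℂ, ∑ τ : K →+* ℂ,
        if Agree σ τ then (σ (π.A x.1 ^ (x.2 + 1)).trace * conj (τ (π.A x.1 ^ (x.2 + 1)).trace)).re
        else 0) / ((x.2 + 1 : ℕ) : ℝ) := by
      rw [Finset.sum_div]
      refine Finset.sum_congr rfl fun σ _ => ?_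
      rw [Finset.sum_div]
      refine Finset.sum_congr rfl fun τ _ => ?_
      split_ifs
      · exact e σ τ
      · exact (zero_div _).symm
    simp only [t]
    rw [f1, f2]
    ring
  have ht0 : ∀ x, 0 ≤ t x := by
    intro x
    by_cases hx : π.Good x.1
    · rw [hval x hx]
      have e1 := agree_nonneg (fun σ : K →+* ℂ => σ (π.A x.1 ^ (x.2 + 1)).trace)
      positivity
    · have e : ∀ σ τ : K →+* ℂ, π.coeff2 σ τ x.1 (x.2 + 1) = 0 := by
        intro σ τ
        unfold coeff2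
        rw [if_neg hx]
      simp [t, e]
  have ht5 : ∀ (p : Nat.Primes), π.Good p → (π.A p).trace ≠ 0 → 5 * D ≤ t (p, 0) := by
    intro p hp h0
    rw [hval (p, 0) hp]
    simp only [zero_add, pow_one, Nat.cast_one, div_one]
    refine pointwise (hint p hp.1 hp.2) (hint' p hp.1 hp.2) (fun σ => ?_) h0
    have h1 := hu σ p hp 1
    rwa [pow_one, pow_one] at h1
  -- the upper bound
  set BB : ℝ := 3 * ∑ σ : K →+* ℂ, B σ σ +
    2 / r * ∑ σ : K →+* ℂ, ∑ τ : K →+* ℂ, (if Agree σ τ then B σ τ else 0) with hBB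
  have hup : ∀ s : ℝ, 1 < s → s ≤ 2 → (3 * ∑ σ : K →+* ℂ, (π.S2 σ σ s).re +
      2 / r * ∑ σ : K →+* ℂ, ∑ τ : K →+* ℂ, if Agree σ τ then (π.S2 σ τ s).re else 0) ≤
      (3 * D + 2 / r * D) * -Real.log (s - 1) + BB := by
    intro s hs hs2
    have e1 : ∑ σ : K →+* ℂ, (π.S2 σ σ s).re ≤ D * -Real.log (s - 1) + ∑ σ : K →+* ℂ, B σ σ := by
      calc ∑ σ : K →+* ℂ, (π.S2 σ σ s).re ≤ ∑ σ : K →+* ℂ, (-Real.log (s - 1) + B σ σ) := by
            refine Finset.sum_le_sum fun σ _ => ?_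
            have := hB σ σ s hs hs2 (agree_refl σ)
            rwa [if_pos rfl] at this
        _ = _ := by
            rw [Finset.sum_add_distrib, Finset.sum_const, Finset.card_univ, nsmul_eq_mul, ← hD]
    have e2 : ∑ σ : K →+* ℂ, ∑ τ : K →+* ℂ, (if Agree σ τ then (π.S2 σ τ s).re else 0) ≤
        D * -Real.log (s - 1) + ∑ σ : K →+* ℂ, ∑ τ : K →+* ℂ, (if Agree σ τ then B σ τ else 0) := by
      calc ∑ σ : K →+* ℂ, ∑ τ : K →+* ℂ, (if Agree σ τ then (π.S2 σ τ s).re else 0) ≤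
          ∑ σ : K →+* ℂ, ∑ τ : K →+* ℂ, ((if σ = τ then -Real.log (s - 1) else 0) +
            (if Agree σ τ then B σ τ else 0)) := by
            refine Finset.sum_le_sum fun σ _ => Finset.sum_le_sum fun τ _ => ?_
            by_cases hag : Agree σ τ
            · rw [if_pos hag, if_pos hag]
              exact hB σ τ s hs hs2 hag
            · rw [if_neg hag, if_neg hag, add_zero]
              have hne : σ ≠ τ := by
                rintro rfl
                exact hag (agree_refl σ)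
              rw [if_neg hne]
        _ = _ := by
            simp only [Finset.sum_add_distrib, Finset.sum_ite_eq, Finset.mem_univ, if_true]
            rw [Finset.sum_const, Finset.card_univ, nsmul_eq_mul, ← hD]
    have e3 : 0 ≤ 2 / r := by positivity
    have e4 := mul_le_mul_of_nonneg_left e2 e3
    rw [hBB]
    linarith
  intro ε hε
  have key := dens_of_bound (N := π.level) π.level_pos (fun p => (π.A p).trace = 0)
    (θ := (3 + 2 / r) / 5) (by positivity) (C := BB / (5 * D)) (fun s hs hs2 Q hQ => ?_) hε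
  · have e1 : ∀ (P : ℕ → Prop) (s : ℝ), SatakeSystem.primeSum (fun p => π.Good p ∧ P p) s =
        Maass74.primeSum (fun p => ¬ p ∣ π.level ∧ P p) s := by
      intro P s
      unfold SatakeSystem.primeSum Maass74.primeSum
      have : ∀ p : ℕ, (p.Prime ∧ π.Good p ∧ P p) ↔ (p.Prime ∧ ¬ p ∣ π.level ∧ P p) := by
        intro p
        unfold Good
        tauto
      exact (Equiv.subtypeEquivRight this).tsum_eq
        (fun q : {p : ℕ // p.Prime ∧ ¬ p ∣ π.level ∧ P p} => ((q : ℕ) : ℝ) ^ (-s))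
    filter_upwards [key] with s hs
    rw [e1]
    have e2 : (2 / 5 * (1 - 1 / (Module.finrank
        (IntermediateField.adjoin ℚ {x : K | ∃ k : ℕ, 0 < k ∧ x ^ k = 1}) K : ℝ)) - ε) =
        1 - (3 + 2 / r) / 5 - ε := by
      have : (Module.finrank
        (IntermediateField.adjoin ℚ {x : K | ∃ k : ℕ, 0 < k ∧ x ^ k = 1}) K : ℝ) = r := rfl
      rw [this]
      ring
    rw [e2]
    exact hs
  · -- the finite sums
    let e : ℕ → Nat.Primes × ℕ := fun p => if hp : p.Prime then (⟨p, hp⟩, 0)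
      else (⟨2, Nat.prime_two⟩, 0)
    have he : ∀ p (hp : p.Prime), e p = (⟨p, hp⟩, 0) := fun p hp => dif_pos hp
    have hinj : Set.InjOn e Q := by
      intro p hp q hq hpq
      rw [he p (hQ p hp).1, he q (hQ q hq).1] at hpq
      have := (Prod.mk.inj hpq).1
      exact congrArg Subtype.val this
    have h5 : ∑ q ∈ Q.image e, t q / pw s q ≤ ∑' q, t q / pw s q :=
      (ht s hs).summable.sum_le_tsum (Q.image e)
        (fun q _ => div_nonneg (ht0 q) (pw_pos s q).le)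
    rw [Finset.sum_image hinj, (ht s hs).tsum_eq] at h5
    have h6 : ∑ p ∈ Q, 5 * D * (p : ℝ) ^ (-s) ≤ ∑ p ∈ Q, t (e p) / pw s (e p) := by
      refine Finset.sum_le_sum fun p hp => ?_
      obtain ⟨hp1, hp2, hp3⟩ := hQ p hp
      rw [he p hp1]
      have h7 := ht5 ⟨p, hp1⟩ ⟨hp1, hp2⟩ hp3
      have h8 : pw s (⟨p, hp1⟩, 0) = (p : ℝ) ^ s := by
        unfold pw
        simp
      have hp0 : (0 : ℝ) < p := by exact_mod_cast hp1.pos
      rw [h8, Real.rpow_neg hp0.le, div_eq_mul_inv]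
      exact mul_le_mul_of_nonneg_right h7 (by positivity)
    have h9 := (h6.trans h5).trans (hup s hs hs2)
    rw [← Finset.mul_sum] at h9
    have h10 : ∑ p ∈ Q, (p : ℝ) ^ (-s) ≤
        ((3 * D + 2 / r * D) * -Real.log (s - 1) + BB) / (5 * D) := by
      rw [le_div_iff₀ (by positivity)]
      linarith
    refine h10.trans (le_of_eq ?_)
    field_simp

end SatakeSystem

end Pool.Agent.H74V
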